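import Pool.Agent.T2H62.ML.D
import Pool.Agent.T2H62.MD.K

set_option autoImplicit false

/-! # Starting points of long chains without small prime factors -/

namespace Pool.Agent.T2H62.ML

open Finset Filter Topology
open Pool.Agent.T2H53.GW
open Pool.Agent.T2H62.MD
open Pool.Agent.H305R2 (VV VV_tendsto)

/-- the forms `2 ^ j n + 1`, `j < K` -/
def FC (K : ℕ) : Finset (ℕ × ℕ) := (range K).image (fun j => (2 ^ j, 1))

theorem mem_FC {K : ℕ} {f : ℕ × ℕ} : f ∈ FC K ↔ ∃ j < K, f = (2 ^ j, 1) := by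
  unfold FC
  rw [mem_image]
  constructor
  · rintro ⟨j, hj, rfl⟩
    exact ⟨j, mem_range.1 hj, rfl⟩
  · rintro ⟨j, hj, rfl⟩
    exact ⟨j, mem_range.2 hj, rfl⟩

theorem XF_FC_card (K : ℕ) {q : ℕ} (hq : q.Prime) : (XF (FC K) q).card ≤ K := by
  classical
  have hqz : Prime (q : ℤ) := Nat.prime_iff_prime_int.1 hq
  have hex : ∀ r ∈ XF (FC K) q, ∃ j ∈ range K, q ∣ 2 ^ j * r + 1 := by
    intro r hr
    unfold XF at hr
    rw [mem_filter] at hr
    obtain ⟨_, f, hf, hd⟩ := hr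
    obtain ⟨j, hj, rfl⟩ := mem_FC.1 hf
    exact ⟨j, mem_range.2 hj, hd⟩
  choose! g hg using hex
  have h1 : (XF (FC K) q).card ≤ (range K).card := by
    refine card_le_card_of_injOn g (fun r hr => (hg r hr).1) ?_
    intro r hr r' hr' h
    have h2 := (hg r hr).2
    have h3 := (hg r' hr').2
    rw [← h] at h3
    have hrq := mem_range.1 (XF_sub _ _ hr)
    have hrq' := mem_range.1 (XF_sub _ _ hr')
    have h4 : (q : ℤ) ∣ (2 : ℤ) ^ (g r) * ((r : ℤ) - r') := by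
      have h5 := dvd_sub (Int.natCast_dvd_natCast.2 h2) (Int.natCast_dvd_natCast.2 h3)
      push_cast at h5
      rwa [show (2 : ℤ) ^ (g r) * r + 1 - ((2 : ℤ) ^ (g r) * r' + 1) = (2 : ℤ) ^ (g r) * ((r : ℤ) - r') by ring] at h5
    rcases hqz.dvd_or_dvd h4 with h5 | h5
    · exfalso
      have h6 : q ∣ 2 ^ (g r) := by exact_mod_cast h5
      have h7 : q ∣ 1 := (Nat.dvd_add_right (h6.mul_right r)).1 h2
      exact hq.one_lt.ne' (Nat.dvd_one.1 h7)
    · have h6 : (r : ℤ) ≡ r' [ZMOD q] := Int.modEq_iff_dvd.2 (by rw [← dvd_neg]; simpa using h5)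
      have h7 := Int.natCast_modEq_iff.1 h6
      unfold Nat.ModEq at h7
      rwa [Nat.mod_eq_of_lt hrq, Nat.mod_eq_of_lt hrq'] at h7
  rwa [card_range] at h1

/-- the starting points with rough chains -/
noncomputable def RC (A : ℝ) (K N : ℕ) : Finset ℕ := by
  classical exact (Ioc N (2 * N)).filter (fun n => ∀ p : ℕ, p.Prime → (p : ℝ) ≤ 2 * A * Real.log N → ∀ j < K, ¬ p ∣ 2 ^ j * n + 1)

theorem many_chains (A : ℝ) (hA : 0 < A) (ε : ℝ) (hε : 0 < ε) (hε1 : ε ≤ 1) : ∀ᶠ N : ℕ in atTop, ∀ K : ℕ, 1 ≤ K →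
    (K : ℝ) * Real.log (Real.log N) ≤ Real.log N → (N : ℝ) ^ (1 - ε) ≤ ((RC A K N).card : ℝ) := by
  classical
  have hTn : Tendsto (fun n : ℕ => (n : ℝ)) atTop atTop := tendsto_natCast_atTop_atTop
  have hL : Tendsto (fun n : ℕ => Real.log (n : ℝ)) atTop atTop := Real.tendsto_log_atTop.comp hTn
  have hL2 : Tendsto (fun n : ℕ => Real.log (Real.log (n : ℝ))) atTop atTop := Real.tendsto_log_atTop.comp hL
  have hz : Tendsto (fun n : ℕ => ⌊2 * A * Real.log (n : ℝ)⌋₊) atTop atTop :=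
    tendsto_nat_floor_atTop.comp (hL.const_mul_atTop (by positivity))
  obtain ⟨η, hη⟩ : ∃ η : ℝ, η = ε / 16 := ⟨_, rfl⟩
  have hη0 : 0 < η := by rw [hη]; positivity
  obtain ⟨δ₁, hδ₁⟩ : ∃ δ₁ : ℝ, δ₁ = η ^ 2 / (48 * A) := ⟨_, rfl⟩
  have hδ0 : 0 < δ₁ := by rw [hδ₁]; positivity
  filter_upwards [hz.eventually (pi_small δ₁ hδ0), hL2.eventually_ge_atTop (1 + 4 / η), hL.eventually_ge_atTop (2 / η + 2 * A + 2),
    log_log_small (6 / η) 1 1 one_pos, rpow_big 8 (ε / 2) (by positivity), eventually_ge_atTop 3]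
    with N e1 e2 e3 e4 e5 e6 K hK1 hK
  have hN0 : (0 : ℝ) < N := by exact_mod_cast (by omega : 0 < N)
  obtain ⟨ℓ, hℓ⟩ : ∃ ℓ : ℝ, ℓ = Real.log N := ⟨_, rfl⟩
  obtain ⟨ℓ₂, hℓ₂⟩ : ∃ ℓ₂ : ℝ, ℓ₂ = Real.log (Real.log N) := ⟨_, rfl⟩
  obtain ⟨z, hzd⟩ : ∃ z : ℕ, z = ⌊2 * A * Real.log (N : ℝ)⌋₊ := ⟨_, rfl⟩
  obtain ⟨y, hyd⟩ : ∃ y : ℕ, y = ⌊η * ℓ⌋₊ := ⟨_, rfl⟩
  rw [pow_one, Real.rpow_one] at e4
  rw [← hzd] at e1
  rw [← hℓ₂] at e2 e4 hK
  rw [← hℓ] at e3 e4 hK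
  rw [← hℓ] at hzd
  have h4η : 0 < 4 / η := by positivity
  have h2η : 0 < 2 / η := by positivity
  have hℓ₂0 : 0 < ℓ₂ := by linarith
  have hℓ0 : 0 < ℓ := by linarith
  have hηℓ : 2 ≤ η * ℓ := by
    have h1 : 2 / η ≤ ℓ := by linarith
    rw [div_le_iff₀ hη0] at h1
    linarith
  have hy1 : η * ℓ / 2 ≤ y := by
    have := Nat.lt_floor_add_one (η * ℓ)
    rw [← hyd] at this
    linarith
  have hy2 : (y : ℝ) ≤ η * ℓ := by rw [hyd]; exact Nat.floor_le (by positivity)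
  have hy0 : (0 : ℝ) < y := by linarith
  have hz2 : (z : ℝ) ≤ 2 * A * ℓ := by rw [hzd]; exact Nat.floor_le (by positivity)
  -- the length of the chains
  have hKℓ : (K : ℝ) ≤ ℓ / ℓ₂ := by rw [le_div_iff₀ hℓ₂0]; exact hK
  have hratio : 6 ≤ η * (ℓ / ℓ₂) := by
    rw [← mul_div_assoc, le_div_iff₀ hℓ₂0]
    rw [div_mul_eq_mul_div, div_le_iff₀ hη0] at e4
    linarith
  -- the primes of the sieve
  obtain ⟨P, hP⟩ : ∃ P : Finset ℕ, P = PJ z \ PJ y := ⟨_, rfl⟩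
  have hPp : ∀ p ∈ P, p.Prime ∧ y < p := by
    intro p hp
    rw [hP, Finset.mem_sdiff] at hp
    have h1 := PJ_prime hp.1
    refine ⟨h1, ?_⟩
    by_contra h2
    apply hp.2
    unfold PJ
    rw [mem_filter, mem_Icc]
    exact ⟨⟨h1.one_lt.le, by omega⟩, h1⟩
  have hPc : (P.card : ℝ) ≤ δ₁ * (2 * A * ℓ) := by
    have h1 : P.card ≤ (PJ z).card := card_le_card (by rw [hP]; exact sdiff_subset)
    have h2 : (P.card : ℝ) ≤ ((PJ z).card : ℝ) := by exact_mod_cast h1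
    calc (P.card : ℝ) ≤ δ₁ * z := h2.trans e1
      _ ≤ δ₁ * (2 * A * ℓ) := mul_le_mul_of_nonneg_left hz2 hδ0.le
  -- the bound for the sum
  obtain ⟨g, hg⟩ : ∃ g : ℕ → ℝ, g = fun p => ((XF (FC K) p).card : ℝ) / p := ⟨_, rfl⟩
  have hg1 : ∀ p ∈ P, 0 ≤ g p ∧ g p ≤ K / y := by
    intro p hp
    obtain ⟨h1, h2⟩ := hPp p hp
    rw [hg]
    refine ⟨by positivity, ?_⟩
    have h3 : ((XF (FC K) p).card : ℝ) ≤ K := by exact_mod_cast XF_FC_card K h1
    exact div_le_div₀ (Nat.cast_nonneg _) h3 hy0 (by exact_mod_cast h2.le)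
  have hKy : (K : ℝ) / y ≤ 1 / 2 := by
    rw [div_le_iff₀ hy0]
    have h1 : ℓ / ℓ₂ ≤ η * ℓ / 4 := by
      rw [div_le_iff₀ hℓ₂0]
      have h2 : 4 / η ≤ ℓ₂ := by linarith
      rw [div_le_iff₀ hη0] at h2
      nlinarith
    linarith
  obtain ⟨lam, hlam⟩ : ∃ lam : ℝ, lam = ∑ p ∈ P, g p := ⟨_, rfl⟩
  have hlam0 : 0 ≤ lam := by
    rw [hlam]
    exact sum_nonneg fun p hp => (hg1 p hp).1
  have hlam1 : lam ≤ η / 12 * (ℓ / ℓ₂) := by
    calc lam ≤ ∑ p ∈ P, (K : ℝ) / y := by rw [hlam]; exact sum_le_sum fun p hp => (hg1 p hp).2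
      _ = P.card * ((K : ℝ) / y) := by rw [sum_const, nsmul_eq_mul]
      _ ≤ (δ₁ * (2 * A * ℓ)) * ((ℓ / ℓ₂) / (η * ℓ / 2)) := by
          apply mul_le_mul hPc _ (by positivity) (by positivity)
          exact div_le_div₀ (by positivity) hKℓ (by positivity) hy1
      _ = η / 12 * (ℓ / ℓ₂) := by
          rw [hδ₁]
          field_simp
          ring
  -- the truncation
  obtain ⟨L, hLd⟩ : ∃ L : ℕ, L = ⌊η * (ℓ / ℓ₂)⌋₊ := ⟨_, rfl⟩
  have hL1 : η * (ℓ / ℓ₂) - 1 ≤ L := by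
    have := Nat.lt_floor_add_one (η * (ℓ / ℓ₂))
    rw [← hLd] at this
    linarith
  have hL2' : (L : ℝ) ≤ η * (ℓ / ℓ₂) := by rw [hLd]; exact Nat.floor_le (by positivity)
  have hpos2 : 0 < ℓ / ℓ₂ := by positivity
  have hexp : Real.exp (3 * lam - L) ≤ Real.exp (-(2 * lam)) / 4 := by
    have h1 : 3 * lam - L ≤ -(2 * lam) + Real.log (1 / 4) := by
      have h2 : Real.log (1 / 4) = - (2 * Real.log 2) := by
        rw [one_div, Real.log_inv, show (4 : ℝ) = 2 ^ 2 by norm_num, Real.log_pow]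
        norm_num
      have h3 := Real.log_two_lt_d9
      rw [h2]
      nlinarith
    calc Real.exp (3 * lam - L) ≤ Real.exp (-(2 * lam) + Real.log (1 / 4)) := Real.exp_le_exp.2 h1
      _ = Real.exp (-(2 * lam)) / 4 := by
          rw [Real.exp_add, Real.exp_log (by norm_num)]
          ring
  -- the modulus
  obtain ⟨m, hm⟩ : ∃ m : ℕ, m = primorial y := ⟨_, rfl⟩
  have hm0 : 0 < m := by rw [hm]; exact primorial_pos y
  have hm0' : (0 : ℝ) < m := by exact_mod_cast hm0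
  have hmN : (m : ℝ) ≤ Real.exp (2 * η * ℓ) := by
    have h1 : (m : ℝ) ≤ (4 : ℝ) ^ y := by rw [hm]; exact_mod_cast primorial_le_four_pow y
    refine h1.trans ?_
    have h2 : (4 : ℝ) ≤ Real.exp 2 := by
      have h3 := Real.quadratic_le_exp_of_nonneg (show (0 : ℝ) ≤ 2 by norm_num)
      linarith
    calc (4 : ℝ) ^ y ≤ (Real.exp 2) ^ y := pow_le_pow_left₀ (by norm_num) h2 y
      _ = Real.exp (y * 2) := by rw [← Real.exp_nat_mul]
      _ ≤ Real.exp (2 * η * ℓ) := Real.exp_le_exp.2 (by nlinarith)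
  have hmc : ∀ p ∈ P, Nat.Coprime m p := by
    intro p hp
    obtain ⟨h1, h2⟩ := hPp p hp
    rw [hm]
    unfold primorial
    apply Nat.Coprime.prod_left
    intro q hq
    rw [mem_filter, mem_range] at hq
    rw [Nat.coprime_primes hq.2 h1]
    omega
  have hbr := brun (XF (FC K)) P (fun p hp => (hPp p hp).1) (fun p hp => XF_sub _ p) m hm0 hmc 0 N (2 * N) (by omega) K hK1
    (fun p hp => XF_FC_card K (hPp p hp).1) L
  have hgd : ∑ p ∈ P, ((XF (FC K) p).card : ℝ) / p = lam := by rw [hlam, hg]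
  have hprod := prod_exp g P (fun p hp => ⟨(hg1 p hp).1, (hg1 p hp).2.trans hKy⟩)
  have hprod' : ∏ p ∈ P, (1 - ((XF (FC K) p).card : ℝ) / p) = ∏ p ∈ P, (1 - g p) := by rw [hg]
  rw [← hlam] at hprod
  rw [hgd, hprod'] at hbr
  have h2N : ((2 * N : ℕ) : ℝ) - N = N := by push_cast; ring
  rw [h2N] at hbr
  have hlow := (abs_le.1 hbr).1
  -- the error term
  have herr : (K : ℝ) ^ L * ((P.card : ℝ) + 1) ^ L ≤ Real.exp (3 * η * ℓ) := by
    rw [← mul_pow]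
    have h1 : (K : ℝ) ≤ ℓ := by
      refine hKℓ.trans ?_
      rw [div_le_iff₀ hℓ₂0]
      nlinarith
    have h2 : (P.card : ℝ) + 1 ≤ ℓ ^ 2 := by
      have h3 : δ₁ * (2 * A * ℓ) ≤ ℓ := by
        have h4 : δ₁ * (2 * A) ≤ 1 := by
          rw [hδ₁, hη]
          have h5 : (ε / 16) ^ 2 / (48 * A) * (2 * A) = (ε / 16) ^ 2 / 24 := by
            field_simp
            ring
          rw [h5]
          nlinarith
        calc δ₁ * (2 * A * ℓ) = (δ₁ * (2 * A)) * ℓ := by ring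
          _ ≤ 1 * ℓ := mul_le_mul_of_nonneg_right h4 hℓ0.le
          _ = ℓ := one_mul _
      have h4 : 2 ≤ ℓ := by nlinarith
      nlinarith
    have h3 : (K : ℝ) * ((P.card : ℝ) + 1) ≤ ℓ ^ 3 := by
      calc (K : ℝ) * ((P.card : ℝ) + 1) ≤ ℓ * ℓ ^ 2 := mul_le_mul h1 h2 (by positivity) hℓ0.le
        _ = ℓ ^ 3 := by ring
    calc ((K : ℝ) * ((P.card : ℝ) + 1)) ^ L ≤ (ℓ ^ 3) ^ L := pow_le_pow_left₀ (by positivity) h3 L
      _ = Real.exp (L * (3 * ℓ₂)) := by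
          rw [hℓ₂, ← hℓ, ← Real.rpow_natCast, Real.rpow_def_of_pos (by positivity), Real.log_pow]
          congr 1
          push_cast
          ring
      _ ≤ Real.exp (3 * η * ℓ) := by
          apply Real.exp_le_exp.2
          have h4 : (L : ℝ) * ℓ₂ ≤ η * ℓ := by
            calc (L : ℝ) * ℓ₂ ≤ (η * (ℓ / ℓ₂)) * ℓ₂ := mul_le_mul_of_nonneg_right hL2' hℓ₂0.le
              _ = η * ℓ := by field_simp
          linarith
  -- the main term
  have hmain : Real.exp (ℓ - 4 * η * ℓ) / 2 ≤ (N : ℝ) / m * (Real.exp (-(2 * lam)) / 2) := by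
    have h1 : Real.exp (ℓ - 2 * η * ℓ) ≤ (N : ℝ) / m := by
      rw [le_div_iff₀ hm0']
      calc Real.exp (ℓ - 2 * η * ℓ) * m ≤ Real.exp (ℓ - 2 * η * ℓ) * Real.exp (2 * η * ℓ) :=
            mul_le_mul_of_nonneg_left hmN (Real.exp_pos _).le
        _ = N := by
            rw [← Real.exp_add, show ℓ - 2 * η * ℓ + 2 * η * ℓ = ℓ by ring, hℓ, Real.exp_log hN0]
    have h2 : Real.exp (-(2 * η * ℓ)) ≤ Real.exp (-(2 * lam)) := by
      apply Real.exp_le_exp.2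
      have h3 : ℓ / ℓ₂ ≤ ℓ := by
        rw [div_le_iff₀ hℓ₂0]
        nlinarith
      have h4 : lam ≤ η * ℓ := by nlinarith
      linarith
    calc Real.exp (ℓ - 4 * η * ℓ) / 2 = Real.exp (ℓ - 2 * η * ℓ) * (Real.exp (-(2 * η * ℓ)) / 2) := by
          rw [← mul_div_assoc, ← Real.exp_add]
          congr 2
          ring
      _ ≤ (N : ℝ) / m * (Real.exp (-(2 * lam)) / 2) := by
          apply mul_le_mul h1 (by linarith) (by positivity) (by positivity)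
  have hcount : Real.exp (ℓ - 4 * η * ℓ) / 2 - Real.exp (3 * η * ℓ) ≤ (NX P (XF (FC K)) m 0 N (2 * N) : ℝ) := by
    have h1 : 0 ≤ (N : ℝ) / m := by positivity
    have h2 : (N : ℝ) / m * Real.exp (-(2 * lam)) ≤ (N : ℝ) / m * ∏ p ∈ P, (1 - g p) := mul_le_mul_of_nonneg_left hprod h1
    have h3 : 2 * ((N : ℝ) / m) * Real.exp (3 * lam - L) ≤ 2 * ((N : ℝ) / m) * (Real.exp (-(2 * lam)) / 4) :=
      mul_le_mul_of_nonneg_left hexp (by positivity)
    linarith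
  -- the inclusion
  have hsub : NX P (XF (FC K)) m 0 N (2 * N) ≤ (RC A K N).card := by
    unfold NX RC
    apply card_le_card
    intro n hn
    rw [mem_filter] at hn ⊢
    refine ⟨hn.1, fun p hp hpA j hj hd => ?_⟩
    have hpz : p ≤ z := by
      rw [hzd]
      apply Nat.le_floor
      rw [hℓ]
      exact hpA
    rcases Nat.lt_or_ge y p with h | h
    · have hpP : p ∈ P := by
        rw [hP, Finset.mem_sdiff]
        unfold PJ
        simp only [mem_filter, mem_Icc]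
        exact ⟨⟨⟨hp.one_lt.le, hpz⟩, hp⟩, fun h' => by omega⟩
      have h1 := (XF_iff (FC K) hp.pos n).1 (hn.2.2 p hpP) (2 ^ j, 1) (mem_FC.2 ⟨j, hj, rfl⟩)
      exact h1 hd
    · have h1 : p ∣ m := by
        rw [hm]
        unfold primorial
        apply dvd_prod_of_mem
        rw [mem_filter, mem_range]
        exact ⟨by omega, hp⟩
      have h2 : m ∣ n := (Nat.modEq_zero_iff_dvd).1 hn.2.1
      have h3 : p ∣ 2 ^ j * n := (h1.trans h2).mul_left _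
      have h4 : p ∣ 1 := (Nat.dvd_add_right h3).1 hd
      exact hp.one_lt.ne' (Nat.dvd_one.1 h4)
  have hsub' : (NX P (XF (FC K)) m 0 N (2 * N) : ℝ) ≤ ((RC A K N).card : ℝ) := by exact_mod_cast hsub
  refine le_trans ?_ (hcount.trans hsub')
  -- numbers
  have hNε : (8 : ℝ) < Real.exp (ε / 2 * ℓ) := by
    rw [Real.rpow_def_of_pos hN0] at e5
    rw [hℓ]
    rwa [mul_comm] at e5
  have h1 : (N : ℝ) ^ (1 - ε) = Real.exp ((1 - ε) * ℓ) := by
    rw [Real.rpow_def_of_pos hN0, hℓ]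
    congr 1
    ring
  rw [h1]
  have h2 : Real.exp (ℓ - 4 * η * ℓ) = Real.exp ((1 - ε) * ℓ) * Real.exp (3 * ε / 4 * ℓ) := by
    rw [← Real.exp_add]
    congr 1
    rw [hη]
    ring
  have h3 : Real.exp (ε / 2 * ℓ) ≤ Real.exp (3 * ε / 4 * ℓ) := by
    apply Real.exp_le_exp.2
    nlinarith [mul_pos hε hℓ0]
  have h4 : Real.exp (3 * η * ℓ) ≤ Real.exp (ℓ - 4 * η * ℓ) / 8 := by
    have h5 : Real.exp (3 * η * ℓ) * Real.exp (ε / 2 * ℓ) ≤ Real.exp (ℓ - 4 * η * ℓ) := by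
      rw [← Real.exp_add]
      apply Real.exp_le_exp.2
      rw [hη]
      nlinarith [mul_pos hε hℓ0]
    have h6 : 0 < Real.exp (3 * η * ℓ) := Real.exp_pos _
    nlinarith
  have h5 : 0 < Real.exp ((1 - ε) * ℓ) := Real.exp_pos _
  have h6 : Real.exp ((1 - ε) * ℓ) * 8 ≤ Real.exp ((1 - ε) * ℓ) * Real.exp (3 * ε / 4 * ℓ) :=
    mul_le_mul_of_nonneg_left (by linarith) h5.le
  rw [h2] at h4 ⊢
  linarith

end Pool.Agent.T2H62.ML
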