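import Pool.Agent.T2H62.ML.C
import Pool.Agent.T2H62.ML.E
import Pool.Agent.T2H62.MD.L

set_option autoImplicit false

/-! # Long chains of random primes -/

namespace Pool.Agent.T2H62.ML

open Finset Filter Topology MeasureTheory ProbabilityTheory
open Pool.Agent.T2H53.GW
open Pool.Agent.T2H62.MD
open Pool.Agent.H305R2 (VV VV_tendsto)

variable {Ω : Type*} [MeasurableSpace Ω] {μ : Measure Ω} [IsProbabilityMeasure μ] {S : ℕ → Set Ω}

theorem FC_nondeg (K : ℕ) : Nondeg (FC K) := by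
  constructor
  · intro f hf
    obtain ⟨j, _, rfl⟩ := mem_FC.1 hf
    exact Nat.one_le_two_pow
  · intro f hf f' hf' hne
    obtain ⟨j, _, rfl⟩ := mem_FC.1 hf
    obtain ⟨j', _, rfl⟩ := mem_FC.1 hf'
    simp only [mul_one]
    intro h
    apply hne
    rw [Nat.pow_right_injective (le_refl 2) h]

theorem pow_sep {N n n' i j : ℕ} (hn : n ∈ Ioc N (2 * N)) (hn' : n' ∈ Ioc N (2 * N)) (hij : i < j) :
    2 ^ i * n + 1 < 2 ^ j * n' + 1 := by
  rw [mem_Ioc] at hn hn'
  have h1 : 2 ^ i * n ≤ 2 ^ i * (2 * N) := Nat.mul_le_mul_left _ hn.2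
  have h2 : 2 ^ (i + 1) ≤ 2 ^ j := Nat.pow_le_pow_right (by norm_num) hij
  have h3 : 2 ^ (i + 1) * n' ≤ 2 ^ j * n' := Nat.mul_le_mul_right _ h2
  have h4 : 2 ^ (i + 1) * N < 2 ^ (i + 1) * n' := Nat.mul_lt_mul_of_pos_left hn'.1 (by positivity)
  rw [pow_succ] at h3 h4
  nlinarith

theorem FC_sep (K : ℕ) : Sep (FC K) := by
  intro N n n' hn hn' f hf f' hf' hne
  obtain ⟨i, _, rfl⟩ := mem_FC.1 hf
  obtain ⟨j, _, rfl⟩ := mem_FC.1 hf'
  unfold vl
  simp only
  rcases lt_trichotomy i j with h | h | h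
  · exact (pow_sep hn hn' h).ne
  · rw [h] at hne
    exact absurd rfl hne
  · exact (pow_sep hn' hn h).ne'

theorem FC_card (K : ℕ) : (FC K).card = K := by
  unfold FC
  rw [card_image_of_injective, card_range]
  intro i j h
  simp only [Prod.mk.injEq, and_true] at h
  exact Nat.pow_right_injective (le_refl 2) h

/-- the class `0` is always admissible -/
theorem FC_adm (K : ℕ) {p : ℕ} (hp : p.Prime) : (XF (FC K) p).card < p := by
  have h1 : XF (FC K) p ⊆ (range p).erase 0 := by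
    intro r hr
    rw [mem_erase]
    refine ⟨?_, XF_sub _ _ hr⟩
    rintro rfl
    unfold XF at hr
    rw [mem_filter] at hr
    obtain ⟨_, f, hf, hd⟩ := hr
    obtain ⟨j, _, rfl⟩ := mem_FC.1 hf
    unfold vl at hd
    rw [mul_zero, zero_add] at hd
    exact hp.one_lt.ne' (Nat.dvd_one.1 hd)
  have h2 := card_le_card h1
  rw [card_erase_of_mem (mem_range.2 hp.pos), card_range] at h2
  have := hp.pos
  omega

theorem prod_FC {M : Type*} [CommMonoid M] (K : ℕ) (h : ℕ → M) (n : ℕ) : ∏ f ∈ FC K, h (vl f n) = ∏ j ∈ range K, h (2 ^ j * n + 1) := by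
  unfold FC
  rw [prod_image]
  · rfl
  · intro i _ j _ h
    simp only [Prod.mk.injEq, and_true] at h
    exact Nat.pow_right_injective (le_refl 2) h

/-- almost surely there are chains of every exact length up to `(1 - ε) log N / log log N` -/
theorem exact_exist (A : ℝ) (hA : 0 < A) (hm : ∀ n, MeasurableSet (S n)) (hi : iIndepSet S μ)
    (hp : ∀ n, μ.real (S n) = pr A n) (ε : ℝ) (hε : 0 < ε) (hε1 : ε ≤ 1) :
    ∀ᵐ ω ∂μ, ∀ᶠ N : ℕ in atTop, ∀ K : ℕ, 1 ≤ K → (K : ℝ) * Real.log (Real.log N) ≤ (1 - ε) * Real.log N →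
      ∃ n ∈ Ioc N (2 * N), (∀ j < K, ω ∈ S (2 ^ j * n + 1)) ∧ ω ∉ S (2 ^ K * n + 1) := by
  classical
  have hTn : Tendsto (fun n : ℕ => (n : ℝ)) atTop atTop := tendsto_natCast_atTop_atTop
  have hL : Tendsto (fun n : ℕ => Real.log (n : ℝ)) atTop atTop := Real.tendsto_log_atTop.comp hTn
  have hL2 : Tendsto (fun n : ℕ => Real.log (Real.log (n : ℝ))) atTop atTop := Real.tendsto_log_atTop.comp hL
  -- the flipped events
  obtain ⟨B, hB⟩ : ∃ B : ℕ → ℕ → Set ℕ, B = fun N K => {v | ∃ n ∈ Ioc N (2 * N), v = 2 ^ K * n + 1} := ⟨_, rfl⟩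
  obtain ⟨S', hS'⟩ : ∃ S' : ℕ → ℕ → ℕ → Set Ω, S' = fun N K v => if v ∈ B N K then (S v)ᶜ else S v := ⟨_, rfl⟩
  obtain ⟨E, hE⟩ : ∃ E : ℕ → ℕ → ℕ → Set Ω, E = fun N K n => ⋂ j ∈ WF (FC (K + 1)) N n, S' N K j := ⟨_, rfl⟩
  have hm' : ∀ N K v, MeasurableSet (S' N K v) := by
    intro N K v
    rw [hS']
    simp only
    split_ifs
    · exact (hm v).compl
    · exact hm v
  have hi' : ∀ N K, iIndepSet (S' N K) μ := by
    intro N K
    rw [hS']
    exact indep_flip hi (B N K)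
  have hEm : ∀ N K n, MeasurableSet (E N K n) := by
    intro N K n
    rw [hE]
    exact (WF (FC (K + 1)) N n).measurableSet_biInter fun j _ => hm' N K j
  have hEi : ∀ N K, iIndepSet (E N K) μ := by
    intro N K
    rw [hE]
    exact indep_blocks (hm' N K) (hi' N K) _ (WF_disj (FC_nondeg (K + 1)).1 (FC_sep (K + 1)) N)
  -- membership in `B`
  have hB1 : ∀ N K n, n ∈ Ioc N (2 * N) → 2 ^ K * n + 1 ∈ B N K := by
    intro N K n hn
    rw [hB]
    exact ⟨n, hn, rfl⟩
  have hB2 : ∀ N K n j, n ∈ Ioc N (2 * N) → j < K → 2 ^ j * n + 1 ∉ B N K := by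
    intro N K n j hn hj h
    rw [hB] at h
    obtain ⟨n', hn', he⟩ := h
    exact (pow_sep hn hn' hj).ne he
  -- meaning of `E`
  have hEmem : ∀ N K n ω, n ∈ Ioc N (2 * N) → ω ∈ E N K n → (∀ j < K, ω ∈ S (2 ^ j * n + 1)) ∧ ω ∉ S (2 ^ K * n + 1) := by
    intro N K n ω hn hω
    rw [hE] at hω
    simp only at hω
    rw [WF_inter _ hn] at hω
    unfold Ff at hω
    simp only [Set.mem_iInter] at hω
    constructor
    · intro j hj
      have h1 := hω (2 ^ j, 1) (mem_FC.2 ⟨j, by omega, rfl⟩)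
      unfold vl at h1
      rw [hS'] at h1
      simp only at h1
      rwa [if_neg (hB2 N K n j hn hj)] at h1
    · have h1 := hω (2 ^ K, 1) (mem_FC.2 ⟨K, by omega, rfl⟩)
      unfold vl at h1
      rw [hS'] at h1
      simp only at h1
      rwa [if_pos (hB1 N K n hn)] at h1
  -- probability of `E`
  have hEp : ∀ N K n, n ∈ Ioc N (2 * N) → μ.real (E N K n) = (∏ j ∈ range K, pr A (2 ^ j * n + 1)) * (1 - pr A (2 ^ K * n + 1)) := by
    intro N K n hn
    have h1 : E N K n = Ff (S' N K) (FC (K + 1)) n := by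
      rw [hE]
      exact WF_inter _ hn
    rw [h1, prob_Ff (hm' N K) (hi' N K) (FC_sep (K + 1)) hn, prod_FC (K + 1) (fun v => μ.real (S' N K v)), prod_range_succ]
    congr 1
    · refine prod_congr rfl fun j hj => ?_
      rw [hS']
      simp only
      rw [if_neg (hB2 N K n j hn (mem_range.1 hj)), hp]
    · rw [hS']
      simp only
      rw [if_pos (hB1 N K n hn), probReal_compl_eq_one_sub (hm _), hp]
  obtain ⟨I, hI⟩ : ∃ I : ℕ → Finset ℕ, I = fun N : ℕ => (Icc 1 N).filter (fun K : ℕ => (K : ℝ) * Real.log (Real.log N) ≤ (1 - ε) * Real.log N) := ⟨_, rfl⟩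
  have hprob : ∀ᶠ N : ℕ in atTop, μ.real (⋃ K ∈ I N, (HF (E N K) (Ioc N (2 * N)))ᶜ) ≤ 1 / (N : ℝ) ^ 2 := by
    obtain ⟨n₁, hn₁⟩ := eventually_atTop.1 (pr_small A hA (1 / 2) (by norm_num))
    filter_upwards [many_chains A hA (ε / 4) (by positivity) (by linarith), hL2.eventually_ge_atTop (8 / ε + 3),
      hL.eventually_ge_atTop 3, log_pow_small 1 6 (ε / 2) (by positivity) (by norm_num), eventually_ge_atTop (n₁ + 3)]
      with N e1 e2 e3 e4 e5
    have hN0 : (0 : ℝ) < N := by exact_mod_cast (by omega : 0 < N)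
    obtain ⟨ℓ, hℓ⟩ : ∃ ℓ : ℝ, ℓ = Real.log N := ⟨_, rfl⟩
    obtain ⟨ℓ₂, hℓ₂⟩ : ∃ ℓ₂ : ℝ, ℓ₂ = Real.log (Real.log N) := ⟨_, rfl⟩
    rw [← hℓ₂] at e1 e2
    rw [← hℓ] at e1 e3 e4
    have h8ε : 0 < 8 / ε := by positivity
    have hℓ₂0 : 0 < ℓ₂ := by linarith
    have hℓ0 : 0 < ℓ := by linarith
    have hone : ∀ K ∈ I N, μ.real ((HF (E N K) (Ioc N (2 * N)))ᶜ) ≤ 1 / (N : ℝ) ^ 3 := by
      intro K hK
      rw [hI, mem_filter, mem_Icc, ← hℓ₂, ← hℓ] at hK
      obtain ⟨⟨hK1, hK2⟩, hK3⟩ := hK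
      have hKℓ : (K : ℝ) * ℓ₂ ≤ ℓ := hK3.trans (by nlinarith)
      have hK4 := e1 K hK1 hKℓ
      refine (none_le (E N K) (hEm N K) (hEi N K) (Ioc N (2 * N))).trans ?_
      -- the sum of the probabilities
      have hsum : 3 * ℓ ≤ ∑ n ∈ Ioc N (2 * N), μ.real (E N K n) := by
        have hK0 : (1 : ℝ) ≤ K := by exact_mod_cast hK1
        have hKle : (K : ℝ) ≤ ℓ / ℓ₂ := by rw [le_div_iff₀ hℓ₂0]; exact hKℓ
        have hℓ₂3 : 3 ≤ ℓ₂ := by linarith
        -- sizes of the elements of the chain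
        have hlog : ∀ n ∈ Ioc N (2 * N), ∀ j < K, 1 ≤ Real.log ((2 ^ j * n + 1 : ℕ) : ℝ) ∧
            Real.log ((2 ^ j * n + 1 : ℕ) : ℝ) ≤ ℓ * (1 + 2 / ℓ₂) := by
          intro n hn j hj
          rw [mem_Ioc] at hn
          have h1 : N ≤ 2 ^ j * n + 1 := by
            have : 1 * n ≤ 2 ^ j * n := Nat.mul_le_mul_right _ Nat.one_le_two_pow
            omega
          have h2 : 2 ^ j * n + 1 ≤ 2 ^ (K + 1) * N := by
            have h3 : 2 ^ (j + 1) ≤ 2 ^ K := Nat.pow_le_pow_right (by norm_num) hj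
            have h4 : 2 ^ j * n ≤ 2 ^ j * (2 * N) := Nat.mul_le_mul_left _ hn.2
            have h5 : 2 ^ (j + 1) * N ≤ 2 ^ K * N := Nat.mul_le_mul_right _ h3
            have h6 : 1 ≤ 2 ^ K * N := Nat.mul_pos (by positivity) (by omega)
            rw [pow_succ] at h5 ⊢
            nlinarith
          constructor
          · have h3 : Real.log (N : ℝ) ≤ Real.log ((2 ^ j * n + 1 : ℕ) : ℝ) := Real.log_le_log hN0 (by exact_mod_cast h1)
            rw [← hℓ] at h3
            linarith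
          · have h3 : Real.log ((2 ^ j * n + 1 : ℕ) : ℝ) ≤ Real.log ((2 ^ (K + 1) * N : ℕ) : ℝ) :=
              Real.log_le_log (by positivity) (by exact_mod_cast h2)
            refine h3.trans ?_
            push_cast
            rw [Real.log_mul (by positivity) hN0.ne', Real.log_pow, ← hℓ]
            have h4 := Real.log_two_lt_d9
            have h5 : ((K + 1 : ℕ) : ℝ) * Real.log 2 ≤ 2 * K := by
              push_cast
              nlinarith [Real.log_pos (show (1 : ℝ) < 2 by norm_num)]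
            have h6 : 2 * (K : ℝ) ≤ ℓ * (2 / ℓ₂) := by
              calc 2 * (K : ℝ) ≤ 2 * (ℓ / ℓ₂) := by linarith
                _ = ℓ * (2 / ℓ₂) := by ring
            linarith
        have h2ℓ : ℓ * (1 + 2 / ℓ₂) ≤ 2 * ℓ := by
          have h1 : 2 / ℓ₂ ≤ 1 := by rw [div_le_one hℓ₂0]; linarith
          nlinarith
        have hterm : ∀ n ∈ RC A K N, (1 / (ℓ * (1 + 2 / ℓ₂))) ^ K / 2 ≤ μ.real (E N K n) := by
          intro n hn
          unfold RC at hn
          rw [mem_filter] at hn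
          obtain ⟨hn1, hn2⟩ := hn
          rw [hEp N K n hn1]
          have h1 : (1 / (ℓ * (1 + 2 / ℓ₂))) ^ K ≤ ∏ j ∈ range K, pr A (2 ^ j * n + 1) := by
            calc (1 / (ℓ * (1 + 2 / ℓ₂))) ^ K = ∏ j ∈ range K, (1 / (ℓ * (1 + 2 / ℓ₂))) := by
                  rw [prod_const, card_range]
              _ ≤ ∏ j ∈ range K, pr A (2 ^ j * n + 1) := by
                  refine prod_le_prod (fun j _ => by positivity) fun j hj => ?_
                  rw [mem_range] at hj
                  obtain ⟨h2, h3⟩ := hlog n hn1 j hj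
                  have h4 : 3 ≤ 2 ^ j * n + 1 := by
                    rw [mem_Ioc] at hn1
                    have : 1 * n ≤ 2 ^ j * n := Nat.mul_le_mul_right _ Nat.one_le_two_pow
                    omega
                  have h5 := pr_ge (A := A) h4 (fun p hpp hpA => hn2 p hpp (by
                    refine hpA.trans ?_
                    rw [← hℓ]
                    calc A * Real.log ((2 ^ j * n + 1 : ℕ) : ℝ) ≤ A * (2 * ℓ) :=
                          mul_le_mul_of_nonneg_left (h3.trans h2ℓ) hA.le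
                      _ = 2 * A * ℓ := by ring) j hj)
                  refine le_trans ?_ h5
                  exact one_div_le_one_div_of_le (by linarith) h3
          have h2 : (1 : ℝ) / 2 ≤ 1 - pr A (2 ^ K * n + 1) := by
            have h3 := hn₁ (2 ^ K * n + 1) (by
              rw [mem_Ioc] at hn1
              have : 1 * n ≤ 2 ^ K * n := Nat.mul_le_mul_right _ Nat.one_le_two_pow
              omega)
            linarith
          calc (1 / (ℓ * (1 + 2 / ℓ₂))) ^ K / 2 = (1 / (ℓ * (1 + 2 / ℓ₂))) ^ K * (1 / 2) := by ring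
            _ ≤ (∏ j ∈ range K, pr A (2 ^ j * n + 1)) * (1 - pr A (2 ^ K * n + 1)) :=
                mul_le_mul h1 h2 (by norm_num) (prod_nonneg fun j _ => pr_nonneg A _)
        have hsub : RC A K N ⊆ Ioc N (2 * N) := by
          unfold RC
          exact filter_subset _ _
        have h1 : ((RC A K N).card : ℝ) * ((1 / (ℓ * (1 + 2 / ℓ₂))) ^ K / 2) ≤ ∑ n ∈ Ioc N (2 * N), μ.real (E N K n) := by
          calc ((RC A K N).card : ℝ) * ((1 / (ℓ * (1 + 2 / ℓ₂))) ^ K / 2) = ∑ n ∈ RC A K N, (1 / (ℓ * (1 + 2 / ℓ₂))) ^ K / 2 := by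
                rw [sum_const, nsmul_eq_mul]
            _ ≤ ∑ n ∈ RC A K N, μ.real (E N K n) := sum_le_sum hterm
            _ ≤ ∑ n ∈ Ioc N (2 * N), μ.real (E N K n) :=
                sum_le_sum_of_subset_of_nonneg hsub fun n _ _ => measureReal_nonneg
        refine le_trans ?_ h1
        have h2 : Real.exp (-((1 - 3 * ε / 4) * ℓ)) ≤ (1 / (ℓ * (1 + 2 / ℓ₂))) ^ K := by
          have h3 : (1 / (ℓ * (1 + 2 / ℓ₂))) ^ K = Real.exp (-(K * (ℓ₂ + Real.log (1 + 2 / ℓ₂)))) := by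
            rw [one_div, inv_pow, Real.exp_neg, ← Real.rpow_natCast, Real.rpow_def_of_pos (by positivity),
              Real.log_mul hℓ0.ne' (by positivity)]
            congr 2
            rw [hℓ₂, ← hℓ]
            ring
          rw [h3]
          apply Real.exp_le_exp.2
          have h4 : Real.log (1 + 2 / ℓ₂) ≤ 2 / ℓ₂ := by
            have := Real.log_le_sub_one_of_pos (show (0 : ℝ) < 1 + 2 / ℓ₂ by positivity)
            linarith
          have h5 : (K : ℝ) * (2 / ℓ₂) ≤ ε / 4 * ℓ := by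
            have h6 : 2 / ℓ₂ ≤ ε / 4 := by
              rw [div_le_iff₀ hℓ₂0]
              have h7 : 8 / ε ≤ ℓ₂ := by linarith
              rw [div_le_iff₀ hε] at h7
              linarith
            have h7 : (K : ℝ) ≤ ℓ := by
              refine hKle.trans ?_
              rw [div_le_iff₀ hℓ₂0]
              nlinarith
            calc (K : ℝ) * (2 / ℓ₂) ≤ ℓ * (ε / 4) := mul_le_mul h7 h6 (by positivity) hℓ0.le
              _ = ε / 4 * ℓ := by ring
          have h6 : (K : ℝ) * Real.log (1 + 2 / ℓ₂) ≤ (K : ℝ) * (2 / ℓ₂) := mul_le_mul_of_nonneg_left h4 (by positivity)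
          nlinarith
        have h3 : Real.exp ((1 - ε / 4) * ℓ) ≤ ((RC A K N).card : ℝ) := by
          refine le_trans (le_of_eq ?_) hK4
          rw [Real.rpow_def_of_pos hN0, hℓ]
          congr 1
          ring
        have h4 : Real.exp (ε / 2 * ℓ) / 2 ≤ ((RC A K N).card : ℝ) * ((1 / (ℓ * (1 + 2 / ℓ₂))) ^ K / 2) := by
          calc Real.exp (ε / 2 * ℓ) / 2 = Real.exp ((1 - ε / 4) * ℓ) * (Real.exp (-((1 - 3 * ε / 4) * ℓ)) / 2) := by
                rw [← mul_div_assoc, ← Real.exp_add]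
                congr 2
                ring
            _ ≤ ((RC A K N).card : ℝ) * ((1 / (ℓ * (1 + 2 / ℓ₂))) ^ K / 2) := by
                apply mul_le_mul h3 (by linarith) (by positivity) (by positivity)
        refine le_trans ?_ h4
        rw [Real.rpow_def_of_pos hN0, ← hℓ, mul_comm ℓ] at e4
        rw [pow_one] at e4
        linarith
      calc Real.exp (-(∑ n ∈ Ioc N (2 * N), μ.real (E N K n))) ≤ Real.exp (-(3 * ℓ)) := Real.exp_le_exp.2 (by linarith)
        _ = 1 / (N : ℝ) ^ 3 := by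
            rw [Real.exp_neg, hℓ, show 3 * Real.log (N : ℝ) = Real.log ((N : ℝ) ^ 3) by rw [Real.log_pow]; norm_num,
              Real.exp_log (by positivity), one_div]
    have hcard : ((I N).card : ℝ) ≤ N := by
      have h1 : (I N).card ≤ N := by
        rw [hI]
        refine (card_filter_le _ _).trans ?_
        rw [Nat.card_Icc]
        omega
      exact_mod_cast h1
    calc μ.real (⋃ K ∈ I N, (HF (E N K) (Ioc N (2 * N)))ᶜ) ≤ ∑ K ∈ I N, μ.real ((HF (E N K) (Ioc N (2 * N)))ᶜ) :=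
          measureReal_biUnion_finset_le _ _
      _ ≤ ∑ K ∈ I N, 1 / (N : ℝ) ^ 3 := sum_le_sum hone
      _ = (I N).card * (1 / (N : ℝ) ^ 3) := by rw [sum_const, nsmul_eq_mul]
      _ ≤ N * (1 / (N : ℝ) ^ 3) := mul_le_mul_of_nonneg_right hcard (by positivity)
      _ = 1 / (N : ℝ) ^ 2 := by field_simp
  obtain ⟨n₀, hn₀⟩ := eventually_atTop.1 hprob
  have hsum : Summable (fun N : ℕ => 1 / (N : ℝ) ^ 2) := Real.summable_one_div_nat_pow.2 (by norm_num)
  have h2 := bc (μ := μ) (fun N => ⋃ K ∈ I N, (HF (E N K) (Ioc N (2 * N)))ᶜ) n₀ _ hsum (fun n hn => hn₀ n hn)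
  filter_upwards [h2] with ω hω
  filter_upwards [hω, hL2.eventually_ge_atTop 1, hL.eventually_ge_atTop 1, eventually_ge_atTop 3] with N h3 h4 h5 h6 K hK1 hK2
  have hN0 : (0 : ℝ) < N := by exact_mod_cast (by omega : 0 < N)
  have hKI : K ∈ I N := by
    rw [hI, mem_filter, mem_Icc]
    refine ⟨⟨hK1, ?_⟩, hK2⟩
    have h7 : (K : ℝ) ≤ N := by
      have h8 : (K : ℝ) * 1 ≤ (K : ℝ) * Real.log (Real.log N) := mul_le_mul_of_nonneg_left h4 (Nat.cast_nonneg _)
      have h9 : Real.log (N : ℝ) ≤ N := by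
        have := Real.log_le_sub_one_of_pos hN0
        linarith
      nlinarith
    exact_mod_cast h7
  have h7 : ω ∈ HF (E N K) (Ioc N (2 * N)) := by
    by_contra h8
    apply h3
    simp only [Set.mem_iUnion]
    exact ⟨K, hKI, h8⟩
  unfold HF at h7
  simp only [Set.mem_iUnion] at h7
  obtain ⟨n, hn, hωn⟩ := h7
  exact ⟨n, hn, hEmem N K n ω hn hωn⟩

/-- upper bound for the probabilities -/
theorem pr_up (A : ℝ) (hA : 0 < A) : ∀ᶠ N : ℕ in atTop, ∀ n : ℕ, N ≤ n →
    pr A n ≤ 4 * Real.log (Real.log N) / Real.log N := by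
  have hT : Tendsto (fun n : ℕ => (n : ℝ)) atTop atTop := tendsto_natCast_atTop_atTop
  have hL : Tendsto (fun n : ℕ => Real.log (n : ℝ)) atTop atTop := Real.tendsto_log_atTop.comp hT
  have hJ : Tendsto (fun x : ℕ => ⌊A * Real.log x⌋₊) atTop atTop :=
    tendsto_nat_floor_atTop.comp (hL.const_mul_atTop hA)
  have h1 := VV_tendsto.eventually (eventually_lt_nhds (show Real.exp Real.eulerMascheroniConstant < 2 by
    have := GG_lt_two
    unfold GG at this
    exact this))
  have h2 : ∀ᶠ n : ℕ in atTop, pr A n ≤ 4 * Real.log (Real.log n) / Real.log n := by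
    filter_upwards [hJ.eventually h1, hJ.eventually_ge_atTop 3, hL.eventually_ge_atTop (A + 1)] with n a1 a2 a4
    obtain ⟨j, hj⟩ : ∃ j, j = ⌊A * Real.log n⌋₊ := ⟨_, rfl⟩
    rw [← hj] at a1 a2
    have hj3 : (3 : ℝ) ≤ j := by exact_mod_cast a2
    have hlj : 0 < Real.log (j : ℝ) := Real.log_pos (by linarith)
    rw [div_lt_iff₀ hlj] at a1
    have hlog0 : 0 < Real.log (n : ℝ) := by linarith
    have hjA : (j : ℝ) ≤ A * Real.log n := by
      rw [hj]
      exact Nat.floor_le (by positivity)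
    have h5 : Real.log (j : ℝ) ≤ 2 * Real.log (Real.log n) := by
      have h6 : Real.log (j : ℝ) ≤ Real.log (Real.log n * Real.log n) :=
        Real.log_le_log (by linarith) (hjA.trans (mul_le_mul_of_nonneg_right (by linarith) hlog0.le))
      rw [Real.log_mul hlog0.ne' hlog0.ne'] at h6
      linarith
    unfold pr
    split_ifs
    · refine (min_le_right _ _).trans ?_
      rw [← hj]
      exact div_le_div_of_nonneg_right (by linarith) hlog0.le
    · apply div_nonneg _ hlog0.le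
      linarith
  obtain ⟨n₀, hn₀⟩ := eventually_atTop.1 h2
  filter_upwards [eventually_ge_atTop n₀, hL.eventually_ge_atTop 3] with N h3 h4 n hn
  have h5 := hn₀ n (h3.trans hn)
  refine h5.trans ?_
  have hN0 : (0 : ℝ) < N := by
    rcases Nat.eq_zero_or_pos N with h | h
    · rw [h] at h4
      simp at h4
      linarith
    · exact_mod_cast h
  have h6 : Real.log (N : ℝ) ≤ Real.log (n : ℝ) := Real.log_le_log hN0 (by exact_mod_cast hn)
  have hexp : Real.exp 1 ≤ 3 := by linarith [Real.exp_one_lt_d9]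
  have h7 := Real.log_div_self_antitoneOn (show Real.log (N : ℝ) ∈ {x : ℝ | Real.exp 1 ≤ x} by
    simp only [Set.mem_setOf_eq]; linarith) (show Real.log (n : ℝ) ∈ {x : ℝ | Real.exp 1 ≤ x} by
    simp only [Set.mem_setOf_eq]; linarith) h6
  simp only at h7
  rw [mul_div_assoc, mul_div_assoc]
  linarith

/-- almost surely there are no chains much longer than `log n / log log n` -/
theorem long_none (A : ℝ) (hA : 0 < A) (hm : ∀ n, MeasurableSet (S n)) (hi : iIndepSet S μ)
    (hp : ∀ n, μ.real (S n) = pr A n) (ε : ℝ) (hε : 0 < ε) (hε1 : ε ≤ 1) :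
    ∀ᵐ ω ∂μ, ∀ᶠ n : ℕ in atTop, ∀ K : ℕ, (1 + ε) * Real.log n ≤ (K : ℝ) * Real.log (Real.log n) →
      ∃ j < K, ω ∉ S (2 ^ j * n + 1) := by
  classical
  have hTn : Tendsto (fun n : ℕ => (n : ℝ)) atTop atTop := tendsto_natCast_atTop_atTop
  have hL : Tendsto (fun n : ℕ => Real.log (n : ℝ)) atTop atTop := Real.tendsto_log_atTop.comp hTn
  have hL2 : Tendsto (fun n : ℕ => Real.log (Real.log (n : ℝ))) atTop atTop := Real.tendsto_log_atTop.comp hL
  obtain ⟨κ, hκ⟩ : ∃ κ : ℕ → ℕ, κ = fun n : ℕ => ⌈(1 + ε) * Real.log n / Real.log (Real.log n)⌉₊ := ⟨_, rfl⟩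
  have hprob : ∀ᶠ n : ℕ in atTop, μ.real (⋂ f ∈ FC (κ n), S (vl f n)) ≤ 1 / (n : ℝ) ^ (1 + ε / 2) := by
    have h0 : ∀ᶠ x : ℝ in atTop, Real.log (4 * x) ≤ ε / 4 * x := by
      have h3 : (fun u : ℝ => Real.log (4 * u)) =o[atTop] (fun u : ℝ => 4 * u) :=
        Real.isLittleO_log_id_atTop.comp_tendsto (tendsto_id.const_mul_atTop (by norm_num))
      have h4 := h3.bound (show (0 : ℝ) < ε / 16 by positivity)
      filter_upwards [h4, eventually_ge_atTop 1] with x h5 h6
      have h7 := (le_abs_self _).trans h5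
      rw [Real.norm_eq_abs, abs_of_nonneg (by positivity)] at h7
      linarith
    filter_upwards [pr_up A hA, hL2.eventually h0, hL2.eventually_ge_atTop 1, hL.eventually_ge_atTop 3, eventually_ge_atTop 3]
      with n e1 e2 e3 e4 e5
    have hn0 : (0 : ℝ) < n := by exact_mod_cast (by omega : 0 < n)
    have hset : (⋂ f ∈ FC (κ n), S (vl f n)) = ⋂ v ∈ (FC (κ n)).image (fun f => vl f n), S v := by
      ext ω
      simp only [Set.mem_iInter, mem_image]
      constructor
      · rintro h v ⟨f, hf, rfl⟩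
        exact h f hf
      · intro h f hf
        exact h _ ⟨f, hf, rfl⟩
    rw [hset, prob_inter hm hi, prod_image, prod_FC (κ n) (fun v => μ.real (S v))]
    · obtain ⟨ℓ, hℓ⟩ : ∃ ℓ : ℝ, ℓ = Real.log n := ⟨_, rfl⟩
      obtain ⟨ℓ₂, hℓ₂⟩ : ∃ ℓ₂ : ℝ, ℓ₂ = Real.log (Real.log n) := ⟨_, rfl⟩
      rw [← hℓ₂] at e1 e2 e3
      rw [← hℓ] at e1 e4
      have hκ' : κ n = ⌈(1 + ε) * ℓ / ℓ₂⌉₊ := by rw [hκ, hℓ, hℓ₂]
      have hℓ0 : 0 < ℓ := by linarith
      have hℓ₂0 : 0 < ℓ₂ := by linarith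
      calc ∏ j ∈ range (κ n), μ.real (S (2 ^ j * n + 1)) ≤ ∏ j ∈ range (κ n), (4 * ℓ₂ / ℓ) := by
            refine prod_le_prod (fun j _ => measureReal_nonneg) fun j _ => ?_
            rw [hp]
            apply e1
            have : 1 * n ≤ 2 ^ j * n := Nat.mul_le_mul_right _ Nat.one_le_two_pow
            omega
        _ = Real.exp (-((κ n : ℝ) * (ℓ₂ - Real.log (4 * ℓ₂)))) := by
            rw [prod_const, card_range, ← Real.rpow_natCast, Real.rpow_def_of_pos (by positivity),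
              Real.log_div (by positivity) hℓ0.ne']
            congr 1
            rw [hℓ₂, ← hℓ]
            ring
        _ ≤ Real.exp (-((1 + ε / 2) * ℓ)) := by
            apply Real.exp_le_exp.2
            have h1 : (1 + ε) * ℓ / ℓ₂ ≤ (κ n : ℝ) := by rw [hκ']; exact Nat.le_ceil _
            have h2 : 0 ≤ ℓ₂ - Real.log (4 * ℓ₂) := by nlinarith
            have h3 : (1 + ε) * ℓ / ℓ₂ * (ℓ₂ - Real.log (4 * ℓ₂)) ≤ (κ n : ℝ) * (ℓ₂ - Real.log (4 * ℓ₂)) :=
              mul_le_mul_of_nonneg_right h1 h2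
            have h4 : (1 + ε) * ℓ / ℓ₂ * ((1 - ε / 4) * ℓ₂) ≤ (1 + ε) * ℓ / ℓ₂ * (ℓ₂ - Real.log (4 * ℓ₂)) := by
              apply mul_le_mul_of_nonneg_left _ (by positivity)
              linarith
            have h5 : (1 + ε) * ℓ / ℓ₂ * ((1 - ε / 4) * ℓ₂) = (1 + ε) * (1 - ε / 4) * ℓ := by field_simp
            have h6 : (1 + ε / 2) * ℓ ≤ (1 + ε) * (1 - ε / 4) * ℓ := by
              apply mul_le_mul_of_nonneg_right _ hℓ0.le
              nlinarith
            linarith
        _ = 1 / (n : ℝ) ^ (1 + ε / 2) := by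
            rw [Real.exp_neg, Real.rpow_def_of_pos hn0, ← hℓ, one_div]
            congr 2
            ring
    · intro f hf f' hf' h
      obtain ⟨i, _, rfl⟩ := mem_FC.1 hf
      obtain ⟨j, _, rfl⟩ := mem_FC.1 hf'
      unfold vl at h
      simp only at h
      have h1 : 2 ^ i * n = 2 ^ j * n := by omega
      have h2 := Nat.eq_of_mul_eq_mul_right (by omega : 0 < n) h1
      rw [Nat.pow_right_injective (le_refl 2) h2]
  obtain ⟨n₀, hn₀⟩ := eventually_atTop.1 hprob
  have hsum : Summable (fun n : ℕ => 1 / (n : ℝ) ^ (1 + ε / 2)) := Real.summable_one_div_nat_rpow.2 (by linarith)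
  have h2 := bc (μ := μ) (fun n => ⋂ f ∈ FC (κ n), S (vl f n)) n₀ _ hsum (fun n hn => hn₀ n hn)
  filter_upwards [h2] with ω hω
  filter_upwards [hω, hL2.eventually_ge_atTop 1] with n h3 h4 K hK
  by_contra h5
  push Not at h5
  apply h3
  simp only [Set.mem_iInter]
  intro f hf
  obtain ⟨j, hj, rfl⟩ := mem_FC.1 hf
  have h6 : κ n ≤ K := by
    rw [hκ]
    apply Nat.ceil_le.2
    rw [div_le_iff₀ (by linarith)]
    exact hK
  exact h5 j (by omega)

end Pool.Agent.T2H62.ML
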