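import Pool.Agent.T2H62.ML.B
import Pool.Agent.T2H62.MD.U

set_option autoImplicit false

/-! # Systems of linear forms: the Hardy-Littlewood asymptotics for random primes in all short intervals -/

namespace Pool.Agent.T2H62.ML

open Finset Filter Topology MeasureTheory ProbabilityTheory
open Pool.Agent.T2H53.GW
open Pool.Agent.T2H62.MD
open Pool.Agent.H305R2 (VV VV_tendsto)

variable {Ω : Type*} [MeasurableSpace Ω] {μ : Measure Ω} [IsProbabilityMeasure μ] {S : ℕ → Set Ω}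

/-- the events attached to disjoint blocks are independent -/
theorem indep_blocks (hm : ∀ n, MeasurableSet (S n)) (hi : iIndepSet S μ) (W : ℕ → Finset ℕ)
    (hW : ∀ a b, a ≠ b → Disjoint (W a) (W b)) : iIndepSet (fun n => ⋂ j ∈ W n, S j) μ := by
  classical
  rw [iIndepSet_iff_meas_biInter (fun n => (W n).measurableSet_biInter fun j _ => hm j)]
  rw [iIndepSet_iff_meas_biInter hm] at hi
  intro T
  have hdis : (T : Set ℕ).PairwiseDisjoint W := fun a _ b _ hab => hW a b hab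
  have h1 : (⋂ n ∈ T, ⋂ j ∈ W n, S j) = ⋂ j ∈ T.biUnion W, S j := by
    ext ω
    simp only [Set.mem_iInter, mem_biUnion]
    constructor
    · rintro h j ⟨n, hn, hj⟩
      exact h n hn j hj
    · intro h n hn j hj
      exact h _ ⟨n, hn, hj⟩
  rw [h1, hi, prod_biUnion hdis]
  exact prod_congr rfl fun n _ => (hi (W n)).symm

theorem gen_compl (s : Set Ω) : MeasurableSpace.generateFrom {sᶜ} = MeasurableSpace.generateFrom {s} := by
  apply le_antisymm
  · apply MeasurableSpace.generateFrom_le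
    intro t ht
    rw [Set.mem_singleton_iff] at ht
    rw [ht]
    exact (MeasurableSpace.measurableSet_generateFrom (Set.mem_singleton s)).compl
  · apply MeasurableSpace.generateFrom_le
    intro t ht
    rw [Set.mem_singleton_iff] at ht
    rw [ht]
    have := (MeasurableSpace.measurableSet_generateFrom (Set.mem_singleton sᶜ)).compl
    rwa [compl_compl] at this

open scoped Classical in
/-- complements of some of the events -/
theorem indep_flip (hi : iIndepSet S μ) (B : Set ℕ) : iIndepSet (fun n => if n ∈ B then (S n)ᶜ else S n) μ := by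
  have h1 : (fun n => MeasurableSpace.generateFrom {(if n ∈ B then (S n)ᶜ else S n)}) =
      fun n => MeasurableSpace.generateFrom {S n} := by
    funext n
    split_ifs
    · exact gen_compl _
    · rfl
  unfold iIndepSet Kernel.iIndepSet at hi ⊢
  rw [h1]
  exact hi

/-- the events `all f n ∈ R` -/
def Ff (S : ℕ → Set Ω) (F : Finset (ℕ × ℕ)) (n : ℕ) : Set Ω := ⋂ f ∈ F, S (vl f n)

/-- the values on a dyadic interval are different -/
def Sep (F : Finset (ℕ × ℕ)) : Prop :=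
  ∀ N n n' : ℕ, n ∈ Ioc N (2 * N) → n' ∈ Ioc N (2 * N) → ∀ f ∈ F, ∀ f' ∈ F, f ≠ f' → vl f n ≠ vl f' n'

/-- the values -/
def WF (F : Finset (ℕ × ℕ)) (N n : ℕ) : Finset ℕ := if n ∈ Ioc N (2 * N) then F.image (fun f => vl f n) else ∅

theorem WF_disj {F : Finset (ℕ × ℕ)} (h1 : ∀ f ∈ F, 1 ≤ f.1) (h2 : Sep F) (N a b : ℕ) (hab : a ≠ b) :
    Disjoint (WF F N a) (WF F N b) := by
  unfold WF
  split_ifs with ha hb
  · rw [Finset.disjoint_left]
    intro z hz hz'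
    rw [mem_image] at hz hz'
    obtain ⟨f, hf, rfl⟩ := hz
    obtain ⟨f', hf', he⟩ := hz'
    by_cases hff : f' = f
    · rw [hff] at he
      unfold vl at he
      have h3 : f.1 * b = f.1 * a := by omega
      exact hab (Nat.eq_of_mul_eq_mul_left (h1 f hf) h3).symm
    · exact h2 N b a hb ha f' hf' f hf hff he
  · exact disjoint_empty_right _
  · exact disjoint_empty_left _
  · exact disjoint_empty_left _

theorem WF_inter (F : Finset (ℕ × ℕ)) {N n : ℕ} (hn : n ∈ Ioc N (2 * N)) : (⋂ j ∈ WF F N n, S j) = Ff S F n := by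
  unfold WF Ff
  rw [if_pos hn]
  ext ω
  simp only [Set.mem_iInter, mem_image]
  constructor
  · intro h f hf
    exact h _ ⟨f, hf, rfl⟩
  · rintro h j ⟨f, hf, rfl⟩
    exact h f hf

theorem prob_Ff (hm : ∀ n, MeasurableSet (S n)) (hi : iIndepSet S μ) {F : Finset (ℕ × ℕ)} (h2 : Sep F) {N n : ℕ}
    (hn : n ∈ Ioc N (2 * N)) : μ.real (Ff S F n) = ∏ f ∈ F, μ.real (S (vl f n)) := by
  rw [← WF_inter F hn, prob_inter hm hi]
  unfold WF
  rw [if_pos hn, prod_image]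
  intro f hf f' hf' h
  by_contra hne
  exact h2 N n n hn hn f hf f' hf' hne h

/-- one system, one exponent, one error -/
theorem HL_one (A : ℝ) (hA : 0 < A) (hm : ∀ n, MeasurableSet (S n)) (hi : iIndepSet S μ)
    (hp : ∀ n, μ.real (S n) = pr A n) {F : Finset (ℕ × ℕ)} (hF : Nondeg F) (hS : Sep F) (c : ℕ) (hc : Bd F c)
    (s : ℝ) (hs0 : 0 < s)
    (hs : Tendsto (SSg (fun p => (XF F p).card) F.card) atTop (𝓝 s)) (ε δ : ℝ) (hε : 0 < ε) (hδ : 0 < δ) :
    ∀ᵐ ω ∂μ, ∀ᶠ N : ℕ in atTop, ∀ M : ℕ, (N : ℝ) + (N : ℝ) ^ ε ≤ M → M ≤ 2 * N →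
      |cnt (Ioc N M) (Ff S F) ω - s * (((M : ℝ) - N) / Real.log N ^ F.card)| ≤
        δ * (((M : ℝ) - N) / Real.log N ^ F.card) := by
  classical
  have hTn : Tendsto (fun n : ℕ => (n : ℝ)) atTop atTop := tendsto_natCast_atTop_atTop
  have hL : Tendsto (fun n : ℕ => Real.log (n : ℝ)) atTop atTop := Real.tendsto_log_atTop.comp hTn
  obtain ⟨k, hk⟩ : ∃ k, k = F.card := ⟨_, rfl⟩
  rw [← hk]
  obtain ⟨e, he⟩ : ∃ e : ℝ, e = δ / 2 := ⟨_, rfl⟩
  have he0 : 0 < e := by rw [he]; positivity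
  obtain ⟨κ, hκ⟩ : ∃ κ : ℝ, κ = e ^ 2 / (4 * (s + δ + e)) := ⟨_, rfl⟩
  have hκ0 : 0 < κ := by rw [hκ]; positivity
  obtain ⟨B, hB⟩ : ∃ B : ℕ → ℕ → Set Ω, B = fun (N M : ℕ) => {ω | e * (((M : ℝ) - N) / Real.log N ^ k) ≤
      |cnt (Ioc N M) (fun n => ⋂ j ∈ WF F N n, S j) ω - ∑ n ∈ Ioc N M, μ.real (⋂ j ∈ WF F N n, S j)|} := ⟨_, rfl⟩
  obtain ⟨I, hI⟩ : ∃ I : ℕ → Finset ℕ, I = fun N : ℕ => (Icc N (2 * N)).filter (fun M : ℕ => (N : ℝ) + (N : ℝ) ^ ε ≤ M) := ⟨_, rfl⟩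
  have hmean := mean_HL A hA hF c hc s hs0 hs ε (δ / 2) hε (by positivity)
  have hsum' : ∀ N M : ℕ, M ≤ 2 * N → ∑ n ∈ Ioc N M, μ.real (⋂ j ∈ WF F N n, S j) = ∑ n ∈ Ioc N M, ∏ f ∈ F, pr A (vl f n) := by
    intro N M hM
    refine sum_congr rfl fun n hn => ?_
    rw [mem_Ioc] at hn
    have hn' : n ∈ Ioc N (2 * N) := mem_Ioc.2 ⟨hn.1, by omega⟩
    rw [WF_inter F hn', prob_Ff hm hi hS hn']
    exact prod_congr rfl fun f _ => hp _
  have hcnt' : ∀ N M : ℕ, M ≤ 2 * N → ∀ ω, cnt (Ioc N M) (fun n => ⋂ j ∈ WF F N n, S j) ω = cnt (Ioc N M) (Ff S F) ω := by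
    intro N M hM ω
    unfold cnt
    refine sum_congr rfl fun n hn => ?_
    rw [mem_Ioc] at hn
    have hn' : n ∈ Ioc N (2 * N) := mem_Ioc.2 ⟨hn.1, by omega⟩
    simp only [WF_inter F hn']
  have hprob : ∀ᶠ N : ℕ in atTop, μ.real (⋃ M ∈ I N, B N M) ≤ 4 * (1 / (N : ℝ) ^ 2) := by
    filter_upwards [hmean, log_pow_small (k + 1) (3 / κ) ε hε (by positivity), eventually_ge_atTop 3] with N e1 e2 e3
    have hN0 : (0 : ℝ) < N := by exact_mod_cast (by omega : 0 < N)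
    have hN1 : (1 : ℝ) ≤ N := by exact_mod_cast (by omega : 1 ≤ N)
    have hlN : 0 < Real.log (N : ℝ) := Real.log_pos (by exact_mod_cast (by omega : 1 < N))
    have hone : ∀ M ∈ I N, μ.real (B N M) ≤ 2 * (1 / (N : ℝ) ^ 3) := by
      intro M hM
      rw [hI, mem_filter, mem_Icc] at hM
      obtain ⟨⟨hM1, hM2⟩, hM3⟩ := hM
      have h1 := e1 M hM3 hM2
      rw [← hk] at h1
      obtain ⟨D, hD⟩ : ∃ D : ℝ, D = ((M : ℝ) - N) / Real.log N ^ k := ⟨_, rfl⟩
      have hNe : 0 < (N : ℝ) ^ ε := by positivity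
      have hMN : (N : ℝ) ^ ε ≤ (M : ℝ) - N := by linarith
      have hLk : 0 < Real.log (N : ℝ) ^ k := by positivity
      have hD0 : 0 < D := by
        rw [hD]
        apply div_pos _ hLk
        linarith
      rw [← hD] at h1
      have h2 : ∑ n ∈ Ioc N M, μ.real (⋂ j ∈ WF F N n, S j) ≤ (s + δ + e) * D := by
        have h3 := (abs_le.1 h1).2
        rw [hsum' N M hM2]
        nlinarith [mul_pos hδ hD0, mul_pos he0 hD0]
      have h3 := chernoff (fun n => ⋂ j ∈ WF F N n, S j) (fun n => (WF F N n).measurableSet_biInter fun j _ => hm j)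
        (indep_blocks hm hi (WF F N) (WF_disj hF.1 hS N)) (Ioc N M) ((s + δ + e) * D) (e * D) h2 (by positivity)
        (mul_le_mul_of_nonneg_right (by linarith) hD0.le) (by positivity)
      rw [hB]
      show μ.real {ω | e * (((M : ℝ) - N) / Real.log N ^ k) ≤
        |cnt (Ioc N M) (fun n => ⋂ j ∈ WF F N n, S j) ω - ∑ n ∈ Ioc N M, μ.real (⋂ j ∈ WF F N n, S j)|} ≤ _
      rw [← hD]
      refine h3.trans ?_
      refine mul_le_mul_of_nonneg_left ?_ (by norm_num)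
      have h4 : (e * D) ^ 2 / (4 * ((s + δ + e) * D)) = κ * D := by
        rw [hκ]
        field_simp
      rw [h4]
      have h5 : 3 * Real.log N ≤ κ * D := by
        rw [hD, ← mul_div_assoc, le_div_iff₀ hLk]
        have h6 := e2.trans hMN
        rw [div_mul_eq_mul_div, div_le_iff₀ hκ0] at h6
        calc 3 * Real.log N * Real.log N ^ k = 3 * Real.log N ^ (k + 1) := by ring
          _ ≤ ((M : ℝ) - N) * κ := h6
          _ = κ * ((M : ℝ) - N) := by ring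
      calc Real.exp (-(κ * D)) ≤ Real.exp (-(3 * Real.log N)) := Real.exp_le_exp.2 (by linarith)
        _ = 1 / (N : ℝ) ^ 3 := by
          rw [Real.exp_neg, show 3 * Real.log (N : ℝ) = Real.log ((N : ℝ) ^ 3) by rw [Real.log_pow]; norm_num,
            Real.exp_log (by positivity), one_div]
    have hcard : ((I N).card : ℝ) ≤ 2 * N := by
      have h1 : (I N).card ≤ N + 1 := by
        rw [hI]
        refine (card_filter_le _ _).trans ?_
        rw [Nat.card_Icc]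
        omega
      have h2 : ((I N).card : ℝ) ≤ (N : ℝ) + 1 := by exact_mod_cast h1
      linarith
    calc μ.real (⋃ M ∈ I N, B N M) ≤ ∑ M ∈ I N, μ.real (B N M) := measureReal_biUnion_finset_le _ _
      _ ≤ ∑ M ∈ I N, 2 * (1 / (N : ℝ) ^ 3) := sum_le_sum hone
      _ = (I N).card * (2 * (1 / (N : ℝ) ^ 3)) := by rw [sum_const, nsmul_eq_mul]
      _ ≤ (2 * N) * (2 * (1 / (N : ℝ) ^ 3)) := mul_le_mul_of_nonneg_right hcard (by positivity)
      _ = 4 * (1 / (N : ℝ) ^ 2) := by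
          field_simp
          ring
  obtain ⟨n₀, hn₀⟩ := eventually_atTop.1 hprob
  have hsum : Summable (fun N : ℕ => 4 * (1 / (N : ℝ) ^ 2)) :=
    (Real.summable_one_div_nat_pow.2 (by norm_num)).mul_left _
  have h2 := bc (μ := μ) (fun N => ⋃ M ∈ I N, B N M) n₀ _ hsum (fun n hn => hn₀ n hn)
  filter_upwards [h2] with ω hω
  filter_upwards [hω, hmean, eventually_ge_atTop 3] with N h3 h4 h4' M hM1 hM2
  have hN0 : (0 : ℝ) < N := by exact_mod_cast (by omega : 0 < N)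
  have hNe : 0 < (N : ℝ) ^ ε := by positivity
  have hMmem : M ∈ I N := by
    rw [hI, mem_filter, mem_Icc]
    refine ⟨⟨?_, hM2⟩, hM1⟩
    have : (N : ℝ) ≤ M := by linarith
    exact_mod_cast this
  have h5 : ω ∉ B N M := by
    intro h6
    apply h3
    simp only [Set.mem_iUnion]
    exact ⟨M, hMmem, h6⟩
  rw [hB] at h5
  have h6 : |cnt (Ioc N M) (Ff S F) ω - ∑ n ∈ Ioc N M, ∏ f ∈ F, pr A (vl f n)| ≤
      e * (((M : ℝ) - N) / Real.log N ^ k) := by
    by_contra h7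
    push Not at h7
    apply h5
    show e * (((M : ℝ) - N) / Real.log N ^ k) ≤
      |cnt (Ioc N M) (fun n => ⋂ j ∈ WF F N n, S j) ω - ∑ n ∈ Ioc N M, μ.real (⋂ j ∈ WF F N n, S j)|
    rw [hcnt' N M hM2, hsum' N M hM2]
    exact h7.le
  have h7 := h4 M hM1 hM2
  rw [← hk] at h7
  rw [he] at h6
  have h10 := abs_add_le (cnt (Ioc N M) (Ff S F) ω - ∑ n ∈ Ioc N M, ∏ f ∈ F, pr A (vl f n))
    (∑ n ∈ Ioc N M, ∏ f ∈ F, pr A (vl f n) - s * (((M : ℝ) - N) / Real.log N ^ k))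
  rw [sub_add_sub_cancel] at h10
  linarith

/-- one system, all exponents, all errors -/
theorem HL_system (A : ℝ) (hA : 0 < A) (hm : ∀ n, MeasurableSet (S n)) (hi : iIndepSet S μ)
    (hp : ∀ n, μ.real (S n) = pr A n) {F : Finset (ℕ × ℕ)} (hF : Nondeg F) (hS : Sep F)
    (hadm : ∀ p : ℕ, p.Prime → (XF F p).card < p) :
    ∃ s : ℝ, 0 < s ∧ Tendsto (SSg (fun p => (XF F p).card) F.card) atTop (𝓝 s) ∧
    ∀ᵐ ω ∂μ, ∀ ε δ : ℝ, 0 < ε → 0 < δ → ∀ᶠ N : ℕ in atTop, ∀ M : ℕ, (N : ℝ) + (N : ℝ) ^ ε ≤ M → M ≤ 2 * N →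
      |cnt (Ioc N M) (Ff S F) ω - s * (((M : ℝ) - N) / Real.log N ^ F.card)| ≤
        δ * (((M : ℝ) - N) / Real.log N ^ F.card) := by
  classical
  obtain ⟨s, hs0, hs⟩ := SSg_tendsto (fun p => (XF F p).card) F.card (yF F) (fun p hp' hy => XF_card_big hF hp' hy) hadm
  refine ⟨s, hs0, hs, ?_⟩
  have hc : Bd F (4 + ∑ f ∈ F, (2 * f.1 + f.2)) := by
    refine ⟨by omega, fun f hf => ⟨hF.1 f hf, ?_⟩⟩
    have h1 : 2 * f.1 + f.2 ≤ ∑ f ∈ F, (2 * f.1 + f.2) :=
      single_le_sum (f := fun f : ℕ × ℕ => 2 * f.1 + f.2) (fun i _ => Nat.zero_le _) hf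
    omega
  have hmain : ∀ᵐ ω ∂μ, ∀ i j : ℕ,
      ∀ᶠ N : ℕ in atTop, ∀ M : ℕ, (N : ℝ) + (N : ℝ) ^ (1 / ((i : ℝ) + 1)) ≤ M → M ≤ 2 * N →
      |cnt (Ioc N M) (Ff S F) ω - s * (((M : ℝ) - N) / Real.log N ^ F.card)| ≤
        1 / ((j : ℝ) + 1) * (((M : ℝ) - N) / Real.log N ^ F.card) := by
    rw [ae_all_iff]; intro i
    rw [ae_all_iff]; intro j
    exact HL_one A hA hm hi hp hF hS _ hc s hs0 hs (1 / ((i : ℝ) + 1)) (1 / ((j : ℝ) + 1)) (by positivity) (by positivity)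
  filter_upwards [hmain] with ω hω ε δ hε hδ
  obtain ⟨i, hi'⟩ := exists_nat_gt (1 / ε)
  obtain ⟨j, hj⟩ := exists_nat_gt (1 / δ)
  have hi1 : 1 / ((i : ℝ) + 1) ≤ ε := by
    rw [div_le_iff₀ (by positivity)]
    rw [div_lt_iff₀ hε] at hi'
    nlinarith
  have hj1 : 1 / ((j : ℝ) + 1) ≤ δ := by
    rw [div_le_iff₀ (by positivity)]
    rw [div_lt_iff₀ hδ] at hj
    nlinarith
  filter_upwards [hω i j, eventually_ge_atTop 1] with N h1 h2 M hM1 hM2
  have hN1 : (1 : ℝ) ≤ N := by exact_mod_cast h2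
  have h3 : (N : ℝ) ^ (1 / ((i : ℝ) + 1)) ≤ (N : ℝ) ^ ε := Real.rpow_le_rpow_of_exponent_le hN1 hi1
  refine (h1 M (by linarith) hM2).trans (mul_le_mul_of_nonneg_right hj1 ?_)
  have h4 : 0 ≤ Real.log (N : ℝ) := Real.log_nonneg hN1
  have h5 : 0 < (N : ℝ) ^ ε := by positivity
  apply div_nonneg (by linarith) (by positivity)

end Pool.Agent.T2H62.ML
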