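import Pool.Agent.T2H62.ML.X

set_option autoImplicit false

/-! # Uniform windows: almost sure statements for all parameters -/

namespace Pool.Agent.T2H62.ML

open Finset Filter Topology MeasureTheory ProbabilityTheory
open Pool.Agent.T2H53.GW
open Pool.Agent.T2H62.MD
open Pool.Agent.H305R2 (VV VV_tendsto)

variable {Ω : Type*} [MeasurableSpace Ω] {μ : Measure Ω} [IsProbabilityMeasure μ] {S : ℕ → Set Ω}

theorem patterns_all (A : ℝ) (hA : 0 < A) (hm : ∀ n, MeasurableSet (S n)) (hi : iIndepSet S μ)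
    (hp : ∀ n, μ.real (S n) = pr A n) :
    ∀ᵐ ω ∂μ, ∀ ε : ℝ, 0 < ε → ∀ᶠ N : ℕ in atTop, ∀ (k : ℕ) (T : Finset ℕ), T ⊆ Icc 1 k → AdmP T →
      (k : ℝ) * Real.log (Real.log N) ^ 2 ≤ Real.log N ^ 2 →
      (T.card : ℝ) * Real.log (Real.log N) ≤ (1 - ε) * Real.log N →
      ∃ x ∈ Ioc N (2 * N), ∀ h ∈ Icc 1 k, (ω ∈ S (x + h) ↔ h ∈ T) := by
  have h1 : ∀ n : ℕ, ∀ᵐ ω ∂μ, ∀ᶠ N : ℕ in atTop, ∀ (k : ℕ) (T : Finset ℕ), T ⊆ Icc 1 k → AdmP T →
      (k : ℝ) * Real.log (Real.log N) ^ 2 ≤ Real.log N ^ 2 →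
      (T.card : ℝ) * Real.log (Real.log N) ≤ (1 - 1 / ((n : ℝ) + 1)) * Real.log N →
      ∃ x ∈ Ioc N (2 * N), ∀ h ∈ Icc 1 k, (ω ∈ S (x + h) ↔ h ∈ T) := by
    intro n
    have hn : (0 : ℝ) < (n : ℝ) + 1 := by positivity
    exact patterns_exist A hA hm hi hp _ (by positivity) (by rw [div_le_one hn]; linarith [Nat.cast_nonneg (α := ℝ) n])
  filter_upwards [ae_all_iff.2 h1] with ω hω ε hε
  obtain ⟨n, hn⟩ := exists_nat_one_div_lt hε
  filter_upwards [hω n, eventually_ge_atTop 3] with N hN hN3 k T a1 a2 a3 a4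
  refine hN k T a1 a2 a3 (a4.trans ?_)
  have h2 : 0 ≤ Real.log N := Real.log_nonneg (by exact_mod_cast (by omega : 1 ≤ N))
  exact mul_le_mul_of_nonneg_right (by linarith) h2

theorem upper_all (A : ℝ) (hA : 0 < A) (hm : ∀ n, MeasurableSet (S n)) (hi : iIndepSet S μ)
    (hp : ∀ n, μ.real (S n) = pr A n) :
    ∀ᵐ ω ∂μ, ∀ ε : ℝ, 0 < ε → ∀ M : ℝ, ∀ᶠ x : ℕ in atTop, ∀ U : Finset ℕ,
      (∀ u ∈ U, 1 ≤ u ∧ (u : ℝ) ≤ M * Real.log x) → (∀ u ∈ U, ω ∈ S (x + u)) →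
      (U.card : ℝ) * Real.log (Real.log x) ≤ (1 + ε) * Real.log x := by
  have h1 : ∀ n m : ℕ, ∀ᵐ ω ∂μ, ∀ᶠ x : ℕ in atTop, ∀ U : Finset ℕ,
      (∀ u ∈ U, 1 ≤ u ∧ (u : ℝ) ≤ ((m : ℝ) + 1) * Real.log x) → (∀ u ∈ U, ω ∈ S (x + u)) →
      (U.card : ℝ) * Real.log (Real.log x) ≤ (1 + 1 / ((n : ℝ) + 1)) * Real.log x := by
    intro n m
    have hn : (0 : ℝ) < (n : ℝ) + 1 := by positivity
    exact windows_upper A hA hm hi hp _ (by positivity) _ (by positivity)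
      (by rw [div_le_one hn]; linarith [Nat.cast_nonneg (α := ℝ) n])
  filter_upwards [ae_all_iff.2 (fun n => ae_all_iff.2 (h1 n))] with ω hω ε hε M
  obtain ⟨n, hn⟩ := exists_nat_one_div_lt hε
  obtain ⟨m, hm'⟩ := exists_nat_ge M
  filter_upwards [hω n m, eventually_ge_atTop 3] with x hx hx3 U a1 a2
  have h2 : 0 ≤ Real.log x := Real.log_nonneg (by exact_mod_cast (by omega : 1 ≤ x))
  refine (hx U (fun u hu => ⟨(a1 u hu).1, (a1 u hu).2.trans ?_⟩) a2).trans ?_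
  · exact mul_le_mul_of_nonneg_right (by linarith) h2
  · exact mul_le_mul_of_nonneg_right (by linarith) h2

/-- the sieve patterns are admissible -/
theorem sieve_adm (m k : ℕ) : AdmP ((Icc 1 k).filter (fun h => Nat.Coprime (m + h) (primorial k))) := by
  intro p hp
  rcases le_or_gt p k with h | h
  · refine ⟨m, fun t ht hd => ?_⟩
    have h1 := (mem_filter.1 ht).2
    have h2 : p ∣ primorial k := (Nat.Prime.dvd_primorial_iff hp).2 h
    exact hp.one_lt.ne' (Nat.dvd_one.1 (h1 ▸ Nat.dvd_gcd hd h2))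
  · refine ⟨0, fun t ht hd => ?_⟩
    have h1 := mem_Icc.1 (mem_filter.1 ht).1
    rw [zero_add] at hd
    have := Nat.le_of_dvd (by omega) hd
    omega

theorem AdmP.mono {T T' : Finset ℕ} (h : T ⊆ T') (hT : AdmP T') : AdmP T := by
  intro p hp
  obtain ⟨r, hr⟩ := hT p hp
  exact ⟨r, fun t ht => hr t (h ht)⟩

end Pool.Agent.T2H62.ML
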