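import Pool.Agent.T2H62.MD.Q
import Pool.Agent.T2H62.MD.R

set_option autoImplicit false

/-! # Systems of linear forms: classes and singular series -/

namespace Pool.Agent.T2H62.ML

open Finset Filter Topology
open Pool.Agent.T2H53.GW
open Pool.Agent.T2H62.MD
open Pool.Agent.H305R2 (VV VV_tendsto)

/-- the value of the form `f` at `n` -/
def vl (f : ℕ × ℕ) (n : ℕ) : ℕ := f.1 * n + f.2

/-- the classes to avoid -/
def XF (F : Finset (ℕ × ℕ)) (p : ℕ) : Finset ℕ := (range p).filter (fun r => ∃ f ∈ F, p ∣ vl f r)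

theorem XF_sub (F : Finset (ℕ × ℕ)) (p : ℕ) : XF F p ⊆ range p := filter_subset _ _

theorem vl_mod (f : ℕ × ℕ) (p n : ℕ) : p ∣ vl f (n % p) ↔ p ∣ vl f n := by
  unfold vl
  have h : f.1 * (n % p) + f.2 ≡ f.1 * n + f.2 [MOD p] := ((Nat.mod_modEq n p).mul_left _).add_right _
  rw [Nat.dvd_iff_mod_eq_zero, Nat.dvd_iff_mod_eq_zero, h]

theorem XF_iff (F : Finset (ℕ × ℕ)) {p : ℕ} (hp : 0 < p) (n : ℕ) : n % p ∉ XF F p ↔ ∀ f ∈ F, ¬ p ∣ vl f n := by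
  unfold XF
  rw [mem_filter]
  constructor
  · intro h f hf hd
    exact h ⟨mem_range.2 (Nat.mod_lt _ hp), f, hf, (vl_mod f p n).2 hd⟩
  · rintro h ⟨_, f, hf, hd⟩
    exact h f hf ((vl_mod f p n).1 hd)

/-- the forms are different and not proportional, with positive slopes -/
def Nondeg (F : Finset (ℕ × ℕ)) : Prop :=
  (∀ f ∈ F, 1 ≤ f.1) ∧ ∀ f ∈ F, ∀ f' ∈ F, f ≠ f' → f.1 * f'.2 ≠ f'.1 * f.2

/-- a bound beyond which all primes are good -/
def yF (F : Finset (ℕ × ℕ)) : ℕ := ∑ f ∈ F, f.1 + ∑ f ∈ F, ∑ f' ∈ F, (f.1 * f'.2 + f'.1 * f.2)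

theorem XF_card_big {F : Finset (ℕ × ℕ)} (hF : Nondeg F) {p : ℕ} (hp : p.Prime) (hy : yF F < p) :
    (XF F p).card = F.card := by
  classical
  have hpz : Prime (p : ℤ) := Nat.prime_iff_prime_int.1 hp
  have hy1 : ∀ f ∈ F, ¬ p ∣ f.1 := by
    intro f hf hd
    have h1 := Nat.le_of_dvd (hF.1 f hf) hd
    have h2 : f.1 ≤ ∑ f ∈ F, f.1 := single_le_sum (f := fun f : ℕ × ℕ => f.1) (fun i _ => Nat.zero_le _) hf
    unfold yF at hy
    omega
  have hy2 : ∀ f ∈ F, ∀ f' ∈ F, f.1 * f'.2 + f'.1 * f.2 < p := by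
    intro f hf f' hf'
    have h1 : f.1 * f'.2 + f'.1 * f.2 ≤ ∑ f' ∈ F, (f.1 * f'.2 + f'.1 * f.2) :=
      single_le_sum (f := fun f' : ℕ × ℕ => f.1 * f'.2 + f'.1 * f.2) (fun i _ => Nat.zero_le _) hf'
    have h2 : ∑ f' ∈ F, (f.1 * f'.2 + f'.1 * f.2) ≤ ∑ f ∈ F, ∑ f' ∈ F, (f.1 * f'.2 + f'.1 * f.2) :=
      single_le_sum (f := fun f : ℕ × ℕ => ∑ f' ∈ F, (f.1 * f'.2 + f'.1 * f.2)) (fun i _ => Nat.zero_le _) hf
    unfold yF at hy
    omega
  -- two forms do not vanish at the same class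
  have hinj : ∀ f ∈ F, ∀ f' ∈ F, ∀ r : ℕ, p ∣ vl f r → p ∣ vl f' r → f = f' := by
    intro f hf f' hf' r h1 h2
    by_contra hne
    have h3 := hF.2 f hf f' hf' hne
    have h4 : (p : ℤ) ∣ (f.1 : ℤ) * f'.2 - (f'.1 : ℤ) * f.2 := by
      have h5 : (p : ℤ) ∣ (f.1 : ℤ) * (vl f' r : ℤ) - (f'.1 : ℤ) * (vl f r : ℤ) :=
        dvd_sub (Dvd.dvd.mul_left (Int.natCast_dvd_natCast.2 h2) _) (Dvd.dvd.mul_left (Int.natCast_dvd_natCast.2 h1) _)
      have h6 : (f.1 : ℤ) * (vl f' r : ℤ) - (f'.1 : ℤ) * (vl f r : ℤ) = (f.1 : ℤ) * f'.2 - (f'.1 : ℤ) * f.2 := by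
        unfold vl
        push_cast
        ring
      rwa [h6] at h5
    have h5 := hy2 f hf f' hf'
    have h6 : (f.1 : ℤ) * f'.2 - (f'.1 : ℤ) * f.2 ≠ 0 := by
      intro h
      apply h3
      have : (f.1 : ℤ) * f'.2 = (f'.1 : ℤ) * f.2 := by linarith
      exact_mod_cast this
    have h7 := Int.le_of_dvd (abs_pos.2 h6) ((dvd_abs _ _).2 h4)
    have h8 : |(f.1 : ℤ) * f'.2 - (f'.1 : ℤ) * f.2| ≤ (f.1 : ℤ) * f'.2 + (f'.1 : ℤ) * f.2 := by
      have h9 : (0 : ℤ) ≤ (f.1 : ℤ) * f'.2 := by positivity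
      have h10 : (0 : ℤ) ≤ (f'.1 : ℤ) * f.2 := by positivity
      rw [abs_le]
      constructor <;> linarith
    have h9 : (f.1 : ℤ) * f'.2 + (f'.1 : ℤ) * f.2 < p := by exact_mod_cast h5
    linarith
  -- uniqueness of the class of a form
  have huniq : ∀ f ∈ F, ∀ r ∈ range p, ∀ r' ∈ range p, p ∣ vl f r → p ∣ vl f r' → r = r' := by
    intro f hf r hr r' hr' h1 h2
    rw [mem_range] at hr hr'
    have h3 : (p : ℤ) ∣ (f.1 : ℤ) * ((r : ℤ) - r') := by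
      have h4 := dvd_sub (Int.natCast_dvd_natCast.2 h1) (Int.natCast_dvd_natCast.2 h2)
      unfold vl at h4
      push_cast at h4
      rwa [show (f.1 : ℤ) * r + f.2 - ((f.1 : ℤ) * r' + f.2) = (f.1 : ℤ) * ((r : ℤ) - r') by ring] at h4
    rcases hpz.dvd_or_dvd h3 with h4 | h4
    · exact absurd (Int.natCast_dvd_natCast.1 h4) (hy1 f hf)
    · have h5 : (r : ℤ) ≡ r' [ZMOD p] := (Int.modEq_iff_dvd.2 (by rw [← dvd_neg]; simpa using h4))
      have h6 := Int.natCast_modEq_iff.1 h5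
      unfold Nat.ModEq at h6
      rwa [Nat.mod_eq_of_lt hr, Nat.mod_eq_of_lt hr'] at h6
  -- existence of the class
  have hex : ∀ f ∈ F, ∃ r ∈ range p, p ∣ vl f r := by
    intro f hf
    have := Fact.mk hp
    have h1 : (f.1 : ZMod p) ≠ 0 := by
      intro h
      exact hy1 f hf ((ZMod.natCast_eq_zero_iff _ _).1 h)
    refine ⟨(-(f.2 : ZMod p) / f.1).val, mem_range.2 (ZMod.val_lt _), ?_⟩
    rw [← ZMod.natCast_eq_zero_iff]
    unfold vl
    push_cast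
    rw [ZMod.natCast_zmod_val]
    field_simp
    ring
  choose! g hg using hex
  have himg : XF F p = F.image g := by
    ext r
    unfold XF
    rw [mem_filter, mem_image]
    constructor
    · rintro ⟨hr, f, hf, hd⟩
      exact ⟨f, hf, (huniq f hf _ (hg f hf).1 r hr (hg f hf).2 hd)⟩
    · rintro ⟨f, hf, rfl⟩
      exact ⟨(hg f hf).1, f, hf, (hg f hf).2⟩
  rw [himg]
  apply card_image_of_injOn
  intro f hf f' hf' h
  have h1 := (hg f hf).2
  have h2 := (hg f' hf').2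
  rw [← h] at h2
  exact hinj f hf f' hf' _ h1 h2

/-- the partial products of a singular series -/
noncomputable def SSg (ν : ℕ → ℕ) (k z : ℕ) : ℝ := ∏ p ∈ PJ z, (1 - (ν p : ℝ) / p) * ((1 - (p : ℝ)⁻¹)⁻¹) ^ k

theorem SSg_succ (ν : ℕ → ℕ) (k z : ℕ) : SSg ν k (z + 1) = if (z + 1).Prime then
    ((1 - (ν (z + 1) : ℝ) / ((z + 1 : ℕ) : ℝ)) * ((1 - (((z + 1 : ℕ) : ℝ))⁻¹)⁻¹) ^ k) * SSg ν k z else SSg ν k z := by
  unfold SSg
  rw [PJ_succ]
  split_ifs with h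
  · rw [prod_insert]
    unfold PJ
    simp
  · rfl

theorem SSg_eq (ν : ℕ → ℕ) (k z : ℕ) : SSg ν k z = (∏ p ∈ PJ z, (1 - (ν p : ℝ) / p)) * VV z ^ k := by
  unfold SSg
  rw [prod_mul_distrib, prod_pow]
  rfl

theorem SSg_tendsto (ν : ℕ → ℕ) (k y : ℕ) (hν : ∀ p : ℕ, p.Prime → y < p → ν p = k) (hadm : ∀ p : ℕ, p.Prime → ν p < p) :
    ∃ s : ℝ, 0 < s ∧ Tendsto (SSg ν k) atTop (𝓝 s) := by
  obtain ⟨z₀, hz₀⟩ : ∃ z₀, z₀ = y + 2 * k + 2 + 4 * k ^ 2 + 1 := ⟨_, rfl⟩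
  have hz0 : (0 : ℝ) < z₀ := by exact_mod_cast (by omega : 0 < z₀)
  -- positivity of the partial products
  have hpos : ∀ z, 0 < SSg ν k z := by
    intro z
    unfold SSg
    refine prod_pos fun p hp => ?_
    have hpp := PJ_prime hp
    have hp0 : (0 : ℝ) < p := by exact_mod_cast hpp.pos
    have h1 : (ν p : ℝ) / p < 1 := by
      rw [div_lt_one hp0]
      exact_mod_cast hadm p hpp
    have h2 : (p : ℝ)⁻¹ < 1 := inv_lt_one_of_one_lt₀ (by exact_mod_cast hpp.one_lt)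
    have h3 : 0 < 1 - (p : ℝ)⁻¹ := by linarith
    have h4 : 0 < 1 - (ν p : ℝ) / p := by linarith
    positivity
  have hstep : ∀ z, z₀ ≤ z → SSg ν k z * (1 - 2 * (k : ℝ) ^ 2 / ((z + 1 : ℕ) : ℝ) ^ 2) ≤ SSg ν k (z + 1) ∧
      SSg ν k (z + 1) ≤ SSg ν k z := by
    intro z hz
    rw [SSg_succ]
    have hp := hpos z
    have h0 : 0 ≤ 2 * (k : ℝ) ^ 2 / ((z + 1 : ℕ) : ℝ) ^ 2 := by positivity
    split_ifs with h
    · rw [hν (z + 1) h (by omega : y < z + 1)]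
      obtain ⟨h1, h2⟩ := factor_bd k (z + 1) (by omega)
      constructor
      · rw [mul_comm]
        exact mul_le_mul_of_nonneg_right h1 hp.le
      · calc _ ≤ 1 * SSg ν k z := mul_le_mul_of_nonneg_right h2 hp.le
          _ = SSg ν k z := one_mul _
    · constructor
      · nlinarith
      · exact le_rfl
  have hlow : ∀ j : ℕ, SSg ν k z₀ * (1 - 2 * (k : ℝ) ^ 2 * (1 / z₀ - 1 / ((z₀ + j : ℕ) : ℝ))) ≤ SSg ν k (z₀ + j) := by
    intro j
    induction j with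
    | zero => simp
    | succ j ih =>
      have h1 := (hstep (z₀ + j) (by omega)).1
      refine le_trans ?_ h1
      obtain ⟨w, hw⟩ : ∃ w : ℝ, w = ((z₀ + j : ℕ) : ℝ) := ⟨_, rfl⟩
      have hw1 : (z₀ : ℝ) ≤ w := by
        rw [hw]
        push_cast
        have : (0 : ℝ) ≤ j := Nat.cast_nonneg _
        linarith
      have hw0 : 0 < w := by linarith
      have hc1 : ((z₀ + (j + 1) : ℕ) : ℝ) = w + 1 := by
        rw [hw]
        push_cast
        ring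
      have hc2 : ((z₀ + j + 1 : ℕ) : ℝ) = w + 1 := by
        rw [hw]
        push_cast
        ring
      rw [← hw] at ih
      rw [hc1, hc2]
      have h2 : 1 / (w + 1) ^ 2 ≤ 1 / w - 1 / (w + 1) := by
        rw [div_sub_div _ _ hw0.ne' (by linarith), div_le_div_iff₀ (by positivity) (by positivity)]
        nlinarith
      have hk2 : 0 ≤ 2 * (k : ℝ) ^ 2 := by positivity
      have h3 : 2 * (k : ℝ) ^ 2 / (w + 1) ^ 2 ≤ 2 * (k : ℝ) ^ 2 * (1 / w - 1 / (w + 1)) := by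
        have := mul_le_mul_of_nonneg_left h2 hk2
        rwa [mul_one_div] at this
      -- the bounds for the factors
      have hz4 : 4 * (k : ℝ) ^ 2 ≤ z₀ := by exact_mod_cast (by omega : 4 * k ^ 2 ≤ z₀)
      have h4 : 0 ≤ 2 * (k : ℝ) ^ 2 * (1 / z₀ - 1 / w) := by
        apply mul_nonneg hk2
        have := one_div_le_one_div_of_le hz0 hw1
        linarith
      have h5 : 2 * (k : ℝ) ^ 2 / (w + 1) ^ 2 ≤ 1 := by
        rw [div_le_one (by positivity)]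
        nlinarith
      have h6 : 0 ≤ 1 - 2 * (k : ℝ) ^ 2 / (w + 1) ^ 2 := by linarith
      have h7 : 0 ≤ 2 * (k : ℝ) ^ 2 / (w + 1) ^ 2 := by positivity
      have hp := hpos z₀
      calc SSg ν k z₀ * (1 - 2 * (k : ℝ) ^ 2 * (1 / z₀ - 1 / (w + 1)))
          ≤ SSg ν k z₀ * ((1 - 2 * (k : ℝ) ^ 2 * (1 / z₀ - 1 / w)) * (1 - 2 * (k : ℝ) ^ 2 / (w + 1) ^ 2)) := by
            apply mul_le_mul_of_nonneg_left _ hp.le
            nlinarith [mul_nonneg h4 h7]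
        _ = SSg ν k z₀ * (1 - 2 * (k : ℝ) ^ 2 * (1 / z₀ - 1 / w)) * (1 - 2 * (k : ℝ) ^ 2 / (w + 1) ^ 2) := by ring
        _ ≤ SSg ν k (z₀ + j) * (1 - 2 * (k : ℝ) ^ 2 / (w + 1) ^ 2) := mul_le_mul_of_nonneg_right ih h6
  have hhalf : ∀ j : ℕ, SSg ν k z₀ / 2 ≤ SSg ν k (z₀ + j) := by
    intro j
    refine le_trans ?_ (hlow j)
    have hp := hpos z₀
    have hz4 : 4 * (k : ℝ) ^ 2 ≤ z₀ := by exact_mod_cast (by omega : 4 * k ^ 2 ≤ z₀)
    have h1 : 2 * (k : ℝ) ^ 2 * (1 / z₀ - 1 / ((z₀ + j : ℕ) : ℝ)) ≤ 1 / 2 := by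
      have h2 : 0 ≤ 1 / ((z₀ + j : ℕ) : ℝ) := by positivity
      have hk2 : 0 ≤ 2 * (k : ℝ) ^ 2 := by positivity
      calc 2 * (k : ℝ) ^ 2 * (1 / z₀ - 1 / ((z₀ + j : ℕ) : ℝ)) ≤ 2 * (k : ℝ) ^ 2 * (1 / z₀) :=
            mul_le_mul_of_nonneg_left (by linarith) hk2
        _ ≤ 1 / 2 := by
            rw [mul_one_div, div_le_iff₀ hz0]
            linarith
    nlinarith
  have hanti : Antitone (fun j : ℕ => SSg ν k (j + z₀)) := by
    apply antitone_nat_of_succ_le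
    intro j
    have h1 := (hstep (j + z₀) (by omega)).2
    have h2 : j + z₀ + 1 = j + 1 + z₀ := by omega
    rw [h2] at h1
    exact h1
  have hbdd : BddBelow (Set.range (fun j : ℕ => SSg ν k (j + z₀))) := by
    refine ⟨SSg ν k z₀ / 2, ?_⟩
    rintro _ ⟨j, rfl⟩
    have := hhalf j
    rw [add_comm] at this
    exact this
  have h1 := tendsto_atTop_ciInf hanti hbdd
  refine ⟨⨅ j, SSg ν k (j + z₀), ?_, ?_⟩
  · have h2 : SSg ν k z₀ / 2 ≤ ⨅ j, SSg ν k (j + z₀) := by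
      apply le_ciInf
      intro j
      have := hhalf j
      rw [add_comm] at this
      exact this
    have := hpos z₀
    linarith
  · exact (tendsto_add_atTop_iff_nat (f := SSg ν k) z₀).1 h1

end Pool.Agent.T2H62.ML
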