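import Pool.Agent.T2H62.ML.A
import Pool.Agent.T2H62.MD.Sh

set_option autoImplicit false

/-! # Systems of linear forms: the expected number of random prime values -/

namespace Pool.Agent.T2H62.ML

open Finset Filter Topology
open Pool.Agent.T2H53.GW
open Pool.Agent.T2H62.MD
open Pool.Agent.H305R2 (VV VV_tendsto)

/-- the values at `(N, 2 N]` lie in `(N, c N]` -/
def Bd (F : Finset (ℕ × ℕ)) (c : ℕ) : Prop := 4 ≤ c ∧ ∀ f ∈ F, 1 ≤ f.1 ∧ 2 * f.1 + f.2 ≤ c

theorem vl_bd {F : Finset (ℕ × ℕ)} {c : ℕ} (hc : Bd F c) {f : ℕ × ℕ} (hf : f ∈ F) {N n : ℕ} (hN : 1 ≤ N) (h1 : N < n)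
    (h2 : n ≤ 2 * N) : N ≤ vl f n ∧ vl f n ≤ c * N := by
  obtain ⟨h3, h4⟩ := hc.2 f hf
  unfold vl
  constructor
  · have : 1 * n ≤ f.1 * n := Nat.mul_le_mul_right _ h3
    omega
  · have h5 : f.1 * n ≤ f.1 * (2 * N) := Nat.mul_le_mul_left _ h2
    have h6 : f.2 ≤ f.2 * N := Nat.le_mul_of_pos_right _ hN
    have h7 : (2 * f.1 + f.2) * N ≤ c * N := Nat.mul_le_mul_right _ h4
    nlinarith

/-- upper bound for the probability of a tuple -/
theorem tuple_up (A : ℝ) (hA : 0 < A) (F : Finset (ℕ × ℕ)) (c : ℕ) (hc : Bd F c) (N n : ℕ) (hN : 3 ≤ N)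
    (h1 : N < n) (h2 : n ≤ 2 * N) [Decidable (∀ p ∈ PJ ⌊A * Real.log N⌋₊, n % p ∉ XF F p)] :
    ∏ f ∈ F, pr A (vl f n) ≤ (if ∀ p ∈ PJ ⌊A * Real.log N⌋₊, n % p ∉ XF F p then
      (VV ⌊A * Real.log (c * N)⌋₊ / Real.log N) ^ F.card else 0) := by
  have hN0 : (0 : ℝ) < N := by exact_mod_cast (by omega : 0 < N)
  have hL : 0 < Real.log (N : ℝ) := Real.log_pos (by exact_mod_cast (by omega : 1 < N))
  have hlog : ∀ f ∈ F, Real.log N ≤ Real.log ((vl f n : ℕ) : ℝ) ∧ Real.log ((vl f n : ℕ) : ℝ) ≤ Real.log (c * N) := by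
    intro f hf
    obtain ⟨h3, h4⟩ := vl_bd hc hf (by omega) h1 h2
    constructor
    · exact Real.log_le_log hN0 (by exact_mod_cast h3)
    · exact Real.log_le_log (by exact_mod_cast (by omega : 0 < vl f n)) (by exact_mod_cast h4)
  split_ifs with hd
  · rw [← prod_const]
    refine prod_le_prod (fun f _ => pr_nonneg A _) fun f hf => ?_
    obtain ⟨l1, l2⟩ := hlog f hf
    have h3 : pr A (vl f n) ≤ VV ⌊A * Real.log ((vl f n : ℕ) : ℝ)⌋₊ / Real.log ((vl f n : ℕ) : ℝ) := by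
      unfold pr
      split_ifs
      · exact min_le_right _ _
      · have h4 := one_le_VV ⌊A * Real.log ((vl f n : ℕ) : ℝ)⌋₊
        have h5 : 0 < Real.log ((vl f n : ℕ) : ℝ) := by linarith
        positivity
    refine h3.trans ?_
    have h4 : VV ⌊A * Real.log ((vl f n : ℕ) : ℝ)⌋₊ ≤ VV ⌊A * Real.log (c * N)⌋₊ := by
      apply VV_mono
      apply Nat.floor_le_floor
      exact mul_le_mul_of_nonneg_left l2 hA.le
    have h5 := one_le_VV ⌊A * Real.log (c * (N : ℝ))⌋₊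
    exact div_le_div₀ (by linarith) h4 hL l1
  · push Not at hd
    obtain ⟨p, hp, hpX⟩ := hd
    have hpp := PJ_prime hp
    have h3 : ¬ (∀ f ∈ F, ¬ p ∣ vl f n) := by
      rw [← XF_iff F hpp.pos n]
      exact not_not.2 hpX
    push Not at h3
    obtain ⟨f, hf, hd⟩ := h3
    refine (prod_eq_zero hf ?_).le
    unfold pr
    rw [if_neg]
    intro h4
    refine h4 p hpp ?_ hd
    have h5 : p ≤ ⌊A * Real.log N⌋₊ := by
      unfold PJ at hp
      exact (mem_Icc.1 (mem_filter.1 hp).1).2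
    have h6 : (p : ℝ) ≤ A * Real.log N := by
      refine le_trans (by exact_mod_cast h5) (Nat.floor_le (by positivity))
    exact h6.trans (mul_le_mul_of_nonneg_left (hlog f hf).1 hA.le)

/-- lower bound for the probability of a tuple -/
theorem tuple_low (A : ℝ) (hA : 0 < A) (F : Finset (ℕ × ℕ)) (c : ℕ) (hc : Bd F c) (N n : ℕ) (hN : 3 ≤ N)
    (h1 : N < n) (h2 : n ≤ 2 * N) (hV : VV ⌊A * Real.log N⌋₊ ≤ Real.log N)
    [Decidable (∀ p ∈ PJ ⌊A * Real.log (c * N)⌋₊, n % p ∉ XF F p)] :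
    (if ∀ p ∈ PJ ⌊A * Real.log (c * N)⌋₊, n % p ∉ XF F p then
      (VV ⌊A * Real.log N⌋₊ / Real.log (c * N)) ^ F.card else 0) ≤ ∏ f ∈ F, pr A (vl f n) := by
  have hN0 : (0 : ℝ) < N := by exact_mod_cast (by omega : 0 < N)
  have hL : 0 < Real.log (N : ℝ) := Real.log_pos (by exact_mod_cast (by omega : 1 < N))
  have hc1 : (4 : ℝ) ≤ c := by exact_mod_cast hc.1
  have hlog : ∀ f ∈ F, Real.log N ≤ Real.log ((vl f n : ℕ) : ℝ) ∧ Real.log ((vl f n : ℕ) : ℝ) ≤ Real.log (c * N) := by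
    intro f hf
    obtain ⟨h3, h4⟩ := vl_bd hc hf (by omega) h1 h2
    constructor
    · exact Real.log_le_log hN0 (by exact_mod_cast h3)
    · exact Real.log_le_log (by exact_mod_cast (by omega : 0 < vl f n)) (by exact_mod_cast h4)
  have hcN : (N : ℝ) ≤ c * N := by nlinarith
  have hL4 : 0 < Real.log (c * (N : ℝ)) := lt_of_lt_of_le hL (Real.log_le_log hN0 hcN)
  have hV0 := one_le_VV ⌊A * Real.log (N : ℝ)⌋₊
  split_ifs with hd
  · rw [← prod_const]
    refine prod_le_prod (fun f _ => by positivity) fun f hf => ?_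
    obtain ⟨l1, l2⟩ := hlog f hf
    unfold pr
    rw [if_pos]
    · apply le_min
      · rw [div_le_one hL4]
        exact hV.trans (Real.log_le_log hN0 hcN)
      · have h4 : VV ⌊A * Real.log N⌋₊ ≤ VV ⌊A * Real.log ((vl f n : ℕ) : ℝ)⌋₊ := by
          apply VV_mono
          apply Nat.floor_le_floor
          exact mul_le_mul_of_nonneg_left l1 hA.le
        exact div_le_div₀ (by linarith) h4 (by linarith) l2
    · intro p hpp hpl
      have hp : p ∈ PJ ⌊A * Real.log (c * N)⌋₊ := by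
        unfold PJ
        rw [mem_filter, mem_Icc]
        refine ⟨⟨hpp.one_lt.le, ?_⟩, hpp⟩
        apply Nat.le_floor
        exact hpl.trans (mul_le_mul_of_nonneg_left l2 hA.le)
      exact (XF_iff F hpp.pos n).1 (hd p hp) f hf
  · exact prod_nonneg fun f _ => pr_nonneg A _

/-- the error terms -/
theorem err_tuple (A : ℝ) (hA : 0 < A) (c : ℕ) (hc : 4 ≤ c) (K : ℕ) (ε δ : ℝ) (hε : 0 < ε) (hδ : 0 < δ) : ∀ᶠ N : ℕ in atTop,
    VV ⌊A * Real.log (c * N)⌋₊ ^ K * ((K : ℝ) + 1) ^ (PJ ⌊A * Real.log (c * N)⌋₊).card ≤ δ * (N : ℝ) ^ ε := by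
  have hc1 : (4 : ℝ) ≤ c := by exact_mod_cast hc
  have hT : Tendsto (fun n : ℕ => (n : ℝ)) atTop atTop := tendsto_natCast_atTop_atTop
  have hL : Tendsto (fun n : ℕ => Real.log (n : ℝ)) atTop atTop := Real.tendsto_log_atTop.comp hT
  have hL4 : Tendsto (fun n : ℕ => Real.log (c * (n : ℝ))) atTop atTop :=
    Real.tendsto_log_atTop.comp (hT.const_mul_atTop (by linarith))
  have hJ : Tendsto (fun x : ℕ => ⌊A * Real.log (c * x)⌋₊) atTop atTop :=
    tendsto_nat_floor_atTop.comp (hL4.const_mul_atTop hA)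
  obtain ⟨w, hw⟩ : ∃ w : ℝ, w = (K : ℝ) * Real.log 2 + Real.log ((K : ℝ) + 1) + 1 := ⟨_, rfl⟩
  have hk0 : (0 : ℝ) ≤ K := Nat.cast_nonneg _
  have hlk : 0 ≤ Real.log ((K : ℝ) + 1) := Real.log_nonneg (by linarith)
  have hl2 : 0 < Real.log 2 := Real.log_pos (by norm_num)
  have hw0 : 0 < w := by
    rw [hw]
    positivity
  obtain ⟨η, hη⟩ : ∃ η : ℝ, η = ε / (4 * A * w) := ⟨_, rfl⟩
  have hη0 : 0 < η := by rw [hη]; positivity
  filter_upwards [hJ.eventually (pi_small η hη0), rpow_big (1 / δ) (ε / 2) (by positivity),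
    hL.eventually_ge_atTop (Real.log c), eventually_ge_atTop 3] with N h1 h2 h3 h4
  have hN0 : (0 : ℝ) < N := by exact_mod_cast (by omega : 0 < N)
  obtain ⟨j, hj⟩ : ∃ j, j = ⌊A * Real.log (c * N)⌋₊ := ⟨_, rfl⟩
  obtain ⟨d, hd⟩ : ∃ d, d = (PJ j).card := ⟨_, rfl⟩
  rw [← hj] at h1 ⊢
  rw [← hd] at h1 ⊢
  have hV := VV_le j
  rw [← hd] at hV
  have hV0 := one_le_VV j
  have hlogN : Real.log (c * (N : ℝ)) ≤ 2 * Real.log N := by
    rw [Real.log_mul (by linarith) hN0.ne']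
    linarith
  have hlN : 0 < Real.log (N : ℝ) := Real.log_pos (by exact_mod_cast (by omega : 1 < N))
  have hj1 : (j : ℝ) ≤ A * (2 * Real.log N) := by
    rw [hj]
    refine (Nat.floor_le ?_).trans (mul_le_mul_of_nonneg_left hlogN hA.le)
    have : 0 ≤ Real.log (c * (N : ℝ)) := by
      rw [Real.log_mul (by linarith) hN0.ne']
      have := Real.log_nonneg (by linarith : (1 : ℝ) ≤ c)
      linarith
    positivity
  have hcw : (d : ℝ) * w ≤ ε / 2 * Real.log N := by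
    calc (d : ℝ) * w ≤ (η * (A * (2 * Real.log N))) * w :=
          mul_le_mul_of_nonneg_right (h1.trans (mul_le_mul_of_nonneg_left hj1 hη0.le)) hw0.le
      _ = ε / 2 * Real.log N := by
          rw [hη]
          field_simp
          ring
  calc VV j ^ K * ((K : ℝ) + 1) ^ d ≤ ((2 : ℝ) ^ d) ^ K * ((K : ℝ) + 1) ^ d := by
        apply mul_le_mul_of_nonneg_right _ (by positivity)
        exact pow_le_pow_left₀ (by linarith) hV K
    _ = Real.exp ((d : ℝ) * ((K : ℝ) * Real.log 2 + Real.log ((K : ℝ) + 1))) := by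
        rw [mul_add, Real.exp_add]
        congr 1
        · rw [← pow_mul, ← Real.rpow_natCast, Real.rpow_def_of_pos (by norm_num)]
          congr 1
          push_cast
          ring
        · rw [← Real.rpow_natCast, Real.rpow_def_of_pos (by positivity)]
          congr 1
          ring
    _ ≤ Real.exp (ε / 2 * Real.log N) := by
        apply Real.exp_le_exp.2
        refine le_trans ?_ hcw
        rw [hw]
        have : (0 : ℝ) ≤ d := Nat.cast_nonneg _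
        nlinarith
    _ = (N : ℝ) ^ (ε / 2) := by
        rw [Real.rpow_def_of_pos hN0]
        congr 1
        ring
    _ ≤ δ * ((N : ℝ) ^ (ε / 2) * (N : ℝ) ^ (ε / 2)) := by
        have h5 : 0 < (N : ℝ) ^ (ε / 2) := by positivity
        have h6 : 1 ≤ δ * (N : ℝ) ^ (ε / 2) := by
          rw [div_lt_iff₀ hδ] at h2
          linarith
        nlinarith
    _ = δ * (N : ℝ) ^ ε := by
        rw [← Real.rpow_add hN0]
        congr 2
        ring

/-- a uniform bound for the number of the classes -/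
theorem XF_le {F : Finset (ℕ × ℕ)} (hF : Nondeg F) {p : ℕ} (hp : p.Prime) : (XF F p).card ≤ F.card + yF F := by
  rcases Nat.lt_or_ge (yF F) p with h | h
  · rw [XF_card_big hF hp h]
    omega
  · have h1 := card_le_card (XF_sub F p)
    rw [card_range] at h1
    omega

theorem leg_tuple {F : Finset (ℕ × ℕ)} (hF : Nondeg F) (j j' : ℕ) (h : j ≤ j') (a b : ℕ) (hab : a ≤ b) :
    |(NX (PJ j) (XF F) 1 0 a b : ℝ) - ((b : ℝ) - a) * ∏ p ∈ PJ j, (1 - ((XF F p).card : ℝ) / p)| ≤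
      (((F.card + yF F : ℕ) : ℝ) + 1) ^ (PJ j').card := by
  have h1 := legX (PJ j) (XF F) (fun p hp => PJ_prime hp) (fun p hp => XF_sub F p) 1 (by norm_num)
    (fun p _ => Nat.coprime_one_left p) 0 a b hab
  rw [Nat.cast_one, div_one] at h1
  refine h1.trans ?_
  have hk : (1 : ℝ) ≤ ((F.card + yF F : ℕ) : ℝ) + 1 := by
    have : (0 : ℝ) ≤ ((F.card + yF F : ℕ) : ℝ) := Nat.cast_nonneg _
    linarith
  calc ∏ p ∈ PJ j, (1 + ((XF F p).card : ℝ)) ≤ ∏ p ∈ PJ j, (((F.card + yF F : ℕ) : ℝ) + 1) := by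
        refine prod_le_prod (fun p _ => by positivity) fun p hp => ?_
        have : ((XF F p).card : ℝ) ≤ ((F.card + yF F : ℕ) : ℝ) := by exact_mod_cast XF_le hF (PJ_prime hp)
        linarith
    _ = (((F.card + yF F : ℕ) : ℝ) + 1) ^ (PJ j).card := prod_const _
    _ ≤ (((F.card + yF F : ℕ) : ℝ) + 1) ^ (PJ j').card := pow_le_pow_right₀ hk (PJ_mono h)

theorem mean_HL (A : ℝ) (hA : 0 < A) {F : Finset (ℕ × ℕ)} (hF : Nondeg F) (c : ℕ) (hc : Bd F c) (s : ℝ) (hs0 : 0 < s)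
    (hs : Tendsto (SSg (fun p => (XF F p).card) F.card) atTop (𝓝 s)) (ε δ : ℝ) (hε : 0 < ε) (hδ : 0 < δ) :
    ∀ᶠ N : ℕ in atTop, ∀ M : ℕ, (N : ℝ) + (N : ℝ) ^ ε ≤ M → M ≤ 2 * N →
      |∑ n ∈ Ioc N M, ∏ f ∈ F, pr A (vl f n) - s * (((M : ℝ) - N) / Real.log N ^ F.card)| ≤
        δ * (((M : ℝ) - N) / Real.log N ^ F.card) := by
  classical
  obtain ⟨k, hk⟩ : ∃ k, k = F.card := ⟨_, rfl⟩
  obtain ⟨K, hK⟩ : ∃ K, K = F.card + yF F := ⟨_, rfl⟩
  have hc1 : (4 : ℝ) ≤ c := by exact_mod_cast hc.1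
  have hTn : Tendsto (fun n : ℕ => (n : ℝ)) atTop atTop := tendsto_natCast_atTop_atTop
  have hL : Tendsto (fun n : ℕ => Real.log (n : ℝ)) atTop atTop := Real.tendsto_log_atTop.comp hTn
  have hL4 : Tendsto (fun n : ℕ => Real.log (c * (n : ℝ))) atTop atTop :=
    Real.tendsto_log_atTop.comp (hTn.const_mul_atTop (by linarith))
  obtain ⟨j₁, hj₁⟩ : ∃ j₁ : ℕ → ℕ, j₁ = fun N : ℕ => ⌊A * Real.log N⌋₊ := ⟨_, rfl⟩
  obtain ⟨j₂, hj₂⟩ : ∃ j₂ : ℕ → ℕ, j₂ = fun N : ℕ => ⌊A * Real.log (c * N)⌋₊ := ⟨_, rfl⟩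
  have t1 : Tendsto j₁ atTop atTop := by
    rw [hj₁]
    exact tendsto_nat_floor_atTop.comp (hL.const_mul_atTop hA)
  have t2 : Tendsto j₂ atTop atTop := by
    rw [hj₂]
    exact tendsto_nat_floor_atTop.comp (hL4.const_mul_atTop hA)
  have hl4 : 0 < Real.log c := Real.log_pos (by linarith)
  have huv : ∀ᶠ N in atTop, j₁ N ≤ j₂ N ∧ j₂ N ≤ 2 * j₁ N := by
    filter_upwards [t1.eventually_ge_atTop (⌊A * Real.log c⌋₊ + 2), eventually_ge_atTop 3] with N h1 h2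
    have hN0 : (0 : ℝ) < N := by exact_mod_cast (by omega : 0 < N)
    have hlN : 0 < Real.log (N : ℝ) := Real.log_pos (by exact_mod_cast (by omega : 1 < N))
    constructor
    · rw [hj₁, hj₂]
      apply Nat.floor_le_floor
      exact mul_le_mul_of_nonneg_left (Real.log_le_log hN0 (by nlinarith)) hA.le
    · have h3 : j₂ N ≤ ⌊A * Real.log c⌋₊ + 1 + j₁ N := by
        rw [hj₂]
        apply Nat.le_of_lt_succ
        rw [Nat.floor_lt (by
          have : 0 ≤ Real.log (c * (N : ℝ)) := by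
            rw [Real.log_mul (by linarith) hN0.ne']
            linarith
          positivity)]
        have h4 := Nat.lt_floor_add_one (A * Real.log c)
        have h5 := Nat.lt_floor_add_one (A * Real.log (N : ℝ))
        have h6 : ((j₁ N : ℕ) : ℝ) = (⌊A * Real.log (N : ℝ)⌋₊ : ℝ) := by rw [hj₁]
        rw [Real.log_mul (by linarith) hN0.ne']
        push_cast
        rw [h6]
        linarith
      omega
  have hr := VV_ratio t1 huv
  have hr' : Tendsto (fun N => VV (j₁ N) / VV (j₂ N)) atTop (𝓝 1) := by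
    have h1 := hr.inv₀ one_ne_zero
    rw [inv_one] at h1
    refine h1.congr fun N => ?_
    simp only [inv_div]
  have hll : Tendsto (fun N : ℕ => Real.log (N : ℝ) / Real.log (c * (N : ℝ))) atTop (𝓝 1) := by
    have h1 : Tendsto (fun N : ℕ => 1 - Real.log c / Real.log (c * (N : ℝ))) atTop (𝓝 (1 - 0)) :=
      tendsto_const_nhds.sub (Tendsto.const_div_atTop hL4 _)
    rw [sub_zero] at h1
    refine h1.congr' ?_
    filter_upwards [eventually_ge_atTop 3] with N h2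
    have hN0 : (0 : ℝ) < N := by exact_mod_cast (by omega : 0 < N)
    have hlN : 0 < Real.log (N : ℝ) := Real.log_pos (by exact_mod_cast (by omega : 1 < N))
    rw [Real.log_mul (by linarith) hN0.ne']
    have : Real.log c + Real.log (N : ℝ) ≠ 0 := by positivity
    field_simp
    ring
  -- the two factors
  obtain ⟨SF, hSF⟩ : ∃ SF : ℕ → ℝ, SF = SSg (fun p => (XF F p).card) F.card := ⟨_, rfl⟩
  rw [← hSF] at hs
  have ha : Tendsto (fun N => SF (j₁ N) * (VV (j₂ N) / VV (j₁ N)) ^ k) atTop (𝓝 (s * 1 ^ k)) :=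
    (hs.comp t1).mul (hr.pow k)
  have hb : Tendsto (fun N : ℕ => SF (j₂ N) * (VV (j₁ N) / VV (j₂ N)) ^ k * (Real.log (N : ℝ) / Real.log (c * (N : ℝ))) ^ k)
      atTop (𝓝 (s * 1 ^ k * 1 ^ k)) :=
    ((hs.comp t2).mul (hr'.pow k)).mul (hll.pow k)
  rw [one_pow, mul_one] at ha hb
  rw [mul_one] at hb
  have hVV : ∀ᶠ N : ℕ in atTop, VV (j₁ N) ≤ Real.log N := by
    have h1 := hL.eventually (VV_ev A 1 hA one_pos le_rfl)
    have h2 : (fun u : ℝ => (1 + 1) * GG * Real.log u) =o[atTop] (fun u : ℝ => u) :=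
      Real.isLittleO_log_id_atTop.const_mul_left _
    have h3 := h2.bound one_pos
    filter_upwards [h1, hL.eventually h3, hL.eventually_ge_atTop 1] with N h4 h5 h6
    rw [hj₁]
    refine h4.trans ?_
    rw [Real.norm_eq_abs, Real.norm_eq_abs, one_mul, abs_of_nonneg (by linarith : (0 : ℝ) ≤ Real.log N)] at h5
    exact (le_abs_self _).trans h5
  filter_upwards [ha.eventually (eventually_le_nhds (show s < s + δ / 2 by linarith)),
    hb.eventually (eventually_ge_nhds (show s - δ / 2 < s by linarith)),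
    err_tuple A hA c hc.1 K ε (δ / 2) hε (by positivity), hVV, huv, eventually_ge_atTop 3]
    with N e1 e2 e3 e4 e5 e6 M hM1 hM2
  have hN0 : (0 : ℝ) < N := by exact_mod_cast (by omega : 0 < N)
  have hlN : 0 < Real.log (N : ℝ) := Real.log_pos (by exact_mod_cast (by omega : 1 < N))
  have hNe : 0 < (N : ℝ) ^ ε := by positivity
  have hNM : N ≤ M := by
    have : (N : ℝ) ≤ M := by linarith
    exact_mod_cast this
  have hl4N : Real.log (N : ℝ) ≤ Real.log (c * (N : ℝ)) := Real.log_le_log hN0 (by nlinarith)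
  have hV1 := one_le_VV (j₁ N)
  have hV2 := one_le_VV (j₂ N)
  have hV12 : VV (j₁ N) ≤ VV (j₂ N) := VV_mono e5.1
  have hj2' : ⌊A * Real.log (c * (N : ℝ))⌋₊ = j₂ N := by rw [hj₂]
  have hj1' : ⌊A * Real.log (N : ℝ)⌋₊ = j₁ N := by rw [hj₁]
  rw [hj2'] at e3
  rw [← hk]
  obtain ⟨L, hLd⟩ : ∃ L, L = Real.log (N : ℝ) := ⟨_, rfl⟩
  obtain ⟨L4, hL4d⟩ : ∃ L4, L4 = Real.log (c * (N : ℝ)) := ⟨_, rfl⟩
  obtain ⟨v₁, hv₁⟩ : ∃ v, v = VV (j₁ N) := ⟨_, rfl⟩
  obtain ⟨v₂, hv₂⟩ : ∃ v, v = VV (j₂ N) := ⟨_, rfl⟩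
  obtain ⟨W, hW⟩ : ∃ W : ℝ, W = ((K : ℝ) + 1) ^ (PJ (j₂ N)).card := ⟨_, rfl⟩
  obtain ⟨D, hD⟩ : ∃ D : ℝ, D = (M : ℝ) - N := ⟨_, rfl⟩
  have hD0 : 0 < D := by rw [hD]; linarith
  have hDe : (N : ℝ) ^ ε ≤ D := by rw [hD]; linarith
  have hW0 : 0 < W := by rw [hW]; positivity
  -- the two error terms
  have herr : v₂ ^ k * W ≤ δ / 2 * D := by
    rw [hv₂, hW]
    refine le_trans ?_ (e3.trans (mul_le_mul_of_nonneg_left hDe (by positivity)))
    apply mul_le_mul_of_nonneg_right _ (by positivity)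
    exact pow_le_pow_right₀ hV2 (by omega)
  rw [← hLd, ← hL4d] at hl4N
  rw [← hLd] at hlN ⊢
  rw [← hv₁, ← hv₂] at hV12
  rw [← hv₁] at hV1
  rw [← hv₂] at hV2
  rw [← hD]
  have hL40 : 0 < L4 := by linarith
  have hv10 : 0 < v₁ := by linarith
  have hv20 : 0 < v₂ := by linarith
  have hLk : 0 < L ^ k := by positivity
  have hL4k : 0 < L4 ^ k := by positivity
  -- the counting function
  have hcount : ∀ j : ℕ, ∀ x : ℝ, ∑ n ∈ Ioc N M, (if ∀ p ∈ PJ j, n % p ∉ XF F p then x else 0) =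
      (NX (PJ j) (XF F) 1 0 N M : ℝ) * x := by
    intro j x
    rw [← sum_filter, sum_const, nsmul_eq_mul]
    congr 2
    unfold NX
    congr 1
    apply filter_congr
    intro n _
    simp [Nat.modEq_one]
  rw [abs_le]
  constructor
  · -- lower bound
    have h1 : ∑ n ∈ Ioc N M, (if ∀ p ∈ PJ (j₂ N), n % p ∉ XF F p then (v₁ / L4) ^ k else 0) ≤
        ∑ n ∈ Ioc N M, ∏ f ∈ F, pr A (vl f n) := by
      refine sum_le_sum fun n hn => ?_
      rw [mem_Ioc] at hn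
      have h2 := tuple_low A hA F c hc N n e6 hn.1 (by omega) (by rw [hj1']; exact e4)
      rw [hj2', hj1', ← hL4d, ← hv₁, ← hk] at h2
      exact h2
    rw [hcount] at h1
    have h2 := (abs_le.1 (leg_tuple hF (j₂ N) (j₂ N) le_rfl N M hNM)).1
    rw [← hD, ← hK, ← hW] at h2
    obtain ⟨P, hP⟩ : ∃ P : ℝ, P = ∏ p ∈ PJ (j₂ N), (1 - ((XF F p).card : ℝ) / p) := ⟨_, rfl⟩
    rw [← hP] at h2
    have hSS : SF (j₂ N) = P * v₂ ^ k := by rw [hSF, SSg_eq, hP, hv₂, hk]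
    rw [hSS, ← hv₁, ← hv₂, ← hLd, ← hL4d] at e2
    have hvL : 0 ≤ (v₁ / L4) ^ k := by positivity
    have h3 : (D * P - W) * (v₁ / L4) ^ k ≤ (NX (PJ (j₂ N)) (XF F) 1 0 N M : ℝ) * (v₁ / L4) ^ k :=
      mul_le_mul_of_nonneg_right (by linarith) hvL
    have h4 : D * P * (v₁ / L4) ^ k = D / L ^ k * (P * v₂ ^ k * (v₁ / v₂) ^ k * (L / L4) ^ k) := by
      rw [div_pow, div_pow, div_pow]
      have : v₂ ^ k ≠ 0 := by positivity
      field_simp
    have h5 : W * (v₁ / L4) ^ k ≤ δ / 2 * (D / L ^ k) := by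
      have h6 : (v₁ / L4) ^ k ≤ v₂ ^ k / L ^ k := by
        rw [div_pow]
        exact div_le_div₀ (by positivity) (pow_le_pow_left₀ (by linarith) hV12 k) hLk (pow_le_pow_left₀ hlN.le hl4N k)
      calc W * (v₁ / L4) ^ k ≤ W * (v₂ ^ k / L ^ k) := mul_le_mul_of_nonneg_left h6 hW0.le
        _ = (v₂ ^ k * W) / L ^ k := by ring
        _ ≤ (δ / 2 * D) / L ^ k := div_le_div_of_nonneg_right herr hLk.le
        _ = δ / 2 * (D / L ^ k) := by ring
    have h6 : (s - δ / 2) * (D / L ^ k) ≤ D / L ^ k * (P * v₂ ^ k * (v₁ / v₂) ^ k * (L / L4) ^ k) := by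
      rw [mul_comm]
      exact mul_le_mul_of_nonneg_left e2 (by positivity)
    nlinarith
  · -- upper bound
    have h1 : ∑ n ∈ Ioc N M, ∏ f ∈ F, pr A (vl f n) ≤
        ∑ n ∈ Ioc N M, (if ∀ p ∈ PJ (j₁ N), n % p ∉ XF F p then (v₂ / L) ^ k else 0) := by
      refine sum_le_sum fun n hn => ?_
      rw [mem_Ioc] at hn
      have h2 := tuple_up A hA F c hc N n e6 hn.1 (by omega)
      rw [hj2', hj1', ← hLd, ← hv₂, ← hk] at h2
      exact h2
    rw [hcount] at h1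
    have h2 := (abs_le.1 (leg_tuple hF (j₁ N) (j₂ N) e5.1 N M hNM)).2
    rw [← hD, ← hK, ← hW] at h2
    obtain ⟨P, hP⟩ : ∃ P : ℝ, P = ∏ p ∈ PJ (j₁ N), (1 - ((XF F p).card : ℝ) / p) := ⟨_, rfl⟩
    rw [← hP] at h2
    have hSS : SF (j₁ N) = P * v₁ ^ k := by rw [hSF, SSg_eq, hP, hv₁, hk]
    rw [hSS, ← hv₁, ← hv₂] at e1
    have hvL : 0 ≤ (v₂ / L) ^ k := by positivity
    have h3 : (NX (PJ (j₁ N)) (XF F) 1 0 N M : ℝ) * (v₂ / L) ^ k ≤ (D * P + W) * (v₂ / L) ^ k :=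
      mul_le_mul_of_nonneg_right (by linarith) hvL
    have h4 : D * P * (v₂ / L) ^ k = D / L ^ k * (P * v₁ ^ k * (v₂ / v₁) ^ k) := by
      rw [div_pow, div_pow]
      have : v₁ ^ k ≠ 0 := by positivity
      field_simp
    have h5 : W * (v₂ / L) ^ k ≤ δ / 2 * (D / L ^ k) := by
      rw [div_pow]
      calc W * (v₂ ^ k / L ^ k) = (v₂ ^ k * W) / L ^ k := by ring
        _ ≤ (δ / 2 * D) / L ^ k := div_le_div_of_nonneg_right herr hLk.le
        _ = δ / 2 * (D / L ^ k) := by ring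
    have h6 : D / L ^ k * (P * v₁ ^ k * (v₂ / v₁) ^ k) ≤ (s + δ / 2) * (D / L ^ k) := by
      rw [mul_comm]
      exact mul_le_mul_of_nonneg_right e1 (by positivity)
    nlinarith

end Pool.Agent.T2H62.ML
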