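import Pool.Agent.H373R2.T7.Bonf
import Pool.Agent.T2H62.ML.A
import Pool.Agent.T2H62.MD.O

set_option autoImplicit false

/-! # The pure sieve with many residue classes -/

namespace Pool.Agent.T2H62.ML

open Finset Filter Topology
open Pool.Agent.T2H62.MD
open Pool.Agent.H373R2.T7 (es es_le sieve_gen' card_small)

/-- the number of the integers in `(a, b]`, congruent to `c` modulo `m`, inside the classes `X p`, `p ∈ P` -/
def IX (P : Finset ℕ) (X : ℕ → Finset ℕ) (m c a b : ℕ) : ℕ :=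
  ((Ioc a b).filter (fun n => n ≡ c [MOD m] ∧ ∀ p ∈ P, n % p ∈ X p)).card

theorem IX_insert (P : Finset ℕ) (X : ℕ → Finset ℕ) (p : ℕ) (hp : 0 < p) (hX : X p ⊆ range p) (m : ℕ) (hmp : Nat.Coprime m p)
    (c a b : ℕ) : IX (insert p P) X m c a b = ∑ r ∈ X p, IX P X (m * p) (Nat.chineseRemainder hmp c r) a b := by
  classical
  unfold IX
  rw [← card_biUnion]
  · congr 1
    ext n
    simp only [mem_filter, mem_biUnion, mem_insert, forall_eq_or_imp]
    constructor
    · rintro ⟨h1, h2, h3, h4⟩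
      refine ⟨n % p, h3, h1, ?_, h4⟩
      have h5 := (Nat.chineseRemainder hmp c (n % p)).2
      rw [← Nat.modEq_and_modEq_iff_modEq_mul hmp]
      exact ⟨h2.trans h5.1.symm, ((Nat.mod_modEq n p).symm).trans h5.2.symm⟩
    · rintro ⟨r, hr, h1, h2, h3⟩
      have h5 := (Nat.chineseRemainder hmp c r).2
      rw [← Nat.modEq_and_modEq_iff_modEq_mul hmp] at h2
      refine ⟨h1, h2.1.trans h5.1, ?_, h3⟩
      have h6 : n ≡ r [MOD p] := h2.2.trans h5.2
      have h7 : r < p := mem_range.1 (hX hr)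
      unfold Nat.ModEq at h6
      rw [Nat.mod_eq_of_lt h7] at h6
      rw [h6]
      exact hr
  · intro r hr r' hr' hne
    rw [Function.onFun, Finset.disjoint_left]
    intro n hn hn'
    rw [mem_filter] at hn hn'
    have h1 := (Nat.chineseRemainder hmp c r).2
    have h2 := (Nat.chineseRemainder hmp c r').2
    have h3 := ((Nat.modEq_and_modEq_iff_modEq_mul hmp).2 hn.2.1).2
    have h4 := ((Nat.modEq_and_modEq_iff_modEq_mul hmp).2 hn'.2.1).2
    have h5 : r ≡ r' [MOD p] := (h1.2.symm.trans h3.symm).trans (h4.trans h2.2)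
    unfold Nat.ModEq at h5
    rw [Nat.mod_eq_of_lt (mem_range.1 (hX hr)), Nat.mod_eq_of_lt (mem_range.1 (hX hr'))] at h5
    exact hne h5

theorem IX_count (X : ℕ → Finset ℕ) (P : Finset ℕ) : (∀ p ∈ P, p.Prime) → (∀ p ∈ P, X p ⊆ range p) →
    ∀ m : ℕ, 0 < m → (∀ p ∈ P, Nat.Coprime m p) → ∀ c a b : ℕ, a ≤ b →
    |(IX P X m c a b : ℝ) - ((b : ℝ) - a) / m * ∏ p ∈ P, ((X p).card : ℝ) / p| ≤ ∏ p ∈ P, ((X p).card : ℝ) := by
  classical
  induction P using Finset.induction_on with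
  | empty =>
    intro _ _ m hm _ c a b hab
    have := NX_empty X m c a b hm hab
    unfold NX at this
    unfold IX
    simpa using this
  | insert p P hpP ih =>
    intro hP hX m hm hmc c a b hab
    have hp := hP p (mem_insert_self _ _)
    have hXp := hX p (mem_insert_self _ _)
    have hmp := hmc p (mem_insert_self _ _)
    have h1 := IX_insert P X p hp.pos hXp m hmp c a b
    rw [h1, prod_insert hpP, prod_insert hpP]
    push_cast
    have h2 : ∀ r ∈ X p, |(IX P X (m * p) (Nat.chineseRemainder hmp c r) a b : ℝ) -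
        ((b : ℝ) - a) / ((m * p : ℕ) : ℝ) * ∏ p ∈ P, ((X p).card : ℝ) / p| ≤ ∏ p ∈ P, ((X p).card : ℝ) := by
      intro r _
      refine ih (fun q hq => hP q (mem_insert_of_mem hq)) (fun q hq => hX q (mem_insert_of_mem hq)) (m * p)
        (Nat.mul_pos hm hp.pos) (fun q hq => ?_) _ a b hab
      refine Nat.Coprime.mul_left (hmc q (mem_insert_of_mem hq)) ?_
      rw [Nat.coprime_primes hp (hP q (mem_insert_of_mem hq))]
      rintro rfl
      exact hpP hq
    have hm0 : (0 : ℝ) < m := by exact_mod_cast hm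
    have hp0 : (0 : ℝ) < p := by exact_mod_cast hp.pos
    have h3 : ∑ r ∈ X p, (IX P X (m * p) (Nat.chineseRemainder hmp c r) a b : ℝ) -
        ((b : ℝ) - a) / m * (((X p).card : ℝ) / p * ∏ p ∈ P, ((X p).card : ℝ) / p) =
        ∑ r ∈ X p, ((IX P X (m * p) (Nat.chineseRemainder hmp c r) a b : ℝ) -
        ((b : ℝ) - a) / ((m * p : ℕ) : ℝ) * ∏ p ∈ P, ((X p).card : ℝ) / p) := by
      rw [sum_sub_distrib, sum_const, nsmul_eq_mul]
      push_cast
      congr 1
      field_simp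
    rw [h3]
    refine (abs_sum_le_sum_abs _ _).trans ((sum_le_sum h2).trans ?_)
    rw [sum_const, nsmul_eq_mul]

/-- the pure sieve -/
theorem brun (X : ℕ → Finset ℕ) (P : Finset ℕ) (hP : ∀ p ∈ P, p.Prime) (hX : ∀ p ∈ P, X p ⊆ range p)
    (m : ℕ) (hm : 0 < m) (hmc : ∀ p ∈ P, Nat.Coprime m p) (c a b : ℕ) (hab : a ≤ b) (k : ℕ) (hk : 1 ≤ k)
    (hXk : ∀ p ∈ P, (X p).card ≤ k) (L : ℕ) :
    |(NX P X m c a b : ℝ) - ((b : ℝ) - a) / m * ∏ p ∈ P, (1 - ((X p).card : ℝ) / p)| ≤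
      (k : ℝ) ^ L * ((P.card : ℝ) + 1) ^ L + 2 * (((b : ℝ) - a) / m) * Real.exp (3 * ∑ p ∈ P, ((X p).card : ℝ) / p - L) := by
  classical
  have hab' : (a : ℝ) ≤ b := by exact_mod_cast hab
  have hX0 : 0 ≤ ((b : ℝ) - a) / m := div_nonneg (by linarith) (Nat.cast_nonneg _)
  have hk1 : (1 : ℝ) ≤ k := by exact_mod_cast hk
  have h1 := sieve_gen' ((Ioc a b).filter (fun n => n ≡ c [MOD m])) (fun _ => (1 : ℝ)) (fun _ _ => zero_le_one)
    (fun p n => n % p ∈ X p) P (fun p => ((X p).card : ℝ) / p) (by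
      intro p hp
      have hp0 : (0 : ℝ) < p := by exact_mod_cast (hP p hp).pos
      refine ⟨by positivity, ?_⟩
      rw [div_le_one hp0]
      have := card_le_card (hX p hp)
      rw [card_range] at this
      exact_mod_cast this) (((b : ℝ) - a) / m) hX0 (fun _ => (k : ℝ) ^ L) L (by
      intro S hS hSL
      have h2 := IX_count X S (fun p hp => hP p (hS hp)) (fun p hp => hX p (hS hp)) m hm (fun p hp => hmc p (hS hp)) c a b hab
      have h3 : ∑ i ∈ ((Ioc a b).filter (fun n => n ≡ c [MOD m])).filter (fun n => ∀ p ∈ S, n % p ∈ X p), (1 : ℝ) =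
          (IX S X m c a b : ℝ) := by
        rw [sum_const, nsmul_eq_mul, mul_one, filter_filter]
        rfl
      rw [h3]
      refine h2.trans ?_
      calc ∏ p ∈ S, ((X p).card : ℝ) ≤ ∏ p ∈ S, (k : ℝ) :=
            prod_le_prod (fun p _ => Nat.cast_nonneg _) fun p hp => by exact_mod_cast hXk p (hS hp)
        _ = (k : ℝ) ^ S.card := prod_const _
        _ ≤ (k : ℝ) ^ L := pow_le_pow_right₀ hk1 hSL)
  have h2 : ∑ i ∈ ((Ioc a b).filter (fun n => n ≡ c [MOD m])).filter (fun n => ∀ p ∈ P, n % p ∉ X p), (1 : ℝ) =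
      (NX P X m c a b : ℝ) := by
    rw [sum_const, nsmul_eq_mul, mul_one, filter_filter]
    unfold NX
    congr
  rw [h2] at h1
  refine h1.trans (add_le_add ?_ ?_)
  · have h3 : ∑ j ∈ range (L + 1), ∑ S ∈ P.powersetCard j, (k : ℝ) ^ L =
        (k : ℝ) ^ L * ((∑ j ∈ range (L + 1), (P.powersetCard j).card : ℕ) : ℝ) := by
      push_cast
      rw [mul_sum]
      refine sum_congr rfl fun j _ => ?_
      rw [sum_const, nsmul_eq_mul, mul_comm]
    rw [h3]
    exact mul_le_mul_of_nonneg_left (card_small P L) (by positivity)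
  · exact mul_le_mul_of_nonneg_left (es_le (fun p _ => by positivity) L) (by positivity)

/-- lower bound for a product -/
theorem prod_exp (g : ℕ → ℝ) (P : Finset ℕ) (hg : ∀ p ∈ P, 0 ≤ g p ∧ g p ≤ 1 / 2) :
    Real.exp (-(2 * ∑ p ∈ P, g p)) ≤ ∏ p ∈ P, (1 - g p) := by
  rw [mul_sum, ← sum_neg_distrib, Real.exp_sum]
  refine prod_le_prod (fun p _ => (Real.exp_pos _).le) fun p hp => ?_
  obtain ⟨h1, h2⟩ := hg p hp
  -- `exp (-2x) ≤ 1 - x` on `[0, 1/2]`
  have h3 : 1 - 2 * g p + 2 * g p ^ 2 ≤ 1 - g p := by nlinarith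
  have h4 : Real.exp (-(2 * g p)) * (1 + 2 * g p + 2 * g p ^ 2) ≤ 1 := by
    have h5 : 1 + 2 * g p + (2 * g p) ^ 2 / 2 ≤ Real.exp (2 * g p) := Real.quadratic_le_exp_of_nonneg (by linarith)
    have h6 : 1 + 2 * g p + 2 * g p ^ 2 ≤ Real.exp (2 * g p) := by nlinarith
    calc Real.exp (-(2 * g p)) * (1 + 2 * g p + 2 * g p ^ 2) ≤ Real.exp (-(2 * g p)) * Real.exp (2 * g p) :=
          mul_le_mul_of_nonneg_left h6 (Real.exp_pos _).le
      _ = 1 := by rw [← Real.exp_add]; simp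
  have h5 : 1 ≤ (1 - g p) * (1 + 2 * g p + 2 * g p ^ 2) := by nlinarith [mul_nonneg h1 (sub_nonneg.2 h2), mul_nonneg (mul_nonneg h1 h1) (sub_nonneg.2 h2)]
  have h6 : 0 < 1 + 2 * g p + 2 * g p ^ 2 := by positivity
  have h7 := h4.trans h5
  exact le_of_mul_le_mul_right h7 h6

end Pool.Agent.T2H62.ML
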