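import Pool.Agent.T2H62.ML.C
import Pool.Agent.T2H62.ML.D
import Pool.Agent.T2H62.MD.L

set_option autoImplicit false

/-! # Large patterns of random primes -/

namespace Pool.Agent.T2H62.ML

open Finset Filter Topology MeasureTheory ProbabilityTheory
open Pool.Agent.T2H53.GW
open Pool.Agent.T2H62.MD
open Pool.Agent.H305R2 (VV VV_tendsto)

variable {Ω : Type*} [MeasurableSpace Ω] {μ : Measure Ω} [IsProbabilityMeasure μ] {S : ℕ → Set Ω}

/-- the admissible sets -/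
def AdmP (T : Finset ℕ) : Prop := ∀ p : ℕ, p.Prime → ∃ r : ℕ, ∀ t ∈ T, ¬ p ∣ r + t

theorem crt_class {T : Finset ℕ} (hT : AdmP T) (P : Finset ℕ) (hP : ∀ p ∈ P, p.Prime) : ∃ c : ℕ, ∀ p ∈ P, ∀ t ∈ T, ¬ p ∣ c + t := by
  classical
  induction P using Finset.induction_on with
  | empty => exact ⟨0, fun p hp => absurd hp (notMem_empty p)⟩
  | insert q P hqP ih =>
    obtain ⟨c, hc⟩ := ih (fun p hp => hP p (mem_insert_of_mem hp))
    obtain ⟨r, hr⟩ := hT q (hP q (mem_insert_self _ _))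
    have hco : Nat.Coprime (∏ p ∈ P, p) q := by
      apply Nat.Coprime.prod_left
      intro p hp
      rw [Nat.coprime_primes (hP p (mem_insert_of_mem hp)) (hP q (mem_insert_self _ _))]
      rintro rfl
      exact hqP hp
    obtain ⟨x, hx1, hx2⟩ := Nat.chineseRemainder hco c r
    refine ⟨x, fun p hp t ht hd => ?_⟩
    rw [mem_insert] at hp
    rcases hp with rfl | hp
    · exact hr t ht ((Nat.ModEq.dvd_iff (hx2.add_right t) (dvd_refl p)).1 hd)
    · have h1 : x ≡ c [MOD p] := hx1.of_dvd (dvd_prod_of_mem _ hp)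
      exact hc p hp t ht ((Nat.ModEq.dvd_iff (h1.add_right t) (dvd_refl p)).1 hd)

theorem primorial_big {w : ℕ} (hw : 8 ≤ w) : w ^ 3 ≤ 512 * primorial w := by
  obtain ⟨p₁, h1, h1a, h1b⟩ := Nat.exists_prime_lt_and_le_two_mul (w / 2) (by omega)
  obtain ⟨p₂, h2, h2a, h2b⟩ := Nat.exists_prime_lt_and_le_two_mul (w / 4) (by omega)
  obtain ⟨p₃, h3, h3a, h3b⟩ := Nat.exists_prime_lt_and_le_two_mul (w / 8) (by omega)
  have h12 : p₂ < p₁ := by omega
  have h23 : p₃ < p₂ := by omega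
  have hsub : ({p₁, p₂, p₃} : Finset ℕ) ⊆ (range (w + 1)).filter Nat.Prime := by
    intro p hp
    simp only [mem_insert, mem_singleton] at hp
    rw [mem_filter, mem_range]
    rcases hp with rfl | rfl | rfl
    · exact ⟨by omega, h1⟩
    · exact ⟨by omega, h2⟩
    · exact ⟨by omega, h3⟩
  have hprod : ∏ p ∈ ({p₁, p₂, p₃} : Finset ℕ), p = p₁ * (p₂ * p₃) := by
    rw [prod_insert (by simp only [mem_insert, mem_singleton]; omega), prod_insert (by simp only [mem_singleton]; omega), prod_singleton]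
  have hle : p₁ * (p₂ * p₃) ≤ primorial w := by
    rw [← hprod]
    unfold primorial
    exact prod_le_prod_of_subset_of_one_le' hsub fun p hp _ => (mem_filter.1 hp).2.one_lt.le
  have e1 : w ≤ 2 * p₁ := by omega
  have e2 : w ≤ 4 * p₂ := by omega
  have e3 : w ≤ 8 * p₃ := by omega
  calc w ^ 3 = w * (w * w) := by ring
    _ ≤ (2 * p₁) * ((4 * p₂) * (8 * p₃)) := Nat.mul_le_mul e1 (Nat.mul_le_mul e2 e3)
    _ = 64 * (p₁ * (p₂ * p₃)) := by ring
    _ ≤ 64 * primorial w := Nat.mul_le_mul_left _ hle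
    _ ≤ 512 * primorial w := Nat.mul_le_mul_right _ (by norm_num)

/-- the places of a pattern without small prime factors, in a residue class -/
noncomputable def RT (A : ℝ) (T : Finset ℕ) (m c N : ℕ) : Finset ℕ := by
  classical exact (Ioc N (2 * N)).filter (fun n => n ≡ c [MOD m] ∧
    ∀ p : ℕ, p.Prime → (p : ℝ) ≤ 2 * A * Real.log N → ∀ t ∈ T, ¬ p ∣ n + t)

theorem many_places (A : ℝ) (hA : 0 < A) (ε : ℝ) (hε : 0 < ε) (hε1 : ε ≤ 1) : ∀ᶠ N : ℕ in atTop, ∀ T : Finset ℕ, AdmP T →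
    (T.card : ℝ) * Real.log (Real.log N) ≤ Real.log N → ∃ m c : ℕ, Real.log N ^ 2 < m ∧
      (N : ℝ) ^ (1 - ε) ≤ ((RT A T m c N).card : ℝ) := by
  classical
  have hTn : Tendsto (fun n : ℕ => (n : ℝ)) atTop atTop := tendsto_natCast_atTop_atTop
  have hL : Tendsto (fun n : ℕ => Real.log (n : ℝ)) atTop atTop := Real.tendsto_log_atTop.comp hTn
  have hL2 : Tendsto (fun n : ℕ => Real.log (Real.log (n : ℝ))) atTop atTop := Real.tendsto_log_atTop.comp hL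
  have hz : Tendsto (fun n : ℕ => ⌊2 * A * Real.log (n : ℝ)⌋₊) atTop atTop :=
    tendsto_nat_floor_atTop.comp (hL.const_mul_atTop (by positivity))
  obtain ⟨η, hη⟩ : ∃ η : ℝ, η = ε / 16 := ⟨_, rfl⟩
  have hη0 : 0 < η := by rw [hη]; positivity
  obtain ⟨δ₁, hδ₁⟩ : ∃ δ₁ : ℝ, δ₁ = η ^ 2 / (96 * A) := ⟨_, rfl⟩
  have hδ0 : 0 < δ₁ := by rw [hδ₁]; positivity
  filter_upwards [hz.eventually (pi_small δ₁ hδ0), hL2.eventually_ge_atTop (2 + 8 / η),
    hL.eventually_ge_atTop (20 / η + 4096 / η ^ 3 + 2 * A + 2),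
    log_log_small (6 / η) 1 1 one_pos, rpow_big 8 (ε / 2) (by positivity), eventually_ge_atTop 3]
    with N e1 e2 e3 e4 e5 e6 T hT hK
  have hN0 : (0 : ℝ) < N := by exact_mod_cast (by omega : 0 < N)
  obtain ⟨K, hKd⟩ : ∃ K : ℕ, K = T.card + 1 := ⟨_, rfl⟩
  obtain ⟨ℓ, hℓ⟩ : ∃ ℓ : ℝ, ℓ = Real.log N := ⟨_, rfl⟩
  obtain ⟨ℓ₂, hℓ₂⟩ : ∃ ℓ₂ : ℝ, ℓ₂ = Real.log (Real.log N) := ⟨_, rfl⟩
  obtain ⟨z, hzd⟩ : ∃ z : ℕ, z = ⌊2 * A * Real.log (N : ℝ)⌋₊ := ⟨_, rfl⟩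
  obtain ⟨y, hyd⟩ : ∃ y : ℕ, y = ⌊η * ℓ⌋₊ := ⟨_, rfl⟩
  rw [pow_one, Real.rpow_one] at e4
  rw [← hzd] at e1
  rw [← hℓ₂] at e2 e4 hK
  rw [← hℓ] at e3 e4 hK
  rw [← hℓ] at hzd
  have h4η : 0 < 8 / η := by positivity
  have h2η : 0 < 20 / η := by positivity
  have h3η : 0 < 4096 / η ^ 3 := by positivity
  have hℓ₂0 : 0 < ℓ₂ := by linarith
  have hℓ0 : 0 < ℓ := by linarith
  have hηℓ : 20 ≤ η * ℓ := by
    have h1 : 20 / η ≤ ℓ := by linarith
    rw [div_le_iff₀ hη0] at h1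
    linarith
  have hy1 : η * ℓ / 2 ≤ y := by
    have := Nat.lt_floor_add_one (η * ℓ)
    rw [← hyd] at this
    linarith
  have hy2 : (y : ℝ) ≤ η * ℓ := by rw [hyd]; exact Nat.floor_le (by positivity)
  have hy10 : (10 : ℝ) ≤ y := by linarith
  have hy0 : (0 : ℝ) < y := by linarith
  have hz2 : (z : ℝ) ≤ 2 * A * ℓ := by rw [hzd]; exact Nat.floor_le (by positivity)
  -- the size of the pattern
  have hTℓ : (T.card : ℝ) ≤ ℓ / ℓ₂ := by rw [le_div_iff₀ hℓ₂0]; exact hK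
  have hratio : 6 ≤ η * (ℓ / ℓ₂) := by
    rw [← mul_div_assoc, le_div_iff₀ hℓ₂0]
    rw [div_mul_eq_mul_div, div_le_iff₀ hη0] at e4
    linarith
  have hη1 : η ≤ 1 := by rw [hη]; linarith
  have hpos2 : 0 < ℓ / ℓ₂ := by positivity
  have hr1 : 1 ≤ ℓ / ℓ₂ := by nlinarith
  have hKℓ : (K : ℝ) ≤ 2 * (ℓ / ℓ₂) := by
    rw [hKd]
    push_cast
    linarith
  -- the primes of the sieve
  obtain ⟨P, hP⟩ : ∃ P : Finset ℕ, P = PJ z \ PJ y := ⟨_, rfl⟩
  have hPp : ∀ p ∈ P, p.Prime ∧ y < p := by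
    intro p hp
    rw [hP, Finset.mem_sdiff] at hp
    have h1 := PJ_prime hp.1
    refine ⟨h1, ?_⟩
    by_contra h2
    apply hp.2
    unfold PJ
    rw [mem_filter, mem_Icc]
    exact ⟨⟨h1.one_lt.le, by omega⟩, h1⟩
  have hPc : (P.card : ℝ) ≤ δ₁ * (2 * A * ℓ) := by
    have h1 : P.card ≤ (PJ z).card := card_le_card (by rw [hP]; exact sdiff_subset)
    have h2 : (P.card : ℝ) ≤ ((PJ z).card : ℝ) := by exact_mod_cast h1
    calc (P.card : ℝ) ≤ δ₁ * z := h2.trans e1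
      _ ≤ δ₁ * (2 * A * ℓ) := mul_le_mul_of_nonneg_left hz2 hδ0.le
  have hXK : ∀ p : ℕ, p.Prime → (XX T p).card ≤ K := by
    intro p hp
    rw [XX_card T hp.pos, hKd]
    exact (nu_le T p).trans (Nat.le_succ _)
  -- the bound for the sum
  obtain ⟨g, hg⟩ : ∃ g : ℕ → ℝ, g = fun p => ((XX T p).card : ℝ) / p := ⟨_, rfl⟩
  have hg1 : ∀ p ∈ P, 0 ≤ g p ∧ g p ≤ K / y := by
    intro p hp
    obtain ⟨h1, h2⟩ := hPp p hp
    rw [hg]
    refine ⟨by positivity, ?_⟩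
    have h3 : ((XX T p).card : ℝ) ≤ K := by exact_mod_cast hXK p h1
    exact div_le_div₀ (Nat.cast_nonneg _) h3 hy0 (by exact_mod_cast h2.le)
  have hKy : (K : ℝ) / y ≤ 1 / 2 := by
    rw [div_le_iff₀ hy0]
    have h1 : ℓ / ℓ₂ ≤ η * ℓ / 8 := by
      rw [div_le_iff₀ hℓ₂0]
      have h2 : 8 / η ≤ ℓ₂ := by linarith
      rw [div_le_iff₀ hη0] at h2
      nlinarith
    linarith
  obtain ⟨lam, hlam⟩ : ∃ lam : ℝ, lam = ∑ p ∈ P, g p := ⟨_, rfl⟩
  have hlam0 : 0 ≤ lam := by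
    rw [hlam]
    exact sum_nonneg fun p hp => (hg1 p hp).1
  have hlam1 : lam ≤ η / 12 * (ℓ / ℓ₂) := by
    calc lam ≤ ∑ p ∈ P, (K : ℝ) / y := by rw [hlam]; exact sum_le_sum fun p hp => (hg1 p hp).2
      _ = P.card * ((K : ℝ) / y) := by rw [sum_const, nsmul_eq_mul]
      _ ≤ (δ₁ * (2 * A * ℓ)) * ((2 * (ℓ / ℓ₂)) / (η * ℓ / 2)) := by
          apply mul_le_mul hPc _ (by positivity) (by positivity)
          exact div_le_div₀ (by positivity) hKℓ (by positivity) hy1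
      _ = η / 12 * (ℓ / ℓ₂) := by
          rw [hδ₁]
          field_simp
          ring
  -- the truncation
  obtain ⟨L, hLd⟩ : ∃ L : ℕ, L = ⌊η * (ℓ / ℓ₂)⌋₊ := ⟨_, rfl⟩
  have hL1 : η * (ℓ / ℓ₂) - 1 ≤ L := by
    have := Nat.lt_floor_add_one (η * (ℓ / ℓ₂))
    rw [← hLd] at this
    linarith
  have hL2' : (L : ℝ) ≤ η * (ℓ / ℓ₂) := by rw [hLd]; exact Nat.floor_le (by positivity)
  have hexp : Real.exp (3 * lam - L) ≤ Real.exp (-(2 * lam)) / 4 := by
    have h1 : 3 * lam - L ≤ -(2 * lam) + Real.log (1 / 4) := by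
      have h2 : Real.log (1 / 4) = - (2 * Real.log 2) := by
        rw [one_div, Real.log_inv, show (4 : ℝ) = 2 ^ 2 by norm_num, Real.log_pow]
        norm_num
      have h3 := Real.log_two_lt_d9
      rw [h2]
      linarith
    calc Real.exp (3 * lam - L) ≤ Real.exp (-(2 * lam) + Real.log (1 / 4)) := Real.exp_le_exp.2 h1
      _ = Real.exp (-(2 * lam)) / 4 := by
          rw [Real.exp_add, Real.exp_log (by norm_num)]
          ring
  -- the modulus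
  obtain ⟨m, hm⟩ : ∃ m : ℕ, m = primorial y := ⟨_, rfl⟩
  have hm0 : 0 < m := by rw [hm]; exact primorial_pos y
  have hm0' : (0 : ℝ) < m := by exact_mod_cast hm0
  have hm2 : ℓ ^ 2 < m := by
    have h1 : 8 ≤ y := by
      have : (8 : ℝ) ≤ y := by linarith
      exact_mod_cast this
    have h2 := primorial_big h1
    have h3 : (y : ℝ) ^ 3 ≤ 512 * m := by rw [hm]; exact_mod_cast h2
    have h4 : (η * ℓ / 2) ^ 3 ≤ (y : ℝ) ^ 3 := pow_le_pow_left₀ (by positivity) hy1 3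
    have h5 : 4096 / η ^ 3 < ℓ := by linarith
    rw [div_lt_iff₀ (by positivity)] at h5
    have h6 : 4096 * ℓ ^ 2 < (ℓ * η ^ 3) * ℓ ^ 2 := mul_lt_mul_of_pos_right h5 (by positivity)
    nlinarith
  have hmN : (m : ℝ) ≤ Real.exp (2 * η * ℓ) := by
    have h1 : (m : ℝ) ≤ (4 : ℝ) ^ y := by rw [hm]; exact_mod_cast primorial_le_four_pow y
    refine h1.trans ?_
    have h2 : (4 : ℝ) ≤ Real.exp 2 := by
      have h3 := Real.quadratic_le_exp_of_nonneg (show (0 : ℝ) ≤ 2 by norm_num)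
      linarith
    calc (4 : ℝ) ^ y ≤ (Real.exp 2) ^ y := pow_le_pow_left₀ (by norm_num) h2 y
      _ = Real.exp (y * 2) := by rw [← Real.exp_nat_mul]
      _ ≤ Real.exp (2 * η * ℓ) := Real.exp_le_exp.2 (by linarith)
  have hmc : ∀ p ∈ P, Nat.Coprime m p := by
    intro p hp
    obtain ⟨h1, h2⟩ := hPp p hp
    rw [hm]
    unfold primorial
    apply Nat.Coprime.prod_left
    intro q hq
    rw [mem_filter, mem_range] at hq
    rw [Nat.coprime_primes hq.2 h1]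
    omega
  obtain ⟨c, hc⟩ := crt_class hT (PJ y) (fun p hp => PJ_prime hp)
  have hbr := brun (XX T) P (fun p hp => (hPp p hp).1) (fun p hp => XX_sub T (hPp p hp).1.pos) m hm0 hmc c N (2 * N) (by omega) K
    (by omega) (fun p hp => hXK p (hPp p hp).1) L
  have hgd : ∑ p ∈ P, ((XX T p).card : ℝ) / p = lam := by rw [hlam, hg]
  have hprod := prod_exp g P (fun p hp => ⟨(hg1 p hp).1, (hg1 p hp).2.trans hKy⟩)
  have hprod' : ∏ p ∈ P, (1 - ((XX T p).card : ℝ) / p) = ∏ p ∈ P, (1 - g p) := by rw [hg]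
  rw [← hlam] at hprod
  rw [hgd, hprod'] at hbr
  have h2N : ((2 * N : ℕ) : ℝ) - N = N := by push_cast; ring
  rw [h2N] at hbr
  have hlow := (abs_le.1 hbr).1
  -- the error term
  have herr : (K : ℝ) ^ L * ((P.card : ℝ) + 1) ^ L ≤ Real.exp (3 * η * ℓ) := by
    rw [← mul_pow]
    have h1 : (K : ℝ) ≤ ℓ := by
      refine hKℓ.trans ?_
      rw [← mul_div_assoc, div_le_iff₀ hℓ₂0]
      have : 2 ≤ ℓ₂ := by linarith
      nlinarith
    have h2 : (P.card : ℝ) + 1 ≤ ℓ ^ 2 := by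
      have h3 : δ₁ * (2 * A * ℓ) ≤ ℓ := by
        have h4 : δ₁ * (2 * A) ≤ 1 := by
          rw [hδ₁]
          have h5 : η ^ 2 / (96 * A) * (2 * A) = η ^ 2 / 48 := by
            field_simp
            ring
          rw [h5]
          nlinarith
        calc δ₁ * (2 * A * ℓ) = (δ₁ * (2 * A)) * ℓ := by ring
          _ ≤ 1 * ℓ := mul_le_mul_of_nonneg_right h4 hℓ0.le
          _ = ℓ := one_mul _
      have h4 : 2 ≤ ℓ := by linarith
      nlinarith
    have h3 : (K : ℝ) * ((P.card : ℝ) + 1) ≤ ℓ ^ 3 := by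
      calc (K : ℝ) * ((P.card : ℝ) + 1) ≤ ℓ * ℓ ^ 2 := mul_le_mul h1 h2 (by positivity) hℓ0.le
        _ = ℓ ^ 3 := by ring
    calc ((K : ℝ) * ((P.card : ℝ) + 1)) ^ L ≤ (ℓ ^ 3) ^ L := pow_le_pow_left₀ (by positivity) h3 L
      _ = Real.exp (L * (3 * ℓ₂)) := by
          rw [hℓ₂, ← hℓ, ← Real.rpow_natCast, Real.rpow_def_of_pos (by positivity), Real.log_pow]
          congr 1
          push_cast
          ring
      _ ≤ Real.exp (3 * η * ℓ) := by
          apply Real.exp_le_exp.2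
          have h4 : (L : ℝ) * ℓ₂ ≤ η * ℓ := by
            calc (L : ℝ) * ℓ₂ ≤ (η * (ℓ / ℓ₂)) * ℓ₂ := mul_le_mul_of_nonneg_right hL2' hℓ₂0.le
              _ = η * ℓ := by field_simp
          linarith
  -- the main term
  have hmain : Real.exp (ℓ - 4 * η * ℓ) / 2 ≤ (N : ℝ) / m * (Real.exp (-(2 * lam)) / 2) := by
    have h1 : Real.exp (ℓ - 2 * η * ℓ) ≤ (N : ℝ) / m := by
      rw [le_div_iff₀ hm0']
      calc Real.exp (ℓ - 2 * η * ℓ) * m ≤ Real.exp (ℓ - 2 * η * ℓ) * Real.exp (2 * η * ℓ) :=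
            mul_le_mul_of_nonneg_left hmN (Real.exp_pos _).le
        _ = N := by
            rw [← Real.exp_add, show ℓ - 2 * η * ℓ + 2 * η * ℓ = ℓ by ring, hℓ, Real.exp_log hN0]
    have h2 : Real.exp (-(2 * η * ℓ)) ≤ Real.exp (-(2 * lam)) := by
      apply Real.exp_le_exp.2
      have h3 : ℓ / ℓ₂ ≤ ℓ := by
        rw [div_le_iff₀ hℓ₂0]
        have : 1 ≤ ℓ₂ := by linarith
        nlinarith
      have h4 : η / 12 * (ℓ / ℓ₂) ≤ η * ℓ := mul_le_mul (by linarith) h3 hpos2.le hη0.le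
      linarith
    calc Real.exp (ℓ - 4 * η * ℓ) / 2 = Real.exp (ℓ - 2 * η * ℓ) * (Real.exp (-(2 * η * ℓ)) / 2) := by
          rw [← mul_div_assoc, ← Real.exp_add]
          congr 2
          ring
      _ ≤ (N : ℝ) / m * (Real.exp (-(2 * lam)) / 2) := by
          apply mul_le_mul h1 (by linarith) (by positivity) (by positivity)
  have hcount : Real.exp (ℓ - 4 * η * ℓ) / 2 - Real.exp (3 * η * ℓ) ≤ (NX P (XX T) m c N (2 * N) : ℝ) := by
    have h1 : 0 ≤ (N : ℝ) / m := by positivity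
    have h2 : (N : ℝ) / m * Real.exp (-(2 * lam)) ≤ (N : ℝ) / m * ∏ p ∈ P, (1 - g p) := mul_le_mul_of_nonneg_left hprod h1
    have h3 : 2 * ((N : ℝ) / m) * Real.exp (3 * lam - L) ≤ 2 * ((N : ℝ) / m) * (Real.exp (-(2 * lam)) / 4) :=
      mul_le_mul_of_nonneg_left hexp (by positivity)
    linarith
  -- the inclusion
  have hsub : NX P (XX T) m c N (2 * N) ≤ (RT A T m c N).card := by
    unfold NX RT
    apply card_le_card
    intro n hn
    rw [mem_filter] at hn ⊢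
    refine ⟨hn.1, hn.2.1, fun p hp hpA t ht hd => ?_⟩
    have hpz : p ≤ z := by
      rw [hzd]
      apply Nat.le_floor
      rw [hℓ]
      exact hpA
    rcases Nat.lt_or_ge y p with h | h
    · have hpP : p ∈ P := by
        rw [hP, Finset.mem_sdiff]
        unfold PJ
        simp only [mem_filter, mem_Icc]
        exact ⟨⟨⟨hp.one_lt.le, hpz⟩, hp⟩, fun h' => by omega⟩
      exact (XX_iff T hp.pos n).1 (hn.2.2 p hpP) t ht hd
    · have h1 : p ∣ m := by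
        rw [hm]
        unfold primorial
        apply dvd_prod_of_mem
        rw [mem_filter, mem_range]
        exact ⟨by omega, hp⟩
      have h2 : n ≡ c [MOD p] := hn.2.1.of_dvd h1
      have h3 : p ∈ PJ y := by
        unfold PJ
        rw [mem_filter, mem_Icc]
        exact ⟨⟨hp.one_lt.le, h⟩, hp⟩
      exact hc p h3 t ht ((Nat.ModEq.dvd_iff (h2.add_right t) (dvd_refl p)).1 hd)
  have hsub' : (NX P (XX T) m c N (2 * N) : ℝ) ≤ ((RT A T m c N).card : ℝ) := by exact_mod_cast hsub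
  refine ⟨m, c, by rw [← hℓ]; exact hm2, le_trans ?_ (hcount.trans hsub')⟩
  -- numbers
  have hNε : (8 : ℝ) < Real.exp (ε / 2 * ℓ) := by
    rw [Real.rpow_def_of_pos hN0] at e5
    rw [hℓ]
    rwa [mul_comm] at e5
  have h1 : (N : ℝ) ^ (1 - ε) = Real.exp ((1 - ε) * ℓ) := by
    rw [Real.rpow_def_of_pos hN0, hℓ]
    congr 1
    ring
  rw [h1]
  have h2 : Real.exp (ℓ - 4 * η * ℓ) = Real.exp ((1 - ε) * ℓ) * Real.exp (3 * ε / 4 * ℓ) := by
    rw [← Real.exp_add]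
    congr 1
    rw [hη]
    ring
  have hεℓ : 0 < ε * ℓ := by positivity
  have h3 : Real.exp (ε / 2 * ℓ) ≤ Real.exp (3 * ε / 4 * ℓ) := by
    apply Real.exp_le_exp.2
    linarith
  have h4 : Real.exp (3 * η * ℓ) ≤ Real.exp (ℓ - 4 * η * ℓ) / 8 := by
    have h5 : Real.exp (3 * η * ℓ) * Real.exp (ε / 2 * ℓ) ≤ Real.exp (ℓ - 4 * η * ℓ) := by
      rw [← Real.exp_add]
      apply Real.exp_le_exp.2
      rw [hη]
      have : ε * ℓ ≤ 1 * ℓ := mul_le_mul_of_nonneg_right hε1 hℓ0.le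
      linarith
    have h6 : 0 < Real.exp (3 * η * ℓ) := Real.exp_pos _
    nlinarith
  have h5 : 0 < Real.exp ((1 - ε) * ℓ) := Real.exp_pos _
  have h6 : Real.exp ((1 - ε) * ℓ) * 8 ≤ Real.exp ((1 - ε) * ℓ) * Real.exp (3 * ε / 4 * ℓ) :=
    mul_le_mul_of_nonneg_left (by linarith) h5.le
  rw [h2] at h4 ⊢
  linarith

end Pool.Agent.T2H62.ML
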