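import Pool.Agent.T2H62.ML.W
import Pool.Agent.T2H62.ML.G

set_option autoImplicit false

/-! # Large patterns of random primes: existence and upper bound -/

namespace Pool.Agent.T2H62.ML

open Finset Filter Topology MeasureTheory ProbabilityTheory
open Pool.Agent.T2H53.GW
open Pool.Agent.T2H62.MD
open Pool.Agent.H305R2 (VV VV_tendsto)

variable {Ω : Type*} [MeasurableSpace Ω] {μ : Measure Ω} [IsProbabilityMeasure μ] {S : ℕ → Set Ω}

/-- one pattern: the probability that it does not occur -/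
theorem pattern_one (hm : ∀ n, MeasurableSet (S n)) (hi : iIndepSet S μ) (N k m c : ℕ) (T : Finset ℕ) (hT : T ⊆ Icc 1 k)
    (hkm : k < m) (f : ℕ → ℝ) (G : Finset ℕ) (hG : ∀ x ∈ G, x ∈ Ioc N (2 * N) ∧ x ≡ c [MOD m]) (q : ℝ)
    (hf : ∀ v, μ.real (S v) = f v) (hq : ∀ x ∈ G, q ≤ ∏ h ∈ Icc 1 k, (if h ∈ T then f (x + h) else 1 - f (x + h))) :
    μ.real {ω | ∀ x ∈ Ioc N (2 * N), ¬ ∀ h ∈ Icc 1 k, (ω ∈ S (x + h) ↔ h ∈ T)} ≤ Real.exp (-(G.card * q)) := by
  classical
  obtain ⟨C, hC⟩ : ∃ C : Finset ℕ, C = (Ioc N (2 * N)).filter (fun x => x ≡ c [MOD m]) := ⟨_, rfl⟩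
  have hCm : ∀ x, x ∈ C ↔ x ∈ Ioc N (2 * N) ∧ x ≡ c [MOD m] := by
    intro x
    rw [hC, mem_filter]
  obtain ⟨B, hB⟩ : ∃ B : Set ℕ, B = {v | ∃ x ∈ C, ∃ h ∈ Icc 1 k, h ∉ T ∧ v = x + h} := ⟨_, rfl⟩
  obtain ⟨S', hS'⟩ : ∃ S' : ℕ → Set Ω, S' = fun v => if v ∈ B then (S v)ᶜ else S v := ⟨_, rfl⟩
  obtain ⟨W, hW⟩ : ∃ W : ℕ → Finset ℕ, W = fun x => if x ∈ C then (Icc 1 k).image (fun h => x + h) else ∅ := ⟨_, rfl⟩
  have hm' : ∀ v, MeasurableSet (S' v) := by
    intro v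
    rw [hS']
    simp only
    split_ifs
    · exact (hm v).compl
    · exact hm v
  have hi' : iIndepSet S' μ := by
    rw [hS']
    exact indep_flip hi B
  -- the positions in different windows are different
  have hsep : ∀ x ∈ C, ∀ x' ∈ C, ∀ h ∈ Icc 1 k, ∀ h' ∈ Icc 1 k, x + h = x' + h' → x = x' ∧ h = h' := by
    intro x hx x' hx' h hh h' hh' he
    rw [mem_Icc] at hh hh'
    have h1 : x ≡ x' [MOD m] := ((hCm x).1 hx).2.trans ((hCm x').1 hx').2.symm
    have h2 : x = x' := by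
      rcases le_total x x' with h3 | h3
      · have h4 : m ∣ x' - x := (Nat.modEq_iff_dvd' h3).1 h1
        rcases Nat.eq_zero_or_pos (x' - x) with h5 | h5
        · omega
        · have := Nat.le_of_dvd h5 h4
          omega
      · have h4 : m ∣ x - x' := (Nat.modEq_iff_dvd' h3).1 h1.symm
        rcases Nat.eq_zero_or_pos (x - x') with h5 | h5
        · omega
        · have := Nat.le_of_dvd h5 h4
          omega
    exact ⟨h2, by omega⟩
  have hB1 : ∀ x ∈ C, ∀ h ∈ Icc 1 k, (x + h ∈ B ↔ h ∉ T) := by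
    intro x hx h hh
    rw [hB]
    constructor
    · rintro ⟨x', hx', h', hh', hn, he⟩
      obtain ⟨_, h2⟩ := hsep x hx x' hx' h hh h' hh' he
      rwa [h2]
    · intro hn
      exact ⟨x, hx, h, hh, hn, rfl⟩
  have hWd : ∀ a b, a ≠ b → Disjoint (W a) (W b) := by
    intro a b hab
    rw [hW]
    simp only
    split_ifs with ha hb
    · rw [Finset.disjoint_left]
      intro z hz hz'
      rw [mem_image] at hz hz'
      obtain ⟨h, hh, rfl⟩ := hz
      obtain ⟨h', hh', he⟩ := hz'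
      exact hab (hsep a ha b hb h hh h' hh' he.symm).1
    · exact disjoint_empty_right _
    · exact disjoint_empty_left _
    · exact disjoint_empty_left _
  have hE := indep_blocks hm' hi' W hWd
  have hEm : ∀ x, MeasurableSet (⋂ v ∈ W x, S' v) := fun x => (W x).measurableSet_biInter fun v _ => hm' v
  have hGC : G ⊆ C := fun x hx => (hCm x).2 (hG x hx)
  have hWx : ∀ x ∈ C, W x = (Icc 1 k).image (fun h => x + h) := by
    intro x hx
    rw [hW]
    simp only
    rw [if_pos hx]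
  have hmem : ∀ x ∈ C, ∀ ω, ω ∈ (⋂ v ∈ W x, S' v) → ∀ h ∈ Icc 1 k, (ω ∈ S (x + h) ↔ h ∈ T) := by
    intro x hx ω hω h hh
    rw [hWx x hx] at hω
    simp only [Set.mem_iInter] at hω
    have h1 := hω (x + h) (mem_image_of_mem _ hh)
    rw [hS'] at h1
    simp only at h1
    by_cases hhT : h ∈ T
    · rw [if_neg (fun h2 => ((hB1 x hx h hh).1 h2) hhT)] at h1
      exact ⟨fun _ => hhT, fun _ => h1⟩
    · rw [if_pos ((hB1 x hx h hh).2 hhT)] at h1
      exact ⟨fun h2 => absurd h2 h1, fun h2 => absurd h2 hhT⟩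
  have hprobE : ∀ x ∈ C, μ.real (⋂ v ∈ W x, S' v) = ∏ h ∈ Icc 1 k, (if h ∈ T then f (x + h) else 1 - f (x + h)) := by
    intro x hx
    rw [prob_inter hm' hi', hWx x hx, prod_image (fun a _ b _ h => Nat.add_left_cancel h)]
    refine prod_congr rfl fun h hh => ?_
    rw [hS']
    simp only
    by_cases hhT : h ∈ T
    · rw [if_neg (fun h2 => ((hB1 x hx h hh).1 h2) hhT), if_pos hhT, hf]
    · rw [if_pos ((hB1 x hx h hh).2 hhT), if_neg hhT, probReal_compl_eq_one_sub (hm _), hf]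
  calc μ.real {ω | ∀ x ∈ Ioc N (2 * N), ¬ ∀ h ∈ Icc 1 k, (ω ∈ S (x + h) ↔ h ∈ T)} ≤
        μ.real ((HF (fun x => ⋂ v ∈ W x, S' v) G)ᶜ) := by
        apply measureReal_mono _ (measure_ne_top _ _)
        intro ω hω hH
        unfold HF at hH
        simp only [Set.mem_iUnion] at hH
        obtain ⟨x, hx, hωx⟩ := hH
        exact hω x (hG x hx).1 (hmem x (hGC hx) ω (by simpa using hωx))
    _ ≤ Real.exp (-(∑ x ∈ G, μ.real (⋂ v ∈ W x, S' v))) := none_le _ hEm hE G
    _ ≤ Real.exp (-(G.card * q)) := by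
        apply Real.exp_le_exp.2
        have : (G.card : ℝ) * q ≤ ∑ x ∈ G, μ.real (⋂ v ∈ W x, S' v) := by
          rw [← nsmul_eq_mul, ← sum_const]
          exact sum_le_sum fun x hx => by rw [hprobE x (hGC hx)]; exact hq x hx
        linarith

/-- almost surely all admissible patterns occur exactly -/
theorem patterns_exist (A : ℝ) (hA : 0 < A) (hm : ∀ n, MeasurableSet (S n)) (hi : iIndepSet S μ)
    (hp : ∀ n, μ.real (S n) = pr A n) (ε : ℝ) (hε : 0 < ε) (hε1 : ε ≤ 1) :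
    ∀ᵐ ω ∂μ, ∀ᶠ N : ℕ in atTop, ∀ (k : ℕ) (T : Finset ℕ), T ⊆ Icc 1 k → AdmP T →
      (k : ℝ) * Real.log (Real.log N) ^ 2 ≤ Real.log N ^ 2 →
      (T.card : ℝ) * Real.log (Real.log N) ≤ (1 - ε) * Real.log N →
      ∃ x ∈ Ioc N (2 * N), ∀ h ∈ Icc 1 k, (ω ∈ S (x + h) ↔ h ∈ T) := by
  classical
  have hTn : Tendsto (fun n : ℕ => (n : ℝ)) atTop atTop := tendsto_natCast_atTop_atTop
  have hL : Tendsto (fun n : ℕ => Real.log (n : ℝ)) atTop atTop := Real.tendsto_log_atTop.comp hTn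
  have hL2 : Tendsto (fun n : ℕ => Real.log (Real.log (n : ℝ))) atTop atTop := Real.tendsto_log_atTop.comp hL
  obtain ⟨I, hI⟩ : ∃ I : ℕ → Finset (ℕ × Finset ℕ), I = fun N : ℕ =>
    ((range (⌊Real.log N ^ 2⌋₊ + 1)) ×ˢ (Icc 1 ⌊Real.log N ^ 2⌋₊).powerset).filter (fun z => z.2 ⊆ Icc 1 z.1 ∧ AdmP z.2 ∧
      (z.1 : ℝ) * Real.log (Real.log N) ^ 2 ≤ Real.log N ^ 2 ∧
      (z.2.card : ℝ) * Real.log (Real.log N) ≤ (1 - ε) * Real.log N) := ⟨_, rfl⟩
  obtain ⟨Fl, hFl⟩ : ∃ Fl : ℕ → ℕ × Finset ℕ → Set Ω, Fl = fun N z =>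
    {ω | ∀ x ∈ Ioc N (2 * N), ¬ ∀ h ∈ Icc 1 z.1, (ω ∈ S (x + h) ↔ h ∈ z.2)} := ⟨_, rfl⟩
  have hprob : ∀ᶠ N : ℕ in atTop, μ.real (⋃ z ∈ I N, Fl N z) ≤ 1 / (N : ℝ) ^ 2 := by
    filter_upwards [many_places A hA (ε / 4) (by positivity) (by linarith), pr_up A hA,
      hL2.eventually_ge_atTop (64 / ε + 3), hL.eventually_ge_atTop (16 / ε + 3), log_log_small 8 1 1 one_pos,
      log_pow_small 2 4 (ε / 2) (by positivity) (by norm_num), log_pow_small 2 1 1 one_pos one_pos, eventually_ge_atTop 3]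
      with N e1 e2 e3 e4 e5 e6 e7 e8
    have hN0 : (0 : ℝ) < N := by exact_mod_cast (by omega : 0 < N)
    obtain ⟨ℓ, hℓ⟩ : ∃ ℓ : ℝ, ℓ = Real.log N := ⟨_, rfl⟩
    obtain ⟨ℓ₂, hℓ₂⟩ : ∃ ℓ₂ : ℝ, ℓ₂ = Real.log (Real.log N) := ⟨_, rfl⟩
    rw [pow_one, Real.rpow_one, ← hℓ₂, ← hℓ] at e5
    rw [← hℓ₂] at e1 e2 e3
    rw [← hℓ] at e1 e2 e4 e6 e7
    rw [Real.rpow_one, one_mul] at e7
    have h64 : 0 < 64 / ε := by positivity
    have h16 : 0 < 16 / ε := by positivity
    have hℓ₂0 : 0 < ℓ₂ := by linarith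
    have hℓ0 : 0 < ℓ := by linarith
    have hℓ1 : 3 ≤ ℓ := by linarith
    have hℓ₂1 : 3 ≤ ℓ₂ := by linarith
    have hone : ∀ z ∈ I N, μ.real (Fl N z) ≤ Real.exp (-(4 * ℓ ^ 2)) := by
      rintro ⟨k, T⟩ hz
      rw [hI, mem_filter] at hz
      obtain ⟨_, hTk, hTa, hk, hTc⟩ := hz
      simp only at hTk hTa hk hTc
      rw [← hℓ₂, ← hℓ] at hk hTc
      have hTc' : (T.card : ℝ) * ℓ₂ ≤ ℓ := hTc.trans (by nlinarith)
      obtain ⟨m, c, hm2, hcount⟩ := e1 T hTa hTc'
      have hkℓ : (k : ℝ) ≤ ℓ ^ 2 := by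
        have h1 : (k : ℝ) * 1 ≤ (k : ℝ) * ℓ₂ ^ 2 := mul_le_mul_of_nonneg_left (by nlinarith) (Nat.cast_nonneg _)
        linarith
      have hkm : k < m := by exact_mod_cast lt_of_le_of_lt hkℓ hm2
      have hTcℓ : (T.card : ℝ) ≤ ℓ := by
        have h1 : (T.card : ℝ) * 1 ≤ (T.card : ℝ) * ℓ₂ := mul_le_mul_of_nonneg_left (by linarith) (Nat.cast_nonneg _)
        linarith
      have hq : ∀ x ∈ RT A T m c N, (1 / (ℓ + 2)) ^ T.card * (1 - 4 * ℓ₂ / ℓ) ^ k ≤
          ∏ h ∈ Icc 1 k, (if h ∈ T then pr A (x + h) else 1 - pr A (x + h)) := by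
        intro x hx
        unfold RT at hx
        rw [mem_filter, mem_Ioc] at hx
        obtain ⟨⟨hx1, hx2⟩, _, hx3⟩ := hx
        have hb0 : 0 ≤ 1 - 4 * ℓ₂ / ℓ := by
          have : 4 * ℓ₂ / ℓ ≤ 1 := by rw [div_le_one hℓ0]; linarith
          linarith
        have hb1 : 1 - 4 * ℓ₂ / ℓ ≤ 1 := by
          have : 0 ≤ 4 * ℓ₂ / ℓ := by positivity
          linarith
        rw [prod_ite]
        have h1 : (Icc 1 k).filter (fun h => h ∈ T) = T := by
          ext h
          rw [mem_filter]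
          exact ⟨fun h' => h'.2, fun h' => ⟨hTk h', h'⟩⟩
        rw [h1]
        apply mul_le_mul
        · rw [← prod_const]
          refine prod_le_prod (fun _ _ => by positivity) fun h hh => ?_
          have h2 := mem_Icc.1 (hTk hh)
          have hh3 : (h : ℝ) ≤ N := by
            have : (h : ℝ) ≤ k := by exact_mod_cast h2.2
            linarith
          have h3 : ((x + h : ℕ) : ℝ) ≤ 3 * N := by
            push_cast
            have : (x : ℝ) ≤ 2 * N := by exact_mod_cast hx2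
            linarith
          have h4 : Real.log ((x + h : ℕ) : ℝ) ≤ ℓ + 2 := by
            have h5 : (0 : ℝ) < ((x + h : ℕ) : ℝ) := by exact_mod_cast (by omega : 0 < x + h)
            have h6 := Real.log_le_log h5 h3
            rw [Real.log_mul (by norm_num) hN0.ne', ← hℓ] at h6
            have h7 : Real.log 3 ≤ 2 := by
              have := Real.log_le_sub_one_of_pos (show (0 : ℝ) < 3 by norm_num)
              linarith
            linarith
          have h5 : ℓ ≤ Real.log ((x + h : ℕ) : ℝ) := by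
            rw [hℓ]
            exact Real.log_le_log hN0 (by exact_mod_cast (by omega : N ≤ x + h))
          have h6 := pr_ge (A := A) (n := x + h) (by omega) (fun p hpp hpA => hx3 p hpp (by
            refine hpA.trans ?_
            rw [← hℓ]
            calc A * Real.log ((x + h : ℕ) : ℝ) ≤ A * (2 * ℓ) := mul_le_mul_of_nonneg_left (by linarith) hA.le
              _ = 2 * A * ℓ := by ring) h hh)
          refine le_trans ?_ h6
          exact one_div_le_one_div_of_le (by linarith) h4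
        · calc (1 - 4 * ℓ₂ / ℓ) ^ k ≤ (1 - 4 * ℓ₂ / ℓ) ^ ((Icc 1 k).filter (fun h => h ∉ T)).card := by
                apply pow_le_pow_of_le_one hb0 hb1
                refine (card_filter_le _ _).trans ?_
                rw [Nat.card_Icc]
                omega
            _ = ∏ h ∈ (Icc 1 k).filter (fun h => h ∉ T), (1 - 4 * ℓ₂ / ℓ) := (prod_const _).symm
            _ ≤ ∏ h ∈ (Icc 1 k).filter (fun h => h ∉ T), (1 - pr A (x + h)) := by
                refine prod_le_prod (fun _ _ => hb0) fun h _ => ?_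
                have := e2 (x + h) (by omega)
                linarith
        · positivity
        · exact prod_nonneg fun h _ => pr_nonneg A _
      rw [hFl]
      refine (pattern_one hm hi N k m c T hTk hkm (pr A) (RT A T m c N) (fun x hx => by
        unfold RT at hx
        rw [mem_filter] at hx
        exact ⟨hx.1, hx.2.1⟩) _ hp hq).trans ?_
      apply Real.exp_le_exp.2
      -- the expected number
      have h1 : Real.exp (-((1 - ε) * ℓ + 2)) ≤ (1 / (ℓ + 2)) ^ T.card := by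
        have h2 : (1 / (ℓ + 2)) ^ T.card = Real.exp (-(T.card * Real.log (ℓ + 2))) := by
          rw [one_div, inv_pow, Real.exp_neg, ← Real.rpow_natCast, Real.rpow_def_of_pos (by positivity)]
          congr 2
          ring
        rw [h2]
        apply Real.exp_le_exp.2
        have h3 : Real.log (ℓ + 2) ≤ ℓ₂ + 2 / ℓ := by
          have h4 : ℓ + 2 = ℓ * (1 + 2 / ℓ) := by field_simp
          rw [h4, Real.log_mul hℓ0.ne' (by positivity)]
          have h5 := Real.log_le_sub_one_of_pos (show (0 : ℝ) < 1 + 2 / ℓ by positivity)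
          have h6 : Real.log ℓ = ℓ₂ := by rw [hℓ, hℓ₂]
          linarith
        have h4 : (T.card : ℝ) * Real.log (ℓ + 2) ≤ (T.card : ℝ) * (ℓ₂ + 2 / ℓ) :=
          mul_le_mul_of_nonneg_left h3 (Nat.cast_nonneg _)
        have h5 : (T.card : ℝ) * (2 / ℓ) ≤ 2 := by
          calc (T.card : ℝ) * (2 / ℓ) ≤ ℓ * (2 / ℓ) := mul_le_mul_of_nonneg_right hTcℓ (by positivity)
            _ = 2 := by field_simp
        linarith
      have h2 : Real.exp (-(8 * ℓ / ℓ₂)) ≤ (1 - 4 * ℓ₂ / ℓ) ^ k := by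
        have h3 : Real.exp (-(8 * ℓ₂ / ℓ)) ≤ 1 - 4 * ℓ₂ / ℓ := by
          have h4 := prod_exp (fun _ => 4 * ℓ₂ / ℓ) {0} (fun _ _ => ⟨by positivity, by
            rw [div_le_iff₀ hℓ0]
            linarith⟩)
          rw [sum_singleton, prod_singleton] at h4
          have h5 : 2 * (4 * ℓ₂ / ℓ) = 8 * ℓ₂ / ℓ := by ring
          rwa [h5] at h4
        calc Real.exp (-(8 * ℓ / ℓ₂)) ≤ Real.exp (k * (-(8 * ℓ₂ / ℓ))) := by
              apply Real.exp_le_exp.2
              have h4 : (k : ℝ) * (8 * ℓ₂ / ℓ) ≤ 8 * ℓ / ℓ₂ := by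
                rw [mul_div_assoc', div_le_div_iff₀ hℓ0 hℓ₂0]
                nlinarith
              linarith
          _ = (Real.exp (-(8 * ℓ₂ / ℓ))) ^ k := by rw [← Real.exp_nat_mul]
          _ ≤ (1 - 4 * ℓ₂ / ℓ) ^ k := pow_le_pow_left₀ (Real.exp_pos _).le h3 k
      have h3 : Real.exp ((1 - ε / 4) * ℓ) ≤ ((RT A T m c N).card : ℝ) := by
        refine le_trans (le_of_eq ?_) hcount
        rw [Real.rpow_def_of_pos hN0, hℓ]
        congr 1
        ring
      have h4 : Real.exp (ε / 2 * ℓ) ≤ ((RT A T m c N).card : ℝ) * ((1 / (ℓ + 2)) ^ T.card * (1 - 4 * ℓ₂ / ℓ) ^ k) := by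
        calc Real.exp (ε / 2 * ℓ) ≤ Real.exp ((1 - ε / 4) * ℓ) * (Real.exp (-((1 - ε) * ℓ + 2)) * Real.exp (-(8 * ℓ / ℓ₂))) := by
              rw [← Real.exp_add, ← Real.exp_add]
              apply Real.exp_le_exp.2
              have h5 : 8 * ℓ / ℓ₂ ≤ ε / 8 * ℓ := by
                rw [div_le_iff₀ hℓ₂0]
                have h6 : 64 / ε ≤ ℓ₂ := by linarith
                rw [div_le_iff₀ hε] at h6
                nlinarith
              have h6 : 16 / ε ≤ ℓ := by linarith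
              rw [div_le_iff₀ hε] at h6
              nlinarith
          _ ≤ ((RT A T m c N).card : ℝ) * ((1 / (ℓ + 2)) ^ T.card * (1 - 4 * ℓ₂ / ℓ) ^ k) := by
              apply mul_le_mul h3 _ (by positivity) (by positivity)
              exact mul_le_mul h1 h2 (by positivity) (by positivity)
      rw [Real.rpow_def_of_pos hN0, ← hℓ, mul_comm ℓ] at e6
      linarith
    -- the number of the patterns
    have hcard : ((I N).card : ℝ) ≤ Real.exp (2 * ℓ ^ 2) := by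
      obtain ⟨K₀, hK₀⟩ : ∃ K₀ : ℕ, K₀ = ⌊ℓ ^ 2⌋₊ := ⟨_, rfl⟩
      have h1 : (I N).card ≤ (K₀ + 1) * 2 ^ K₀ := by
        rw [hI]
        refine (card_filter_le _ _).trans ?_
        rw [card_product, card_range, card_powerset, Nat.card_Icc, ← hℓ, ← hK₀, Nat.add_sub_cancel]
      have h2 : (K₀ : ℝ) ≤ ℓ ^ 2 := by rw [hK₀]; exact Nat.floor_le (by positivity)
      have h3 : ((I N).card : ℝ) ≤ ((K₀ : ℝ) + 1) * 2 ^ K₀ := by exact_mod_cast h1
      refine h3.trans ?_
      calc ((K₀ : ℝ) + 1) * 2 ^ K₀ ≤ Real.exp (ℓ ^ 2) * Real.exp (ℓ ^ 2) := by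
            apply mul_le_mul _ _ (by positivity) (Real.exp_pos _).le
            · have := Real.add_one_le_exp (ℓ ^ 2)
              linarith
            · have h4 : (2 : ℝ) ≤ Real.exp 1 := by linarith [Real.exp_one_gt_d9]
              calc (2 : ℝ) ^ K₀ ≤ (Real.exp 1) ^ K₀ := pow_le_pow_left₀ (by norm_num) h4 _
                _ = Real.exp (K₀ * 1) := by rw [← Real.exp_nat_mul]
                _ ≤ Real.exp (ℓ ^ 2) := Real.exp_le_exp.2 (by linarith)
        _ = Real.exp (2 * ℓ ^ 2) := by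
            rw [← Real.exp_add]
            congr 1
            ring
    calc μ.real (⋃ z ∈ I N, Fl N z) ≤ ∑ z ∈ I N, μ.real (Fl N z) := measureReal_biUnion_finset_le _ _
      _ ≤ ∑ z ∈ I N, Real.exp (-(4 * ℓ ^ 2)) := sum_le_sum hone
      _ = (I N).card * Real.exp (-(4 * ℓ ^ 2)) := by rw [sum_const, nsmul_eq_mul]
      _ ≤ Real.exp (2 * ℓ ^ 2) * Real.exp (-(4 * ℓ ^ 2)) := mul_le_mul_of_nonneg_right hcard (Real.exp_pos _).le
      _ ≤ Real.exp (-(2 * ℓ)) := by
          rw [← Real.exp_add]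
          apply Real.exp_le_exp.2
          nlinarith
      _ = 1 / (N : ℝ) ^ 2 := by
          rw [Real.exp_neg, hℓ, show 2 * Real.log (N : ℝ) = Real.log ((N : ℝ) ^ 2) by rw [Real.log_pow]; norm_num,
            Real.exp_log (by positivity), one_div]
  obtain ⟨n₀, hn₀⟩ := eventually_atTop.1 hprob
  have hsum : Summable (fun N : ℕ => 1 / (N : ℝ) ^ 2) := Real.summable_one_div_nat_pow.2 (by norm_num)
  have h2 := bc (μ := μ) (fun N => ⋃ z ∈ I N, Fl N z) n₀ _ hsum (fun n hn => hn₀ n hn)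
  filter_upwards [h2] with ω hω
  filter_upwards [hω, hL2.eventually_ge_atTop 1] with N h3 h4 k T hTk hTa hk hTc
  have hkL : (k : ℝ) ≤ Real.log N ^ 2 := by
    have h5 : (1 : ℝ) ≤ Real.log (Real.log N) ^ 2 := by nlinarith
    have h6 : (k : ℝ) * 1 ≤ (k : ℝ) * Real.log (Real.log N) ^ 2 := mul_le_mul_of_nonneg_left h5 (Nat.cast_nonneg _)
    linarith
  have hkf : k ≤ ⌊Real.log N ^ 2⌋₊ := Nat.le_floor hkL
  have hzI : (k, T) ∈ I N := by
    rw [hI, mem_filter, mem_product, mem_range, mem_powerset]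
    exact ⟨⟨by omega, hTk.trans (Icc_subset_Icc_right hkf)⟩, hTk, hTa, hk, hTc⟩
  by_contra h7
  push Not at h7
  apply h3
  simp only [Set.mem_iUnion]
  refine ⟨(k, T), hzI, ?_⟩
  rw [hFl]
  intro x hx h8
  obtain ⟨h, hh, h9⟩ := h7 x hx
  have h10 := h8 h hh
  rcases h9 with ⟨h11, h12⟩ | ⟨h11, h12⟩
  · exact h12 (h10.1 h11)
  · exact h11 (h10.2 h12)

/-- almost surely no window of length `M log x` has many more than `log x / log log x` elements -/
theorem windows_upper (A : ℝ) (hA : 0 < A) (hm : ∀ n, MeasurableSet (S n)) (hi : iIndepSet S μ)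
    (hp : ∀ n, μ.real (S n) = pr A n) (M : ℝ) (hM : 0 < M) (ε : ℝ) (hε : 0 < ε) (hε1 : ε ≤ 1) :
    ∀ᵐ ω ∂μ, ∀ᶠ x : ℕ in atTop, ∀ U : Finset ℕ, (∀ u ∈ U, 1 ≤ u ∧ (u : ℝ) ≤ M * Real.log x) → (∀ u ∈ U, ω ∈ S (x + u)) →
      (U.card : ℝ) * Real.log (Real.log x) ≤ (1 + ε) * Real.log x := by
  classical
  have hTn : Tendsto (fun n : ℕ => (n : ℝ)) atTop atTop := tendsto_natCast_atTop_atTop
  have hL : Tendsto (fun n : ℕ => Real.log (n : ℝ)) atTop atTop := Real.tendsto_log_atTop.comp hTn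
  have hL2 : Tendsto (fun n : ℕ => Real.log (Real.log (n : ℝ))) atTop atTop := Real.tendsto_log_atTop.comp hL
  obtain ⟨κ, hκ⟩ : ∃ κ : ℕ → ℕ, κ = fun n : ℕ => ⌈(1 + ε) * Real.log n / Real.log (Real.log n)⌉₊ := ⟨_, rfl⟩
  obtain ⟨Y, hY⟩ : ∃ Y : ℕ → ℕ, Y = fun n : ℕ => ⌊M * Real.log n⌋₊ := ⟨_, rfl⟩
  obtain ⟨Bd, hBd⟩ : ∃ Bd : ℕ → Set Ω, Bd = fun x => ⋃ U ∈ (Icc 1 (Y x)).powersetCard (κ x), ⋂ v ∈ U.image (fun u => x + u), S v := ⟨_, rfl⟩
  have hprob : ∀ᶠ x : ℕ in atTop, μ.real (Bd x) ≤ 1 / (x : ℝ) ^ (1 + ε / 2) := by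
    have h0 : ∀ᶠ y : ℝ in atTop, Real.log y + Real.log (12 * M * y) ≤ ε / 4 * y := by
      have h3 := Real.isLittleO_log_id_atTop.bound (show (0 : ℝ) < ε / 8 by positivity)
      have h4 : (fun u : ℝ => Real.log (12 * M * u)) =o[atTop] (fun u : ℝ => 12 * M * u) :=
        Real.isLittleO_log_id_atTop.comp_tendsto (tendsto_id.const_mul_atTop (by positivity))
      have h5 := h4.bound (show (0 : ℝ) < ε / (96 * M) by positivity)
      filter_upwards [h3, h5, eventually_ge_atTop 1] with y h6 h7 h8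
      have h9 := (le_abs_self _).trans h6
      have h10 := (le_abs_self _).trans h7
      simp only [id] at h9
      rw [Real.norm_eq_abs, abs_of_nonneg (by positivity)] at h9 h10
      have h11 : ε / (96 * M) * (12 * M * y) = ε / 8 * y := by
        field_simp
        ring
      rw [h11] at h10
      linarith
    filter_upwards [pr_up A hA, hL2.eventually h0, hL2.eventually_ge_atTop 1, hL.eventually_ge_atTop 3, eventually_ge_atTop 3]
      with n e1 e2 e3 e4 e5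
    have hn0 : (0 : ℝ) < n := by exact_mod_cast (by omega : 0 < n)
    obtain ⟨ℓ, hℓ⟩ : ∃ ℓ : ℝ, ℓ = Real.log n := ⟨_, rfl⟩
    obtain ⟨ℓ₂, hℓ₂⟩ : ∃ ℓ₂ : ℝ, ℓ₂ = Real.log (Real.log n) := ⟨_, rfl⟩
    rw [← hℓ₂] at e1 e2 e3
    rw [← hℓ] at e1 e4
    have hκ' : κ n = ⌈(1 + ε) * ℓ / ℓ₂⌉₊ := by rw [hκ, hℓ, hℓ₂]
    have hY' : (Y n : ℝ) ≤ M * ℓ := by
      rw [hY, hℓ]
      exact Nat.floor_le (by rw [← hℓ]; positivity)
    have hℓ0 : 0 < ℓ := by linarith
    have hℓ₂0 : 0 < ℓ₂ := by linarith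
    have hκ1 : (1 + ε) * ℓ / ℓ₂ ≤ (κ n : ℝ) := by rw [hκ']; exact Nat.le_ceil _
    have hκ0 : 0 < (κ n : ℝ) := lt_of_lt_of_le (by positivity) hκ1
    obtain ⟨h, hh⟩ : ∃ h : ℕ, h = κ n := ⟨_, rfl⟩
    rw [← hh] at hκ1 hκ0
    have hone : ∀ U ∈ (Icc 1 (Y n)).powersetCard h, μ.real (⋂ v ∈ U.image (fun u => n + u), S v) ≤ (4 * ℓ₂ / ℓ) ^ h := by
      intro U hU
      rw [prob_inter hm hi, prod_image (fun a _ b _ h => Nat.add_left_cancel h)]
      calc ∏ u ∈ U, μ.real (S (n + u)) ≤ ∏ u ∈ U, (4 * ℓ₂ / ℓ) := by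
            refine prod_le_prod (fun j _ => measureReal_nonneg) fun j _ => ?_
            rw [hp]
            exact e1 _ (by omega)
        _ = (4 * ℓ₂ / ℓ) ^ h := by rw [prod_const, (mem_powersetCard.1 hU).2]
    calc μ.real (Bd n) ≤ ∑ U ∈ (Icc 1 (Y n)).powersetCard h, μ.real (⋂ v ∈ U.image (fun u => n + u), S v) := by
          rw [hBd, hh]
          exact measureReal_biUnion_finset_le _ _
      _ ≤ ∑ U ∈ (Icc 1 (Y n)).powersetCard h, (4 * ℓ₂ / ℓ) ^ h := sum_le_sum hone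
      _ = ((Y n).choose h : ℝ) * (4 * ℓ₂ / ℓ) ^ h := by
          rw [sum_const, card_powersetCard, Nat.card_Icc, Nat.add_sub_cancel, nsmul_eq_mul]
      _ ≤ ((Y n : ℝ) ^ h / (Nat.factorial h : ℝ)) * (4 * ℓ₂ / ℓ) ^ h :=
          mul_le_mul_of_nonneg_right (Nat.choose_le_pow_div h (Y n)) (by positivity)
      _ ≤ ((M * ℓ) ^ h / (Nat.factorial h : ℝ)) * (4 * ℓ₂ / ℓ) ^ h := by
          apply mul_le_mul_of_nonneg_right _ (by positivity)
          apply div_le_div_of_nonneg_right _ (by positivity)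
          exact pow_le_pow_left₀ (Nat.cast_nonneg _) hY' h
      _ = (4 * M * ℓ₂ / h) ^ h * ((h : ℝ) ^ h / (Nat.factorial h : ℝ)) := by
          have hb1 : M * ℓ * (4 * ℓ₂ / ℓ) = 4 * M * ℓ₂ / h * h := by
            have : (h : ℝ) ≠ 0 := hκ0.ne'
            have : ℓ ≠ 0 := by positivity
            field_simp
          rw [div_mul_eq_mul_div, ← mul_pow, hb1, mul_pow, mul_div_assoc]
      _ ≤ (4 * M * ℓ₂ / h) ^ h * Real.exp h :=
          mul_le_mul_of_nonneg_left (Real.pow_div_factorial_le_exp _ hκ0.le h) (by positivity)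
      _ ≤ (12 * M * ℓ₂ / h) ^ h := by
          have h1 : Real.exp h = (Real.exp 1) ^ h := by rw [← Real.exp_nat_mul, mul_one]
          rw [h1, ← mul_pow]
          apply pow_le_pow_left₀ (by positivity)
          have h2 : Real.exp 1 ≤ 3 := by linarith [Real.exp_one_lt_d9]
          calc 4 * M * ℓ₂ / h * Real.exp 1 ≤ 4 * M * ℓ₂ / h * 3 := mul_le_mul_of_nonneg_left h2 (by positivity)
            _ = 12 * M * ℓ₂ / h := by ring
      _ = Real.exp (-((h : ℝ) * (Real.log h - Real.log (12 * M * ℓ₂)))) := by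
          rw [← Real.rpow_natCast, Real.rpow_def_of_pos (by positivity), Real.log_div (by positivity) hκ0.ne']
          congr 1
          ring
      _ ≤ Real.exp (-((1 + ε / 2) * ℓ)) := by
          apply Real.exp_le_exp.2
          have h1 : ℓ₂ - Real.log ℓ₂ ≤ Real.log h := by
            have h2 : Real.log (ℓ / ℓ₂) ≤ Real.log h := by
              apply Real.log_le_log (by positivity)
              refine le_trans ?_ hκ1
              apply div_le_div_of_nonneg_right _ hℓ₂0.le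
              nlinarith
            rw [Real.log_div hℓ0.ne' hℓ₂0.ne'] at h2
            have h3 : Real.log ℓ = ℓ₂ := by rw [hℓ, hℓ₂]
            linarith
          have h2 : (1 - ε / 4) * ℓ₂ ≤ Real.log h - Real.log (12 * M * ℓ₂) := by linarith
          have h3 : (1 + ε) * ℓ / ℓ₂ * ((1 - ε / 4) * ℓ₂) ≤ (h : ℝ) * (Real.log h - Real.log (12 * M * ℓ₂)) := by
            apply mul_le_mul hκ1 h2 _ hκ0.le
            have : 0 ≤ 1 - ε / 4 := by linarith
            positivity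
          have h5 : (1 + ε) * ℓ / ℓ₂ * ((1 - ε / 4) * ℓ₂) = (1 + ε) * (1 - ε / 4) * ℓ := by field_simp
          have h6 : (1 + ε / 2) * ℓ ≤ (1 + ε) * (1 - ε / 4) * ℓ := by
            apply mul_le_mul_of_nonneg_right _ hℓ0.le
            nlinarith
          linarith
      _ = 1 / (n : ℝ) ^ (1 + ε / 2) := by
          rw [Real.exp_neg, Real.rpow_def_of_pos hn0, ← hℓ, one_div]
          congr 2
          ring
  obtain ⟨n₀, hn₀⟩ := eventually_atTop.1 hprob
  have hsum : Summable (fun n : ℕ => 1 / (n : ℝ) ^ (1 + ε / 2)) := Real.summable_one_div_nat_rpow.2 (by linarith)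
  have h2 := bc (μ := μ) Bd n₀ _ hsum (fun n hn => hn₀ n hn)
  filter_upwards [h2] with ω hω
  filter_upwards [hω, hL2.eventually_ge_atTop 1, hL.eventually_ge_atTop 0] with x h3 h4 h4' U hU1 hU2
  by_contra h5
  push Not at h5
  apply h3
  have h6 : κ x ≤ U.card := by
    rw [hκ]
    apply Nat.ceil_le.2
    rw [div_le_iff₀ (by linarith)]
    exact h5.le
  obtain ⟨U', hU', hc⟩ := exists_subset_card_eq h6
  rw [hBd]
  simp only [Set.mem_iUnion]
  refine ⟨U', mem_powersetCard.2 ⟨fun u hu => ?_, hc⟩, ?_⟩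
  · obtain ⟨h7, h8⟩ := hU1 u (hU' hu)
    rw [mem_Icc, hY]
    exact ⟨h7, Nat.le_floor h8⟩
  · simp only [Set.mem_iInter, mem_image]
    rintro v ⟨u, hu, rfl⟩
    exact hU2 u (hU' hu)

end Pool.Agent.T2H62.ML
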